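import Pool.Agent.Lib.MP_7cdc3e_gt.A.Spec

/-!
# Theorem A, H5: cycles in the image of a chart are boundaries
-/

open HoloConj Pool.Agent.Lib.SingHom

namespace TightRP

namespace Ver

theorem tBall (h1 : ContrStmt) : BallStmt := by
  intro F _ X _ g hg z hz hdz
  obtain ⟨c, hc⟩ := exists_lift hz
  let e : R3 ≃ₜ Set.range g := hg.toIsEmbedding.toHomeomorph
  let k : C(Set.range g, R3) := ⟨e.symm, e.symm.continuous⟩
  let gc : C(R3, X) := ⟨g, hg.continuous⟩
  have hcomp : gc.comp k = incl (Set.range g) := by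
    ext x
    show g (e.symm x) = x.1
    have h := congrArg Subtype.val (e.apply_symm_apply x)
    exact h
  have hz' : smp F gc 1 (smp F k 1 c) = z := by
    rw [← smp_comp, hcomp, hc]
  have hcyc : smp F k 1 c ∈ Zc F R3 1 := by
    show sbd F 0 (smp F k 1 c) = 0
    apply smp_injective (f := gc) hg.injective 0
    rw [← sbd_smp, hz', hdz, map_zero]
  have hs : Subsingleton (Hq F (0 + 1) R3) := h1 F R3 0
  have hb : IsBdry F 1 (smp F k 1 c) :=
    (cls_eq_zero F ⟨smp F k 1 c, hcyc⟩).1 (hs.elim _ _)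
  obtain ⟨y, hy⟩ := hb
  refine ⟨smp F gc 2 y, ?_⟩
  rw [sbd_smp, hy, hz']

end Ver

end TightRP
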