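import Pool.Agent.Lib.MP_7cdc3e_gt.A.Spec

/-!
# MP_7cdc3e_gt, Theorem A, L1: maps which preserve positive semidefiniteness are congruences
-/

namespace TightRP

namespace Ver

namespace Cong

/-- a symmetric `2 × 2` matrix -/
def sm (a b d : ℝ) : Matrix (Fin 2) (Fin 2) ℝ := !![a, b; b, d]

theorem sm_symm (a b d : ℝ) : (sm a b d).IsSymm := by
  ext i j
  fin_cases i <;> fin_cases j <;> simp [sm]

theorem eq_sm {c : Matrix (Fin 2) (Fin 2) ℝ} (hc : c.IsSymm) : c = sm (c 0 0) (c 0 1) (c 1 1) := by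
  have h : c 1 0 = c 0 1 := hc.apply 0 1
  ext i j
  fin_cases i <;> fin_cases j <;> simp [sm, h]

theorem qf_sm (a b d : ℝ) (y : Fin 2 → ℝ) :
    qf (sm a b d) y = a * y 0 ^ 2 + 2 * b * (y 0 * y 1) + d * y 1 ^ 2 := by
  simp only [qf, sm, Fin.sum_univ_two, Matrix.of_apply, Matrix.cons_val', Matrix.cons_val_zero,
    Matrix.cons_val_one, Matrix.cons_val_fin_one]
  ring

/-- the criterion for positive semidefiniteness -/
theorem psd_sm (a b d : ℝ) : PSD (sm a b d) ↔ 0 ≤ a ∧ 0 ≤ d ∧ b ^ 2 ≤ a * d := by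
  constructor
  · rintro ⟨-, h⟩
    have ha : 0 ≤ a := by
      have := h ![1, 0]
      rw [qf_sm] at this
      simpa using this
    have hd : 0 ≤ d := by
      have := h ![0, 1]
      rw [qf_sm] at this
      simpa using this
    refine ⟨ha, hd, ?_⟩
    have h1 := h ![b, -a]
    rw [qf_sm] at h1
    simp only [Matrix.cons_val_zero, Matrix.cons_val_one, Matrix.cons_val_fin_one] at h1
    have h1' : 0 ≤ a * (a * d - b ^ 2) := by linarith [h1]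
    rcases ha.eq_or_lt with ha0 | ha0
    · have h2 := h ![-(d + 1), 2 * b]
      rw [qf_sm, ← ha0] at h2
      simp only [Matrix.cons_val_zero, Matrix.cons_val_one, Matrix.cons_val_fin_one] at h2
      have h3 : b ^ 2 ≤ 0 := by
        have e : 0 * (-(d + 1)) ^ 2 + 2 * b * (-(d + 1) * (2 * b)) + d * (2 * b) ^ 2
          = - (4 * b ^ 2) := by ring
        rw [e] at h2
        linarith
      rw [← ha0, zero_mul]
      exact h3
    · have := nonneg_of_mul_nonneg_right h1' ha0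
      linarith
  · rintro ⟨ha, hd, hb⟩
    refine ⟨sm_symm a b d, fun y => ?_⟩
    rw [qf_sm]
    rcases ha.eq_or_lt with ha0 | ha0
    · have hb0 : b = 0 := by
        rw [← ha0, zero_mul] at hb
        exact pow_eq_zero_iff two_ne_zero |>.1 (le_antisymm hb (sq_nonneg b))
      rw [← ha0, hb0]
      have := mul_nonneg hd (sq_nonneg (y 1))
      linarith
    · have h : 0 ≤ a * (a * y 0 ^ 2 + 2 * b * (y 0 * y 1) + d * y 1 ^ 2) := by
        have e : a * (a * y 0 ^ 2 + 2 * b * (y 0 * y 1) + d * y 1 ^ 2)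
          = (a * y 0 + b * y 1) ^ 2 + (a * d - b ^ 2) * y 1 ^ 2 := by ring
        rw [e]
        have := mul_nonneg (sub_nonneg.2 hb) (sq_nonneg (y 1))
        positivity
      exact nonneg_of_mul_nonneg_right h ha0

theorem sm_add (a b d a' b' d' : ℝ) : sm a b d + sm a' b' d' = sm (a + a') (b + b') (d + d') := by
  ext i j
  fin_cases i <;> fin_cases j <;> simp [sm]

theorem smul_sm (s a b d : ℝ) : s • sm a b d = sm (s * a) (s * b) (s * d) := by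
  ext i j
  fin_cases i <;> fin_cases j <;> simp [sm]

/-- a positive definite matrix stays positive semidefinite after a small change -/
theorem exists_eps (a b d a' b' d' : ℝ) (ha : 0 < a) (hd : 0 < d) (h : b ^ 2 < a * d) :
    ∃ ε > 0, PSD (sm (a - ε * a') (b - ε * b') (d - ε * d')) := by
  have h1 : ∀ᶠ ε in nhds (0 : ℝ), 0 < a - ε * a' := by
    have hc : ContinuousAt (fun ε : ℝ => a - ε * a') 0 := by fun_prop
    exact hc.eventually (lt_mem_nhds (by simpa using ha))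
  have h2 : ∀ᶠ ε in nhds (0 : ℝ), 0 < d - ε * d' := by
    have hc : ContinuousAt (fun ε : ℝ => d - ε * d') 0 := by fun_prop
    exact hc.eventually (lt_mem_nhds (by simpa using hd))
  have h3 : ∀ᶠ ε in nhds (0 : ℝ), 0 < (a - ε * a') * (d - ε * d') - (b - ε * b') ^ 2 := by
    have hc : ContinuousAt (fun ε : ℝ => (a - ε * a') * (d - ε * d') - (b - ε * b') ^ 2) 0 := by
      fun_prop
    exact hc.eventually (lt_mem_nhds (by simpa using h))
  have h4 : ∀ᶠ ε in nhdsWithin (0 : ℝ) (Set.Ioi 0), (0 < a - ε * a' ∧ 0 < d - ε * d') ∧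
      0 < (a - ε * a') * (d - ε * d') - (b - ε * b') ^ 2 :=
    ((h1.and h2).and h3).filter_mono nhdsWithin_le_nhds
  obtain ⟨ε, ⟨⟨e1, e2⟩, e3⟩, e4⟩ := (h4.and self_mem_nhdsWithin).exists
  exact ⟨ε, e4, (psd_sm _ _ _).2 ⟨e1.le, e2.le, by linarith⟩⟩

/-- a positive semidefinite matrix of determinant zero is a square -/
theorem exists_sq {a b d : ℝ} (ha : 0 ≤ a) (hd : 0 ≤ d) (h : a * d - b ^ 2 = 0) :
    ∃ x y : ℝ, a = x * x ∧ b = x * y ∧ d = y * y := by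
  rcases ha.eq_or_lt with ha0 | ha0
  · have hb : b = 0 := by
      rw [← ha0, zero_mul, zero_sub, neg_eq_zero] at h
      exact pow_eq_zero_iff two_ne_zero |>.1 h
    exact ⟨0, Real.sqrt d, by simp [← ha0], by simp [hb], (Real.mul_self_sqrt hd).symm⟩
  · have hs : Real.sqrt a * Real.sqrt a = a := Real.mul_self_sqrt ha
    have hs0 : Real.sqrt a ≠ 0 := (Real.sqrt_pos.2 ha0).ne'
    refine ⟨Real.sqrt a, b / Real.sqrt a, hs.symm, (mul_div_cancel₀ b hs0).symm, ?_⟩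
    rw [div_mul_div_comm, hs, eq_div_iff ha0.ne']
    linarith

/-- a quartic polynomial which vanishes everywhere -/
theorem coeff_zero {k₀ k₁ k₂ k₃ k₄ : ℝ}
    (h : ∀ s : ℝ, k₀ + s * k₁ + s ^ 2 * k₂ + s ^ 3 * k₃ + s ^ 4 * k₄ = 0) :
    k₀ = 0 ∧ k₁ = 0 ∧ k₂ = 0 ∧ k₃ = 0 ∧ k₄ = 0 := by
  have h0 := h 0
  have h1 := h 1
  have h2 := h (-1)
  have h3 := h 2
  have h4 := h (-2)
  norm_num at h0 h1 h2 h3 h4
  refine ⟨by linarith, by linarith, by linarith, by linarith, by linarith⟩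

end Cong

open Cong in
/-- L1 -/
theorem congStmt : CongStmt := by
  intro Φ hs hinj hpsd
  -- the images of the basis
  obtain ⟨a₁, b₁, d₁, e₁⟩ : ∃ a b d, Φ (sm 1 0 0) = sm a b d :=
    ⟨_, _, _, eq_sm (hs _ (sm_symm _ _ _))⟩
  obtain ⟨a₂, b₂, d₂, e₂⟩ : ∃ a b d, Φ (sm 0 1 0) = sm a b d :=
    ⟨_, _, _, eq_sm (hs _ (sm_symm _ _ _))⟩
  obtain ⟨a₃, b₃, d₃, e₃⟩ : ∃ a b d, Φ (sm 0 0 1) = sm a b d :=
    ⟨_, _, _, eq_sm (hs _ (sm_symm _ _ _))⟩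
  have hΦ : ∀ a b d, Φ (sm a b d) = sm (a * a₁ + b * a₂ + d * a₃) (a * b₁ + b * b₂ + d * b₃)
      (a * d₁ + b * d₂ + d * d₃) := by
    intro a b d
    have e : sm a b d = a • sm 1 0 0 + b • sm 0 1 0 + d • sm 0 0 1 := by
      rw [smul_sm, smul_sm, smul_sm, sm_add, sm_add]
      simp
    rw [e, map_add, map_add, map_smul, map_smul, map_smul, e₁, e₂, e₃, smul_sm, smul_sm, smul_sm,
      sm_add, sm_add]
  have hP : ∀ a b d, 0 ≤ a → 0 ≤ d → b ^ 2 ≤ a * d →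
      0 ≤ a * a₁ + b * a₂ + d * a₃ ∧ 0 ≤ a * d₁ + b * d₂ + d * d₃ ∧
      (a * b₁ + b * b₂ + d * b₃) ^ 2 ≤ (a * a₁ + b * a₂ + d * a₃) *
        (a * d₁ + b * d₂ + d * d₃) := by
    intro a b d h1 h2 h3
    have := (hpsd (sm a b d) (sm_symm _ _ _)).2 ((psd_sm _ _ _).2 ⟨h1, h2, h3⟩)
    rw [hΦ] at this
    exact (psd_sm _ _ _).1 this
  -- squares go to matrices of determinant zero
  have hdet : ∀ s : ℝ, (a₁ + s * a₂ + s ^ 2 * a₃) * (d₁ + s * d₂ + s ^ 2 * d₃)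
      - (b₁ + s * b₂ + s ^ 2 * b₃) ^ 2 = 0 := by
    intro s
    obtain ⟨h1, h2, h3⟩ := hP 1 s (s ^ 2) zero_le_one (sq_nonneg s) (by linarith)
    simp only [one_mul] at h1 h2 h3
    by_contra hne
    have hpos : (b₁ + s * b₂ + s ^ 2 * b₃) ^ 2 < (a₁ + s * a₂ + s ^ 2 * a₃) *
        (d₁ + s * d₂ + s ^ 2 * d₃) :=
      lt_of_le_of_ne h3 fun h => hne (by rw [h, sub_self])
    have hpos' : 0 < (a₁ + s * a₂ + s ^ 2 * a₃) * (d₁ + s * d₂ + s ^ 2 * d₃) :=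
      lt_of_le_of_lt (sq_nonneg _) hpos
    have hA : 0 < a₁ + s * a₂ + s ^ 2 * a₃ :=
      lt_of_le_of_ne h1 fun h => by rw [← h, zero_mul] at hpos'; exact lt_irrefl _ hpos'
    have hD : 0 < d₁ + s * d₂ + s ^ 2 * d₃ :=
      lt_of_le_of_ne h2 fun h => by rw [← h, mul_zero] at hpos'; exact lt_irrefl _ hpos'
    obtain ⟨ε, hε, hps⟩ := exists_eps _ _ _ (a₁ + a₃) (b₁ + b₃) (d₁ + d₃) hA hD hpos
    have e : sm (a₁ + s * a₂ + s ^ 2 * a₃ - ε * (a₁ + a₃)) (b₁ + s * b₂ + s ^ 2 * b₃ - ε * (b₁ + b₃))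
        (d₁ + s * d₂ + s ^ 2 * d₃ - ε * (d₁ + d₃)) = Φ (sm (1 - ε) s (s ^ 2 - ε)) := by
      rw [hΦ]
      congr 1 <;> ring
    rw [e, hpsd _ (sm_symm _ _ _), psd_sm] at hps
    obtain ⟨g1, g2, g3⟩ := hps
    have g4 : 0 ≤ -(ε * (s ^ 2 + 1 - ε)) := by nlinarith [g3]
    have g5 : 0 < ε * (s ^ 2 + 1 - ε) := mul_pos hε (by linarith)
    linarith
  obtain ⟨k₀, k₁, k₂, k₃, k₄⟩ := coeff_zero (k₀ := a₁ * d₁ - b₁ ^ 2)
    (k₁ := a₁ * d₂ + a₂ * d₁ - 2 * b₁ * b₂)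
    (k₂ := a₁ * d₃ + a₃ * d₁ - 2 * b₁ * b₃ + a₂ * d₂ - b₂ ^ 2)
    (k₃ := a₂ * d₃ + a₃ * d₂ - 2 * b₂ * b₃) (k₄ := a₃ * d₃ - b₃ ^ 2) (by
      intro s
      rw [← hdet s]
      ring)
  obtain ⟨p1, p2, -⟩ := hP 1 0 0 zero_le_one le_rfl (by norm_num)
  obtain ⟨q1, q2, -⟩ := hP 0 0 1 le_rfl zero_le_one (by norm_num)
  simp only [one_mul, zero_mul, add_zero, zero_add] at p1 p2 q1 q2
  obtain ⟨x₀, x₁, rfl, rfl, rfl⟩ := exists_sq p1 p2 k₀
  obtain ⟨y₀, y₁, rfl, rfl, rfl⟩ := exists_sq q1 q2 k₄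
  have hinj' : ∀ α β : ℝ, α * (x₀ * x₀) + β * (y₀ * y₀) = 0 → α * (x₀ * x₁) + β * (y₀ * y₁) = 0 →
      α * (x₁ * x₁) + β * (y₁ * y₁) = 0 → α = 0 ∧ β = 0 := by
    intro α β h1 h2 h3
    have h := hinj (sm α 0 β) (sm_symm _ _ _) (by
      rw [hΦ]
      simp only [zero_mul, add_zero]
      rw [h1, h2, h3]
      ext i j
      fin_cases i <;> fin_cases j <;> simp [sm])
    have h00 := congrFun (congrFun h 0) 0
    have h11 := congrFun (congrFun h 1) 1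
    simp [sm] at h00 h11
    exact ⟨h00, h11⟩
  have hΔ : x₀ * y₁ - x₁ * y₀ ≠ 0 := by
    intro h
    obtain ⟨h1, h2⟩ := hinj' (y₀ * y₀) (-(x₀ * x₀)) (by ring)
      (by linear_combination -(x₀ * y₀) * h) (by
        linear_combination -(x₀ * y₁ + x₁ * y₀) * h)
    obtain ⟨h3, h4⟩ := hinj' (y₁ * y₁) (-(x₁ * x₁)) (by
        linear_combination (x₀ * y₁ + x₁ * y₀) * h)
      (by linear_combination (x₁ * y₁) * h) (by ring)
    have hx0 : x₀ = 0 := by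
      have : x₀ * x₀ = 0 := by linarith
      exact mul_self_eq_zero.1 this
    have hx1 : x₁ = 0 := by
      have : x₁ * x₁ = 0 := by linarith
      exact mul_self_eq_zero.1 this
    have := (hinj' 1 0 (by simp [hx0]) (by simp [hx0]) (by simp [hx1])).1
    exact one_ne_zero this
  have hΔ2 : (x₀ * y₁ - x₁ * y₀) ^ 2 ≠ 0 := pow_ne_zero 2 hΔ
  set Δ := (x₀ * y₁ - x₁ * y₀) ^ 2 with hΔdef
  obtain ⟨β, hβ⟩ : ∃ β, Δ * β = -(x₁ * y₁) * a₂ + (x₀ * y₁ + x₁ * y₀) * b₂ - x₀ * y₀ * d₂ :=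
    ⟨(-(x₁ * y₁) * a₂ + (x₀ * y₁ + x₁ * y₀) * b₂ - x₀ * y₀ * d₂) / Δ, mul_div_cancel₀ _ hΔ2⟩
  have ha : a₂ = β * (2 * x₀ * y₀) := by
    refine mul_left_cancel₀ hΔ2 ?_
    rw [hΔdef] at hβ ⊢
    linear_combination (-(2 * x₀ * y₀)) * hβ + x₀ ^ 2 * k₃ + y₀ ^ 2 * k₁
  have hb : b₂ = β * (x₀ * y₁ + x₁ * y₀) := by
    refine mul_left_cancel₀ hΔ2 ?_
    rw [hΔdef] at hβ ⊢
    linear_combination (-(x₀ * y₁ + x₁ * y₀)) * hβ + x₀ * x₁ * k₃ + y₀ * y₁ * k₁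
  have hd : d₂ = β * (2 * x₁ * y₁) := by
    refine mul_left_cancel₀ hΔ2 ?_
    rw [hΔdef] at hβ ⊢
    linear_combination (-(2 * x₁ * y₁)) * hβ + x₁ ^ 2 * k₃ + y₁ ^ 2 * k₁
  have hβ2 : β ^ 2 = 1 := by
    refine mul_left_cancel₀ hΔ2 ?_
    rw [hΔdef]
    rw [ha, hb, hd] at k₂
    linear_combination -k₂
  refine ⟨!![x₀, β * y₀; x₁, β * y₁], fun c hc => ?_⟩
  rw [eq_sm hc, hΦ, ha, hb, hd]
  generalize c 0 0 = u
  generalize c 0 1 = v
  generalize c 1 1 = w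
  ext i j
  fin_cases i <;> fin_cases j <;>
    simp only [sm, Matrix.mul_apply, Fin.sum_univ_two, Matrix.transpose_apply, Matrix.of_apply,
      Matrix.cons_val', Matrix.cons_val_zero, Matrix.cons_val_one, Matrix.cons_val_fin_one,
      Fin.zero_eta, Fin.mk_one, Fin.isValue]
  · linear_combination (-(w * y₀ ^ 2)) * hβ2
  · linear_combination (-(w * y₀ * y₁)) * hβ2
  · linear_combination (-(w * y₀ * y₁)) * hβ2
  · linear_combination (-(w * y₁ ^ 2)) * hβ2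

end Ver

end TightRP
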