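import Pool.Agent.Lib.MP_7cdc3e_gt.A.Spec

/-!
# MP_7cdc3e_gt, Theorem A: half-space preimages are path connected
-/

open HoloConj Pool.Agent.Lib.SingHom

namespace TightRP.Ver

private theorem conn_lpc {M : Type} [TopologicalSpace M] (h : LocEuc3 M) :
    LocallyPathConnectedSpace M := by
  refine ⟨fun x => ?_⟩
  rw [Filter.hasBasis_self]
  intro t ht
  obtain ⟨U, hU, hxU, ⟨e⟩⟩ := h x
  have hlp : LocallyPathConnectedSpace U := e.isOpenEmbedding.locallyPathConnectedSpace
  have hj : Topology.IsOpenEmbedding (Subtype.val : U → M) := hU.isOpenEmbedding_subtypeVal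
  have h1 : (Subtype.val : U → M) ⁻¹' t ∈ nhds (⟨x, hxU⟩ : U) :=
    hj.continuous.continuousAt.preimage_mem_nhds ht
  obtain ⟨s, ⟨hs1, hs2⟩, hs3⟩ := (path_connected_basis (⟨x, hxU⟩ : U)).mem_iff.1 h1
  refine ⟨Subtype.val '' s, ?_, hs2.image continuous_subtype_val, ?_⟩
  · exact hj.isOpenMap.image_mem_nhds hs1
  · rintro _ ⟨y, hy, rfl⟩
    exact hs3 hy

private theorem conn_two {A : Type} [TopologicalSpace A] (h : ¬ PreconnectedSpace A) :
    ∃ g : A → Fin 2, Continuous g ∧ Function.Surjective g := by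
  rw [preconnectedSpace_iff_clopen] at h
  push Not at h
  obtain ⟨s, hs, hs1, hs2⟩ := h
  have hb : Continuous (s.boolIndicator) := (continuous_boolIndicator_iff_isClopen s).2 hs
  let f : Bool → Fin 2 := fun b => cond b 0 1
  refine ⟨f ∘ s.boolIndicator, (continuous_of_discreteTopology).comp hb, ?_⟩
  intro i
  fin_cases i
  · obtain ⟨x, hx⟩ := hs1
    refine ⟨x, ?_⟩
    have : s.boolIndicator x = true := (s.mem_iff_boolIndicator x).1 hx
    show f (s.boolIndicator x) = 0
    rw [this]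
    rfl
  · obtain ⟨x, hx⟩ := (Set.ne_univ_iff_exists_notMem s).1 hs2
    refine ⟨x, ?_⟩
    have : s.boolIndicator x = false := (s.notMem_iff_boolIndicator x).1 hx
    show f (s.boolIndicator x) = 1
    rw [this]
    rfl

theorem tConn (h1 : H0PathStmt) (h2 : H0LowStmt) : ConnStmt := by
  intro F _ M _ V hV l hl
  have hpc : PathConnectedSpace M := hV.pc
  have hlp : LocallyPathConnectedSpace M := conn_lpc hV.euc
  have hinj : HInj F {x | 0 < l x} 0 := hV.inj l hl 0 (by omega)
  have hop : IsOpen {x | 0 < l x} := isOpen_lt continuous_const (hV.cont l hl)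
  have hrk : Module.rank F (Hq F 0 {x | 0 < l x}) ≤ 1 := by
    have h3 := LinearMap.rank_le_of_injective (Hmap F 0 (incl {x | 0 < l x})) hinj
    rw [h1 F M] at h3
    exact h3
  have hpre : IsPreconnected {x | 0 < l x} := by
    rw [isPreconnected_iff_preconnectedSpace]
    by_contra hn
    obtain ⟨g, hg, hgs⟩ := conn_two hn
    have h4 := (h2 F {x | 0 < l x} 2 g hg hgs).trans hrk
    have h5 : (2 : ℕ) ≤ 1 := by exact_mod_cast h4
    omega
  refine ⟨hpre, ?_⟩
  intro x y hx hy
  have hc : IsConnected {x | 0 < l x} := ⟨⟨x, hx⟩, hpre⟩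
  exact (hop.isConnected_iff_isPathConnected.1 hc).joinedIn x hx y hy

end TightRP.Ver
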