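import Pool.Agent.Lib.MP_7cdc3e_gt.A.Spec

/-!
# MP_7cdc3e_gt, Theorem A: a loop that crosses once is not a boundary
-/

open HoloConj Pool.Agent.Lib.SingHom

namespace TightRP.Ver

section

variable {F : Type} [Field F] {X : Type} [TopologicalSpace X]

open Classical in
/-- the sum of the coefficients of the `0`-simplices in `W` -/
private noncomputable def crossEps (F : Type) [Field F] (W : Set X) : SC F X 0 →ₗ[F] F :=
  Finsupp.linearCombination F (fun s : C(Sx 0, X) =>
    if s (stdSimplex.vertex 0) ∈ W then (1 : F) else 0)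

open Classical in
private theorem crossEps_single (W : Set X) (s : C(Sx 0, X)) :
    crossEps F W (Finsupp.single s 1) = if s (stdSimplex.vertex 0) ∈ W then (1 : F) else 0 := by
  rw [crossEps, Finsupp.linearCombination_single, one_smul]

private theorem cross_conn (v : C(Sx 1, X)) {W₁ W₂ : Set X} (h1 : IsOpen W₁) (h2 : IsOpen W₂)
    (hd : Disjoint W₁ W₂) (hv : ∀ t, v t ∈ W₁ ∪ W₂) (s t : Sx 1) : v s ∈ W₁ ↔ v t ∈ W₁ := by
  have hpre : IsPreconnected (Set.univ : Set (Sx 1)) := by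
    have : IsPreconnected (stdSimplex ℝ (Fin (1 + 1))) := (convex_stdSimplex ℝ _).isPreconnected
    exact (isPreconnected_iff_preconnectedSpace.1 this).isPreconnected_univ
  have hcl : IsClopen (v ⁻¹' W₁) := by
    refine ⟨?_, h1.preimage v.continuous⟩
    have : v ⁻¹' W₁ = (v ⁻¹' W₂)ᶜ := by
      ext x
      rw [Set.mem_compl_iff, Set.mem_preimage, Set.mem_preimage]
      constructor
      · intro hx hx'
        exact Set.disjoint_left.1 hd hx hx'
      · intro hx
        exact (hv x).resolve_right hx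
    rw [this]
    exact (h2.preimage v.continuous).isClosed_compl
  have key : ∀ s t : Sx 1, v s ∈ W₁ → v t ∈ W₁ := by
    intro s t hs
    have := hpre.subset_isClopen hcl ⟨s, Set.mem_univ _, hs⟩ (Set.mem_univ t)
    exact this
  exact ⟨key s t, key t s⟩

private theorem crossEps_sbd {W₁ W₂ U : Set X} (h1 : IsOpen W₁) (h2 : IsOpen W₂)
    (hd : Disjoint W₁ W₂) (hU : U ⊆ W₁ ∪ W₂) {u : SC F X 1} (hu : u ∈ inU F U 1) :
    crossEps F W₁ (sbd F 0 u) = 0 := by
  have h : ((crossEps F W₁) ∘ₗ (sbd F 0)) u ∈ (⊥ : Submodule F F) := by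
    refine supp_map F ((crossEps F W₁) ∘ₗ (sbd F 0)) ?_ hu
    intro v hv
    rw [LinearMap.comp_apply, sbd_single, sbdv, Fin.sum_univ_two, map_add, map_smul, map_smul,
      crossEps_single, crossEps_single, Submodule.mem_bot]
    have e := cross_conn v h1 h2 hd (fun t => hU (hv t))
    have e' := e (smap (Fin.succAbove 0) (stdSimplex.vertex 0))
      (smap (Fin.succAbove 1) (stdSimplex.vertex 0))
    by_cases hx : face 0 v (stdSimplex.vertex 0) ∈ W₁
    · have hy : face 1 v (stdSimplex.vertex 0) ∈ W₁ := e'.1 hx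
      rw [if_pos hx, if_pos hy]
      simp
    · have hy : face 1 v (stdSimplex.vertex 0) ∉ W₁ := fun hy => hx (e'.2 hy)
      rw [if_neg hx, if_neg hy]
      simp
  exact h

private theorem crossEps_pt (W : Set X) (x : X) :
    (x ∈ W → crossEps F W (pt F x) = 1) ∧ (x ∉ W → crossEps F W (pt F x) = 0) := by
  constructor
  · intro hx
    rw [pt, crossEps_single, ContinuousMap.const_apply, if_pos hx]
  · intro hx
    rw [pt, crossEps_single, ContinuousMap.const_apply, if_neg hx]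

end

theorem tCross : CrossStmt := by
  intro F _ X _ P R W₁ W₂ hP hR hW₁ hW₂ hd hPR hinj x₁ x₂ hx₁ hx₂ σ hσ τ hτ hdσ hdτ hB
  obtain ⟨a₀, ha₀⟩ := exists_lift hσ
  obtain ⟨b₀, hb₀⟩ := exists_lift hτ
  let P' : Set ↥(P ∪ R) := Subtype.val ⁻¹' P
  let R' : Set ↥(P ∪ R) := Subtype.val ⁻¹' R
  have hP' : IsOpen P' := hP.preimage continuous_subtype_val
  have hR' : IsOpen R' := hR.preimage continuous_subtype_val
  have hcov : P' ∪ R' = Set.univ := by
    ext y
    constructor
    · intro _; trivial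
    · intro _
      exact y.2
  let iP : C(P, P') := ⟨fun x => ⟨⟨x.1, Or.inl x.2⟩, x.2⟩, by fun_prop⟩
  let iR : C(R, R') := ⟨fun x => ⟨⟨x.1, Or.inr x.2⟩, x.2⟩, by fun_prop⟩
  set a : SC F P' 1 := smp F iP 1 a₀ with ha
  set b : SC F R' 1 := -smp F iR 1 b₀ with hb
  have ea : smp F (incl (P ∪ R)) 1 (smp F (incl P') 1 a) = σ := by
    rw [ha, ← smp_comp, ← smp_comp, ← ha₀]
    rfl
  have eb : smp F (incl (P ∪ R)) 1 (smp F (incl R') 1 b) = -τ := by
    rw [hb, map_neg, map_neg, ← smp_comp, ← smp_comp, ← hb₀]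
    rfl
  set z : SC F ↥(P ∪ R) 1 := smp F (incl P') 1 a - smp F (incl R') 1 b with hz
  have ez : smp F (incl (P ∪ R)) 1 z = σ + τ := by
    rw [hz, map_sub, ea, eb, sub_neg_eq_add]
  have hι : Function.Injective (incl (P ∪ R)) := Subtype.val_injective
  have hcyc : sbd F 0 z = 0 := by
    apply smp_injective hι
    rw [← sbd_smp, ez, map_add, hdσ, hdτ, map_zero]
    abel
  have hzB : IsBdry F 1 z := by
    have hzc : z ∈ Zc F ↥(P ∪ R) 1 := (mem_Zc F).2 hcyc
    rw [← cls_eq_zero F ⟨z, hzc⟩]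
    apply hinj
    rw [map_zero, Hmap_cls, cls_eq_zero]
    show IsBdry F 1 (smp F (incl (P ∪ R)) 1 z)
    rw [ez]
    exact hB
  obtain ⟨y₁, _, w, hw, _⟩ := exists_small_bdry hP' hR' hcov hzB
  -- the chain in `P ∩ R`
  set u : SC F X 1 := smp F (incl (P ∪ R)) 1 (smp F (incl P') 1 (smp F (jL P' R') 1 w)) with hu
  have hdu : sbd F 0 u = pt F x₁ - pt F x₂ := by
    rw [hu, hw, map_sub, map_sub, ea, map_sub, hdσ, ← sbd_smp, ← sbd_smp, sbd_sbd, sub_zero]
  have huU : u ∈ inU F (P ∩ R) 1 := by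
    have e1 : u = smp F (incl (P ∩ R)) 1 (smp F (⟨fun x => ⟨x.1.1, x.2.1, x.2.2⟩, by fun_prop⟩ :
        C(↥(P' ∩ R'), ↥(P ∩ R))) 1 w) := by
      rw [hu, ← smp_comp, ← smp_comp, ← smp_comp]
      rfl
    rw [e1]
    exact smp_mem_inU _
  have h0 := crossEps_sbd hW₁ hW₂ hd hPR huU
  rw [hdu, map_sub, (crossEps_pt W₁ x₁).1 hx₁,
    (crossEps_pt W₁ x₂).2 (fun h => Set.disjoint_left.1 hd h hx₂), sub_zero] at h0
  exact one_ne_zero h0

end TightRP.Ver
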