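import Pool.Agent.Lib.MP_7cdc3e_gt.A.Spec

/-! MP_7cdc3e_gt, Theorem A, module Dim: rank of `H_1` at most one, in terms of chains. -/

open HoloConj Pool.Agent.Lib.SingHom

namespace TightRP.Ver

theorem tDim : DimStmt := by
  intro F _ X _ hr z γ hz hγ hnz
  obtain ⟨v0, hv0⟩ := (rank_le_one_iff (K := F)).1 hr
  obtain ⟨zc, hzc⟩ : ∃ c : Zc F X 1, c.1 = z := ⟨⟨z, hz⟩, rfl⟩
  obtain ⟨γc, hγc⟩ : ∃ c : Zc F X 1, c.1 = γ := ⟨⟨γ, hγ⟩, rfl⟩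
  obtain ⟨r, hrz⟩ := hv0 (cls F X 1 zc)
  obtain ⟨r', hrγ⟩ := hv0 (cls F X 1 γc)
  have hr0 : r ≠ 0 := by
    rintro rfl
    apply hnz
    rw [← hzc]
    apply (cls_eq_zero F zc).1
    rw [← hrz, zero_smul]
  refine ⟨r' / r, ?_⟩
  have h : cls F X 1 (γc + (-(r' / r)) • zc) = 0 := by
    refine ((cls F X 1).map_add _ _).trans ?_
    have h1 : cls F X 1 ((-(r' / r)) • zc) = (-r') • v0 := by
      refine ((cls F X 1).map_smul _ _).trans ?_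
      rw [← hrz, smul_smul, neg_mul, div_mul_cancel₀ _ hr0]
    rw [h1, ← hrγ, ← add_smul, add_neg_cancel, zero_smul]
  have h2 : IsBdry F 1 (γc.1 + (-(r' / r)) • zc.1) := (cls_eq_zero F _).1 h
  rw [hzc, hγc, neg_smul, ← sub_eq_add_neg] at h2
  exact h2

end TightRP.Ver
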