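import Pool.Agent.Lib.MP_7cdc3e_gt.A.Spec

set_option autoImplicit false

open HoloConj Pool.Agent.Lib.SingHom

namespace TightRP.Ver

private theorem dom_pair (i j : Fin 4) : (i ≠ 3 ∧ j ≠ 3) ∨ (i ≠ 2 ∧ j ≠ 2) ∨ (i ≠ 1 ∧ j ≠ 1) := by
  revert i j
  decide

private theorem dom_facts {M : Type} {V : Submodule ℝ (M → ℝ)} {e : Fin 4 → Fin 4 → M → ℝ}
    (hq : Quad V e) (x : M) (i j : Fin 4) :
    0 ≤ e i i x ∧ e i j x ^ 2 = e i i x * e j j x := by
  rcases dom_pair i j with h | h | h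
  · obtain ⟨u, hu⟩ := hq.r3 x
    rw [hu i i h.1 h.1, hu i j h.1 h.2, hu j j h.2 h.2]
    exact ⟨mul_self_nonneg _, by ring⟩
  · obtain ⟨u, hu⟩ := hq.r2 x
    rw [hu i i h.1 h.1, hu i j h.1 h.2, hu j j h.2 h.2]
    exact ⟨mul_self_nonneg _, by ring⟩
  · obtain ⟨u, hu⟩ := hq.r1 x
    rw [hu i i h.1 h.1, hu i j h.1 h.2, hu j j h.2 h.2]
    exact ⟨mul_self_nonneg _, by ring⟩

private theorem dom_abs {M : Type} {V : Submodule ℝ (M → ℝ)} {e : Fin 4 → Fin 4 → M → ℝ}
    (hq : Quad V e) (x : M) (i j : Fin 4) : |e i j x| = Real.sqrt (e i i x * e j j x) := by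
  rw [← (dom_facts hq x i j).2, Real.sqrt_sq_eq_abs]

private theorem dom_shrink1 {M : Type} [TopologicalSpace M] (O : Set M) (hO : IsOpen O)
    (hne : O.Nonempty) (f : M → ℝ) (hf : Continuous f) :
    ∃ O' ⊆ O, IsOpen O' ∧ O'.Nonempty ∧ ∃ s : ℝ, ∀ x ∈ O', f x = s * |f x| := by
  by_cases h : ∀ x ∈ O, f x = 0
  · exact ⟨O, subset_rfl, hO, hne, 1, fun x hx => by rw [h x hx, abs_zero, mul_zero]⟩
  · push Not at h
    obtain ⟨x, hx, hfx⟩ := h
    rcases lt_or_gt_of_ne hfx with h' | h'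
    · refine ⟨O ∩ {x | f x < 0}, Set.inter_subset_left, hO.inter (isOpen_lt hf continuous_const),
        ⟨x, hx, h'⟩, -1, fun y hy => ?_⟩
      rw [abs_of_neg hy.2]
      ring
    · refine ⟨O ∩ {x | 0 < f x}, Set.inter_subset_left, hO.inter (isOpen_lt continuous_const hf),
        ⟨x, hx, h'⟩, 1, fun y hy => ?_⟩
      rw [abs_of_pos hy.2]
      ring

private theorem dom_shrink {M : Type} [TopologicalSpace M] {κ : Type} [DecidableEq κ]
    (f : κ → M → ℝ) (hf : ∀ i, Continuous (f i)) (T : Finset κ) (O : Set M) (hO : IsOpen O)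
    (hne : O.Nonempty) :
    ∃ O' ⊆ O, IsOpen O' ∧ O'.Nonempty ∧ ∀ i ∈ T, ∃ s : ℝ, ∀ x ∈ O', f i x = s * |f i x| := by
  induction T using Finset.induction_on with
  | empty => exact ⟨O, subset_rfl, hO, hne, fun i hi => absurd hi (Finset.notMem_empty i)⟩
  | insert a T _ ih =>
    obtain ⟨O₁, hs₁, ho₁, hn₁, h₁⟩ := ih
    obtain ⟨O₂, hs₂, ho₂, hn₂, s, h₂⟩ := dom_shrink1 O₁ ho₁ hn₁ (f a) (hf a)
    refine ⟨O₂, hs₂.trans hs₁, ho₂, hn₂, fun i hi => ?_⟩
    rcases Finset.mem_insert.1 hi with rfl | hi'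
    · exact ⟨s, h₂⟩
    · obtain ⟨s', h'⟩ := h₁ i hi'
      exact ⟨s', fun x hx => h' x (hs₂ hx)⟩

theorem tDom : DomStmt := by
  intro F _ M _ V hT e hq
  rw [dense_iff_inter_open]
  intro O hO hne
  by_contra hcon
  have hzero : ∀ x ∈ O, e 0 0 x = 0 := by
    intro x hx
    by_contra h
    exact hcon ⟨x, hx, h⟩
  -- shrink
  obtain ⟨x₀, hx₀⟩ := hne
  obtain ⟨U, hU, hUs⟩ := hT.loc x₀
  have hecont : ∀ i j, Continuous (e i j) := fun i j => hT.cont _ (hq.mem i j)
  obtain ⟨W, hWs, hWo, hWn, hWsgn⟩ := dom_shrink (fun z : Fin 4 × Fin 4 => e z.1 z.2)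
    (fun z => hecont z.1 z.2) Finset.univ (O ∩ interior U) (hO.inter isOpen_interior)
    ⟨x₀, hx₀, mem_interior_iff_mem_nhds.2 hU⟩
  have hWO : ∀ x ∈ W, e 0 0 x = 0 := fun x hx => hzero x (hWs hx).1
  have hWU : ∀ x ∈ W, x ∈ U := fun x hx => interior_subset (hWs hx).2
  have hsgn : ∀ i j, ∃ s : ℝ, ∀ x ∈ W, e i j x = s * |e i j x| := fun i j =>
    hWsgn (i, j) (Finset.mem_univ _)
  choose s hs using hsgn
  -- scaling
  have hscale : ∀ x ∈ W, ∀ y ∈ W, ∀ r : ℝ, 0 ≤ r → (∀ i : Fin 3, e i.succ i.succ y =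
      r * e i.succ i.succ x) → ∀ i j, e i j y = r * e i j x := by
    intro x hx y hy r hr h
    have hd : ∀ i : Fin 4, e i i y = r * e i i x := by
      intro i
      refine Fin.cases ?_ h i
      rw [hWO x hx, hWO y hy, mul_zero]
    intro i j
    have habs : |e i j y| = r * |e i j x| := by
      rw [dom_abs hq y, dom_abs hq x, hd i, hd j,
        show r * e i i x * (r * e j j x) = r ^ 2 * (e i i x * e j j x) by ring,
        Real.sqrt_mul (sq_nonneg r), Real.sqrt_sq hr]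
    rw [hs i j y hy, habs]
    nth_rewrite 2 [hs i j x hx]
    ring
  -- the map
  let E : M → EuclideanSpace ℝ (Fin 3) := fun x => WithLp.toLp 2 (fun i => e i.succ i.succ x)
  have hEc : Continuous E :=
    (PiLp.continuous_toLp 2 _).comp (continuous_pi fun i => hecont _ _)
  have hEi : Set.InjOn E W := by
    intro x hx y hy hxy
    have h : ∀ i : Fin 3, e i.succ i.succ y = 1 * e i.succ i.succ x := by
      intro i
      have := congrFun (congrArg WithLp.ofLp hxy) i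
      rw [one_mul]
      exact this.symm
    have h2 := hscale x hx y hy 1 zero_le_one h
    refine hUs x (hWU x hx) y (hWU y hy) fun l hl => ?_
    obtain ⟨k, _, rfl⟩ := hq.span l hl
    simp only [Finset.sum_apply, Pi.smul_apply]
    refine Finset.sum_congr rfl fun i _ => Finset.sum_congr rfl fun j _ => ?_
    rw [h2 i j, one_mul]
  have hopen : IsOpen (E '' W) := by
    refine InvDom.isOpen_image_of_locEuc (E := EuclideanSpace ℝ (Fin 3)) hT.euc ?_ E W hWo
      hEc.continuousOn hEi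
    intro z
    exact ⟨Set.univ, isOpen_univ, trivial, ⟨Homeomorph.Set.univ _⟩⟩
  obtain ⟨x, hx⟩ := hWn
  have hev : ∀ᶠ r in nhds (1 : ℝ), r • E x ∈ E '' W := by
    have hc : Continuous fun r : ℝ => r • E x := continuous_id.smul continuous_const
    refine (continuous_iff_continuousAt.1 hc 1).eventually (hopen.mem_nhds ?_)
    show (1 : ℝ) • E x ∈ E '' W
    rw [one_smul]
    exact ⟨x, hx, rfl⟩
  obtain ⟨δ, hδ, hball⟩ := Metric.eventually_nhds_iff.1 hev
  obtain ⟨y, hy, hyE⟩ := hball (y := 1 + δ / 2) (by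
    rw [Real.dist_eq, add_sub_cancel_left, abs_of_pos (by positivity)]
    linarith)
  have hr : (0 : ℝ) ≤ 1 + δ / 2 := by positivity
  have hsc := hscale x hx y hy (1 + δ / 2) hr (fun i => by
    have := congrFun (congrArg WithLp.ofLp hyE) i
    exact this)
  obtain ⟨k, _, hk⟩ := hq.span _ (hT.const 1)
  have hkx := congrFun hk x
  have hky := congrFun hk y
  simp only [Finset.sum_apply, Pi.smul_apply, smul_eq_mul] at hkx hky
  have hfin : (1 : ℝ) = (1 + δ / 2) * 1 := by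
    calc (1 : ℝ) = ∑ i, ∑ j, k i j * e i j y := hky
      _ = (1 + δ / 2) * ∑ i, ∑ j, k i j * e i j x := by
          rw [Finset.mul_sum]
          refine Finset.sum_congr rfl fun i _ => ?_
          rw [Finset.mul_sum]
          refine Finset.sum_congr rfl fun j _ => ?_
          rw [hsc i j]
          ring
      _ = (1 + δ / 2) * 1 := by rw [← hkx]
  linarith

end TightRP.Ver
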