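import Pool.Agent.Lib.MP_7cdc3e_gt.A.Spec

set_option autoImplicit false

open HoloConj Pool.Agent.Lib.SingHom

namespace TightRP.Ver

private theorem fam_qf_key (p y : R3) (ε : ℝ) :
    qf (sq p - ε • (1 : Matrix (Fin 3) (Fin 3) ℝ)) y = (∑ i, p i * y i) ^ 2 - ε * ∑ i, y i ^ 2 := by
  simp only [qf, sq, Fin.sum_univ_three, Matrix.sub_apply, Matrix.smul_apply, Matrix.one_apply,
    smul_eq_mul]
  simp only [Fin.isValue, if_true, Fin.reduceEq, if_false]
  ring

private theorem fam_lin (φ : Matrix (Fin 3) (Fin 3) ℝ →ₗ[ℝ] ℝ) (Q : Matrix (Fin 3) (Fin 3) ℝ) :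
    φ Q = ∑ i, ∑ j, Q i j * φ (Matrix.single i j 1) := by
  conv_lhs => rw [Matrix.matrix_eq_sum_single Q]
  rw [map_sum]
  refine Finset.sum_congr rfl fun i _ => ?_
  rw [map_sum]
  refine Finset.sum_congr rfl fun j _ => ?_
  have : Matrix.single i j (Q i j) = Q i j • (Matrix.single i j 1 : Matrix (Fin 3) (Fin 3) ℝ) := by
    rw [Matrix.smul_single, smul_eq_mul, mul_one]
  rw [this, map_smul, smul_eq_mul]

private theorem fam_symm (p : R3) (ε : ℝ) :
    (sq p - ε • (1 : Matrix (Fin 3) (Fin 3) ℝ)).IsSymm := by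
  refine Matrix.IsSymm.ext fun i j => ?_
  simp only [Matrix.sub_apply, Matrix.smul_apply, sq, Matrix.one_apply, smul_eq_mul]
  rw [mul_comm (p j) (p i)]
  by_cases h : i = j
  · subst h; rfl
  · rw [if_neg h, if_neg (fun h' => h h'.symm)]

private theorem fam_norm_sq (y : R3) : ‖y‖ ^ 2 ≤ ∑ i, y i ^ 2 := by
  have h0 : 0 ≤ ∑ i, y i ^ 2 := Finset.sum_nonneg fun i _ => sq_nonneg _
  have h1 : ‖y‖ ≤ Real.sqrt (∑ i, y i ^ 2) := by
    rw [pi_norm_le_iff_of_nonneg (Real.sqrt_nonneg _)]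
    intro i
    rw [Real.norm_eq_abs]
    apply Real.abs_le_sqrt
    exact Finset.single_le_sum (f := fun i => y i ^ 2) (fun j _ => sq_nonneg _) (Finset.mem_univ i)
  calc ‖y‖ ^ 2 ≤ (Real.sqrt (∑ i, y i ^ 2)) ^ 2 := pow_le_pow_left₀ (norm_nonneg _) h1 2
    _ = ∑ i, y i ^ 2 := Real.sq_sqrt h0

/-- a continuous positive `2 π`-periodic function is bounded below by a positive number -/
private theorem fam_low (f : ℝ → ℝ) (hf : Continuous f) (hp : Function.Periodic f (2 * Real.pi))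
    (hpos : ∀ θ, 0 < f θ) : ∃ μ > 0, ∀ θ, μ ≤ f θ := by
  obtain ⟨θ₀, _, hθ₀⟩ := (isCompact_Icc (a := (0 : ℝ)) (b := 2 * Real.pi)).exists_isMinOn
    ⟨0, ⟨le_refl _, by positivity⟩⟩ hf.continuousOn
  refine ⟨f θ₀, hpos _, fun θ => ?_⟩
  obtain ⟨y, hy, he⟩ := hp.exists_mem_Ico₀ (by positivity) θ
  rw [he]
  exact hθ₀ ⟨hy.1, hy.2.le⟩

theorem tFam (h1 : FrmStmt) : FamStmt := by
  intro F _ M _ V hT a D x₁ p₁ p₂ hpos hind
  obtain ⟨_, Λ, hq, ha, hd, _, _⟩ := h1 F M V hT a D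
  -- the family of linear forms
  let p : ℝ → R3 := fun θ => Real.cos θ • p₁ + Real.sin θ • p₂
  have hpc : Continuous p :=
    (Real.continuous_cos.smul continuous_const).add (Real.continuous_sin.smul continuous_const)
  have hpper : ∀ θ, p (θ + 2 * Real.pi) = p θ := fun θ => by
    show Real.cos (θ + 2 * Real.pi) • p₁ + Real.sin (θ + 2 * Real.pi) • p₂ = _
    rw [Real.cos_add_two_pi, Real.sin_add_two_pi]
  have hppi : ∀ θ, p (θ + Real.pi) = - p θ := fun θ => by
    show Real.cos (θ + Real.pi) • p₁ + Real.sin (θ + Real.pi) • p₂ =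
      -(Real.cos θ • p₁ + Real.sin θ • p₂)
    rw [Real.cos_add_pi, Real.sin_add_pi]
    module
  have hcs : ∀ θ : ℝ, Real.cos θ ≠ 0 ∨ Real.sin θ ≠ 0 := by
    intro θ
    by_contra hcon
    push Not at hcon
    have := Real.sin_sq_add_cos_sq θ
    rw [hcon.1, hcon.2] at this
    norm_num at this
  have hp0 : ∀ θ, p θ ≠ 0 := by
    intro θ h
    have := hind _ _ h
    rcases hcs θ with h' | h'
    · exact h' this.1
    · exact h' this.2
  -- the evaluation of Λ
  let ev : M → Matrix (Fin 3) (Fin 3) ℝ →ₗ[ℝ] ℝ := fun x =>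
    (LinearMap.proj x).comp (V.subtype.comp Λ)
  have hev : ∀ x Q, ev x Q = (Λ Q).1 x := fun x Q => rfl
  have hevsum : ∀ x Q, (Λ Q).1 x = ∑ i, ∑ j, Q i j * (Λ (Matrix.single i j 1)).1 x := by
    intro x Q
    rw [← hev, fam_lin]
    rfl
  -- positivity at x₁
  obtain ⟨μ, hμ, hμle⟩ := fam_low (fun θ => (Λ (sq (p θ))).1 x₁) (by
      refine Continuous.congr ?_ (fun θ => (hevsum x₁ (sq (p θ))).symm)
      refine continuous_finsetSum _ fun i _ => continuous_finsetSum _ fun j _ => ?_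
      refine Continuous.mul ?_ continuous_const
      exact ((continuous_apply i).comp hpc).mul ((continuous_apply j).comp hpc))
    (fun θ => by
      show (Λ (sq (p (θ + 2 * Real.pi)))).1 x₁ = (Λ (sq (p θ))).1 x₁
      rw [hpper])
    (fun θ => by
      refine hpos (Real.cos θ) (Real.sin θ) (hcs θ) _ (ha _) (hd _) (hq _ ?_)
      have := fam_symm (p θ) 0
      simpa using this)
  obtain ⟨ν, hν, hνle⟩ := fam_low (fun θ => ∑ i, p θ i ^ 2) (by
      refine continuous_finsetSum _ fun i _ => ?_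
      exact ((continuous_apply i).comp hpc).pow 2)
    (fun θ => by
      show ∑ i, p (θ + 2 * Real.pi) i ^ 2 = ∑ i, p θ i ^ 2
      rw [hpper])
    (fun θ => by
      have h2 := fam_norm_sq (p θ)
      have h3 : 0 < ‖p θ‖ ^ 2 := by
        have := norm_pos_iff.2 (hp0 θ)
        positivity
      linarith)
  -- choice of ε
  obtain ⟨c, hc⟩ : ∃ c : ℝ, c = (Λ 1).1 x₁ := ⟨_, rfl⟩
  obtain ⟨ε, hε, hε1, hε2⟩ : ∃ ε : ℝ, 0 < ε ∧ ε * c < μ ∧ ε ≤ ν / 2 := by
    refine ⟨min (μ / (2 * (|c| + 1))) (ν / 2), ?_, ?_, min_le_right _ _⟩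
    · refine lt_min ?_ ?_
      · positivity
      · positivity
    · have hc1 : 0 < |c| + 1 := by positivity
      calc min (μ / (2 * (|c| + 1))) (ν / 2) * c ≤ min (μ / (2 * (|c| + 1))) (ν / 2) * (|c| + 1) := by
            refine mul_le_mul_of_nonneg_left ?_ (le_min (by positivity) (by positivity))
            linarith [le_abs_self c]
        _ ≤ μ / (2 * (|c| + 1)) * (|c| + 1) :=
            mul_le_mul_of_nonneg_right (min_le_left _ _) hc1.le
        _ = μ / 2 := by field_simp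
        _ < μ := by linarith
  let Q : ℝ → Matrix (Fin 3) (Fin 3) ℝ := fun θ => sq (p θ) - ε • (1 : Matrix (Fin 3) (Fin 3) ℝ)
  have hQs : ∀ θ, (Q θ).IsSymm := fun θ => fam_symm _ _
  have hQc : ∀ i j, Continuous fun θ => Q θ i j := by
    intro i j
    show Continuous fun θ => p θ i * p θ j - ε • (1 : Matrix (Fin 3) (Fin 3) ℝ) i j
    exact (((continuous_apply i).comp hpc).mul ((continuous_apply j).comp hpc)).sub continuous_const
  -- bounds
  obtain ⟨R, hR0, hR⟩ : ∃ R : ℝ, 0 ≤ R ∧ ∀ θ, ‖p θ‖ ≤ R := by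
    refine ⟨‖p₁‖ + ‖p₂‖, by positivity, fun θ => ?_⟩
    calc ‖p θ‖ ≤ ‖Real.cos θ • p₁‖ + ‖Real.sin θ • p₂‖ := norm_add_le _ _
      _ = |Real.cos θ| * ‖p₁‖ + |Real.sin θ| * ‖p₂‖ := by
          rw [norm_smul, norm_smul, Real.norm_eq_abs, Real.norm_eq_abs]
      _ ≤ 1 * ‖p₁‖ + 1 * ‖p₂‖ := by
          gcongr
          · exact Real.abs_cos_le_one θ
          · exact Real.abs_sin_le_one θ
      _ = ‖p₁‖ + ‖p₂‖ := by ring
  obtain ⟨B, hB0, hB⟩ : ∃ B : ℝ, 0 ≤ B ∧ ∀ θ i j, |Q θ i j| ≤ B := by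
    refine ⟨R * R + ε, by positivity, fun θ i j => ?_⟩
    have h2 : |p θ i| ≤ R := (norm_le_pi_norm (p θ) i).trans (hR θ)
    have h3 : |p θ j| ≤ R := (norm_le_pi_norm (p θ) j).trans (hR θ)
    have h4 : |(1 : Matrix (Fin 3) (Fin 3) ℝ) i j| ≤ 1 := by
      rw [Matrix.one_apply]
      split_ifs <;> norm_num
    calc |Q θ i j| = |p θ i * p θ j - ε * (1 : Matrix (Fin 3) (Fin 3) ℝ) i j| := rfl
      _ ≤ |p θ i * p θ j| + |ε * (1 : Matrix (Fin 3) (Fin 3) ℝ) i j| := abs_sub _ _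
      _ = |p θ i| * |p θ j| + ε * |(1 : Matrix (Fin 3) (Fin 3) ℝ) i j| := by
          rw [abs_mul, abs_mul, abs_of_pos hε]
      _ ≤ R * R + ε * 1 := by gcongr
      _ = R * R + ε := by ring
  -- the errors
  let er : R3 → Matrix (Fin 3) (Fin 3) ℝ →ₗ[ℝ] ℝ := fun y =>
    { toFun := fun P => (Λ P).1 (D.g y) - qf (D.q (Λ P)) y
      map_add' := by
        intro P P'
        rw [map_add, map_add]
        simp only [qf, Submodule.coe_add, Pi.add_apply, Matrix.add_apply, add_mul,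
          Finset.sum_add_distrib]
        ring
      map_smul' := by
        intro r P
        rw [map_smul, map_smul]
        simp only [qf, Submodule.coe_smul, Pi.smul_apply, Matrix.smul_apply, smul_eq_mul,
          mul_assoc, ← Finset.mul_sum, RingHom.id_apply]
        ring }
  have her : ∀ y P, er y P = (Λ P).1 (D.g y) - qf (D.q (Λ P)) y := fun y P => rfl
  have hlo : (fun y : R3 => ∑ i, ∑ j, |er y (Matrix.single i j 1)|) =o[nhds 0]
      (fun y => ‖y‖ ^ 2) := by
    refine Asymptotics.IsLittleO.fun_sum fun i _ => Asymptotics.IsLittleO.fun_sum fun j _ => ?_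
    refine Asymptotics.IsLittleO.abs_left ?_
    have h2 := D.exp (Λ (Matrix.single i j 1))
    refine h2.congr_left fun y => ?_
    rw [ha, hd, her]
    simp
  obtain ⟨η, hη, hη1⟩ : ∃ η : ℝ, 0 < η ∧ B * η * R ^ 2 < ν * (ν / 2) := by
    refine ⟨ν * (ν / 2) / (2 * (B * R ^ 2 + 1)), by positivity, ?_⟩
    have h2 : 0 ≤ B * R ^ 2 := by positivity
    calc B * (ν * (ν / 2) / (2 * (B * R ^ 2 + 1))) * R ^ 2
        = ν * (ν / 2) * (B * R ^ 2 / (2 * (B * R ^ 2 + 1))) := by ring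
      _ < ν * (ν / 2) * 1 := by
          refine mul_lt_mul_of_pos_left ?_ (by positivity)
          rw [div_lt_one (by positivity)]
          linarith
      _ = ν * (ν / 2) := by ring
  have hev2 := hlo.def hη
  obtain ⟨δ, hδ, hδb⟩ := Metric.eventually_nhds_iff.1 hev2
  refine ⟨δ / (2 * (R + 1)), p, fun θ => Λ (Q θ), hpc, ?_, ?_, ?_, hppi, ?_⟩
  · refine Continuous.congr ?_ (fun z => (hevsum z.2 (Q z.1)).symm)
    refine continuous_finsetSum _ fun i _ => continuous_finsetSum _ fun j _ => ?_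
    exact ((hQc i j).comp continuous_fst).mul ((hT.cont _ (Λ _).2).comp continuous_snd)
  · intro θ
    refine ⟨ha _, hd _, by positivity, ⟨ε, hε, ?_⟩, ?_⟩
    · intro y hy
      rw [hq _ (hQs θ)]
      show qf (sq (p θ) - ε • (1 : Matrix (Fin 3) (Fin 3) ℝ)) y ≤ _
      rw [fam_qf_key, hy]
      have := fam_norm_sq y
      nlinarith
    · intro s hs hst
      have hps : ∑ i, p θ i * (s • p θ) i = s * ∑ i, p θ i ^ 2 := by
        simp only [Pi.smul_apply, smul_eq_mul, Finset.mul_sum]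
        exact Finset.sum_congr rfl fun i _ => by ring
      have hss : ∑ i, (s • p θ) i ^ 2 = s ^ 2 * ∑ i, p θ i ^ 2 := by
        simp only [Pi.smul_apply, smul_eq_mul, Finset.mul_sum]
        exact Finset.sum_congr rfl fun i _ => by ring
      have hqf : s ^ 2 * (ν * (ν / 2)) ≤ qf (D.q (Λ (Q θ))) (s • p θ) := by
        rw [hq _ (hQs θ)]
        show _ ≤ qf (sq (p θ) - ε • (1 : Matrix (Fin 3) (Fin 3) ℝ)) (s • p θ)
        rw [fam_qf_key, hps, hss]
        have hνθ := hνle θ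
        set N := ∑ i, p θ i ^ 2 with hN
        have h5 : (s * N) ^ 2 - ε * (s ^ 2 * N) = s ^ 2 * (N * (N - ε)) := by ring
        rw [h5]
        refine mul_le_mul_of_nonneg_left ?_ (sq_nonneg s)
        refine mul_le_mul hνθ (by linarith) (by positivity) (by linarith)
      have hnorm : ‖s • p θ‖ ≤ |s| * R := by
        rw [norm_smul, Real.norm_eq_abs]
        exact mul_le_mul_of_nonneg_left (hR θ) (abs_nonneg s)
      have hsmall : dist (s • p θ) 0 < δ := by
        rw [dist_zero_right]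
        calc ‖s • p θ‖ ≤ |s| * R := hnorm
          _ ≤ δ / (2 * (R + 1)) * R := mul_le_mul_of_nonneg_right hst hR0
          _ = δ * (R / (2 * (R + 1))) := by ring
          _ < δ * 1 := by
              refine mul_lt_mul_of_pos_left ?_ hδ
              rw [div_lt_one (by positivity)]
              linarith
          _ = δ := mul_one δ
      have herr := hδb hsmall
      have hge : |er (s • p θ) (Q θ)| ≤ B * (η * ‖s • p θ‖ ^ 2) := by
        rw [fam_lin (er (s • p θ)) (Q θ)]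
        calc |∑ i, ∑ j, Q θ i j * er (s • p θ) (Matrix.single i j 1)|
            ≤ ∑ i, ∑ j, |Q θ i j * er (s • p θ) (Matrix.single i j 1)| :=
              (Finset.abs_sum_le_sum_abs _ _).trans
                (Finset.sum_le_sum fun i _ => Finset.abs_sum_le_sum_abs _ _)
          _ ≤ ∑ i, ∑ j, B * |er (s • p θ) (Matrix.single i j 1)| := by
              refine Finset.sum_le_sum fun i _ => Finset.sum_le_sum fun j _ => ?_
              rw [abs_mul]
              exact mul_le_mul_of_nonneg_right (hB θ i j) (abs_nonneg _)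
          _ = B * ∑ i, ∑ j, |er (s • p θ) (Matrix.single i j 1)| := by
              simp only [Finset.mul_sum]
          _ ≤ B * (η * ‖s • p θ‖ ^ 2) := by
              refine mul_le_mul_of_nonneg_left ?_ hB0
              have h6 := herr
              rw [Real.norm_eq_abs, Real.norm_eq_abs, abs_of_nonneg (sq_nonneg ‖s • p θ‖)] at h6
              exact (le_abs_self _).trans h6
      have hnsq : ‖s • p θ‖ ^ 2 ≤ s ^ 2 * R ^ 2 := by
        calc ‖s • p θ‖ ^ 2 ≤ (|s| * R) ^ 2 := pow_le_pow_left₀ (norm_nonneg _) hnorm 2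
          _ = s ^ 2 * R ^ 2 := by rw [mul_pow, sq_abs]
      have hfin : B * (η * ‖s • p θ‖ ^ 2) < s ^ 2 * (ν * (ν / 2)) := by
        have hs2 : 0 < s ^ 2 := by positivity
        calc B * (η * ‖s • p θ‖ ^ 2) ≤ B * (η * (s ^ 2 * R ^ 2)) := by gcongr
          _ = s ^ 2 * (B * η * R ^ 2) := by ring
          _ < s ^ 2 * (ν * (ν / 2)) := mul_lt_mul_of_pos_left hη1 hs2
      have h7 := neg_abs_le (er (s • p θ) (Q θ))
      rw [her] at h7 hge
      show 0 < (Λ (Q θ)).1 (D.g (s • p θ))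
      linarith
  · intro θ
    have h8 : (Λ (Q θ)).1 x₁ = (Λ (sq (p θ))).1 x₁ - ε * c := by
      show (Λ (sq (p θ) - ε • (1 : Matrix (Fin 3) (Fin 3) ℝ))).1 x₁ = _
      rw [map_sub, map_smul, hc]
      rfl
    have h9 := hμle θ
    show 0 < (Λ (Q θ)).1 x₁
    rw [h8]
    linarith
  · intro θ
    show Λ (sq (p (θ + Real.pi)) - ε • (1 : Matrix (Fin 3) (Fin 3) ℝ)) =
      Λ (sq (p θ) - ε • (1 : Matrix (Fin 3) (Fin 3) ℝ))
    rw [hppi]
    have : sq (-p θ) = sq (p θ) := by
      funext i j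
      simp [sq]
    rw [this]

end TightRP.Ver
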