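import Pool.Agent.Lib.MP_7cdc3e_gt.A.Spec

/-!
# Theorem A, E3: injectivity of the map to projective space
-/

open HoloConj Pool.Agent.Lib.SingHom

namespace TightRP

namespace Ver

open Set

theorem tFib (h1 : OneStmt) (h2 : ConnStmt) : FibStmt := by
  intro F _ M _ V hV e hQ x x' v v' s hv hv' hs
  classical
  have _ := hV.t2
  have _ := hV.cpt
  by_contra hne
  -- the constant function `1`
  obtain ⟨k, hk, hk1⟩ := hQ.span _ (hV.const 1)
  have hone : ∀ (y : M) (u : Fin 4 → ℝ), (∀ i j, e i j y = u i * u j) → qf k u = 1 := by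
    intro y u hu
    have h := congrFun hk1 y
    simp only [Finset.sum_apply, Pi.smul_apply, smul_eq_mul] at h
    rw [h]
    simp only [qf, hu]
  have hv1 := hone x v hv
  have hv'1 := hone x' v' hv'
  have hqs : ∀ (r : ℝ) (u : Fin 4 → ℝ), qf k (r • u) = r ^ 2 * qf k u := by
    intro r u
    simp only [qf, Pi.smul_apply, smul_eq_mul, Finset.mul_sum]
    apply Finset.sum_congr rfl
    intro i _
    apply Finset.sum_congr rfl
    intro j _
    ring
  -- points of the fibre
  have hfib : ∀ (y : M) (u : Fin 4 → ℝ) (r : ℝ), (∀ i j, e i j y = u i * u j) → u = r • v →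
      ∀ l ∈ V, l y = l x := by
    intro y u r hu hur l hl
    have h3 := hone y u hu
    rw [hur, hqs, hv1, mul_one] at h3
    obtain ⟨c, -, hc⟩ := hQ.span l hl
    rw [hc]
    simp only [Finset.sum_apply, Pi.smul_apply, smul_eq_mul, hu, hv]
    apply Finset.sum_congr rfl
    intro i _
    apply Finset.sum_congr rfl
    intro j _
    rw [hur]
    simp only [Pi.smul_apply, smul_eq_mul]
    linear_combination (c i j * v i * v j) * h3
  -- the function
  let N : ℝ := ∑ i, v i * v i
  let c : Matrix (Fin 4) (Fin 4) ℝ := fun i j => (if i = j then N else 0) - v i * v j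
  let l : M → ℝ := ∑ i, ∑ j, c i j • e i j
  have hlV : l ∈ V := Submodule.sum_mem _ fun i _ => Submodule.sum_mem _ fun j _ =>
    V.smul_mem _ (hQ.mem i j)
  have hlc : Continuous l := hV.cont l hlV
  have hlu : ∀ (y : M) (u : Fin 4 → ℝ), (∀ i j, e i j y = u i * u j) →
      l y = N * (∑ i, u i * u i) - (∑ i, v i * u i) ^ 2 := by
    intro y u hu
    have : l y = ∑ i, ∑ j, c i j * (u i * u j) := by
      show (∑ i, ∑ j, c i j • e i j) y = _
      simp only [Finset.sum_apply, Pi.smul_apply, smul_eq_mul, hu]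
    rw [this]
    simp only [c, Fin.sum_univ_four, N]
    simp
    ring
  have hl0 : ∀ y, 0 ≤ l y := by
    intro y
    obtain ⟨u, -, hu⟩ := h1 F M V hV e hQ y
    rw [hlu y u hu]
    simp only [N, Fin.sum_univ_four]
    nlinarith [sq_nonneg (v 0 * u 1 - v 1 * u 0), sq_nonneg (v 0 * u 2 - v 2 * u 0),
      sq_nonneg (v 0 * u 3 - v 3 * u 0), sq_nonneg (v 1 * u 2 - v 2 * u 1),
      sq_nonneg (v 1 * u 3 - v 3 * u 1), sq_nonneg (v 2 * u 3 - v 3 * u 2)]
  have hv0 : v ≠ 0 := by
    rintro rfl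
    have : qf k 0 = 0 := by simp [qf]
    rw [this] at hv1
    exact zero_ne_one hv1
  have hN : 0 < N := by
    obtain ⟨i, hi⟩ := Function.ne_iff.1 hv0
    have hi' : v i ≠ 0 := hi
    exact Finset.sum_pos' (fun j _ => mul_self_nonneg _) ⟨i, Finset.mem_univ _,
      mul_self_pos.2 hi'⟩
  have hlz : ∀ y, l y = 0 → ∃ (u : Fin 4 → ℝ) (r : ℝ), (∀ i j, e i j y = u i * u j) ∧
      u = r • v := by
    intro y hy
    obtain ⟨u, -, hu⟩ := h1 F M V hV e hQ y
    refine ⟨u, (∑ i, v i * u i) / N, hu, ?_⟩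
    rw [hlu y u hu] at hy
    have h3 : ∑ i, (N * u i - (∑ j, v j * u j) * v i) ^ 2 = 0 := by
      have : ∑ i, (N * u i - (∑ j, v j * u j) * v i) ^ 2 =
          N * (N * (∑ i, u i * u i) - (∑ i, v i * u i) ^ 2) := by
        simp only [N, Fin.sum_univ_four]
        ring
      rw [this, hy, mul_zero]
    have h4 := (Finset.sum_eq_zero_iff_of_nonneg (fun i _ => sq_nonneg _)).1 h3
    funext i
    have h5 := h4 i (Finset.mem_univ i)
    have h6 : N * u i - (∑ j, v j * u j) * v i = 0 := by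
      exact pow_eq_zero_iff (two_ne_zero) |>.1 h5
    simp only [Pi.smul_apply, smul_eq_mul]
    field_simp
    linarith
  -- the neighbourhood
  obtain ⟨U, hU, hUinj⟩ := hV.loc x
  obtain ⟨K, hK, hKc, hKU⟩ : ∃ K ∈ nhds x, IsClosed K ∧ K ⊆ U := by
    obtain ⟨K, ⟨hK, hKc⟩, hKU⟩ := (closed_nhds_basis x).mem_iff.1 hU
    exact ⟨K, hK, hKc, hKU⟩
  have hx' : x' ∉ U := by
    intro hx'
    apply hne
    apply hUinj x (mem_of_mem_nhds hU) x' hx'
    intro l hl
    exact (hfib x' v' s hv' hs l hl).symm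
  let W : Set M := interior K
  have hWx : x ∈ W := mem_interior_iff_mem_nhds.2 hK
  have hx'K : x' ∉ K := fun h => hx' (hKU h)
  -- positive on the frontier
  have hBc : IsCompact (K \ W) := (hKc.sdiff isOpen_interior).isCompact
  have hpos : ∀ y ∈ K \ W, 0 < l y := by
    intro y hy
    rcases (hl0 y).lt_or_eq with h | h
    · exact h
    · exfalso
      obtain ⟨u, r, hu, hur⟩ := hlz y h.symm
      have : y = x := hUinj y (hKU hy.1) x (mem_of_mem_nhds hU) (hfib y u r hu hur)
      rw [this] at hy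
      exact hy.2 hWx
  obtain ⟨m, hm, hmB⟩ : ∃ m > 0, ∀ y ∈ K \ W, m ≤ l y := by
    rcases (K \ W).eq_empty_or_nonempty with he | hne'
    · exact ⟨1, one_pos, fun y hy => by rw [he] at hy; exact hy.elim⟩
    · obtain ⟨y0, hy0, hmin⟩ := hBc.exists_isMinOn hne' hlc.continuousOn
      exact ⟨l y0, hpos y0 hy0, fun y hy => hmin hy⟩
  have hmV : (fun y => m - l y) ∈ V := V.sub_mem (hV.const m) hlV
  have hpre := (h2 F M V hV _ hmV).1
  have hlx : l x = 0 := by
    rw [hlu x v hv]
    simp only [N]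
    ring
  have hlx' : l x' = 0 := by
    rw [hlu x' v' hv', hs]
    simp only [N, Fin.sum_univ_four, Pi.smul_apply, smul_eq_mul]
    ring
  obtain ⟨y, hy, hyW, hyK⟩ := hpre W Kᶜ isOpen_interior hKc.isOpen_compl (by
    intro y hy
    by_cases hyW : y ∈ W
    · exact Or.inl hyW
    · right
      intro hyK
      have h3 := hmB y ⟨hyK, hyW⟩
      have h4 : 0 < m - l y := hy
      linarith) ⟨x, by show 0 < m - l x; rw [hlx]; linarith, hWx⟩
    ⟨x', by show 0 < m - l x'; rw [hlx']; linarith, hx'K⟩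
  exact hyK (interior_subset hyW)

end Ver

end TightRP
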