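import Pool.Agent.Lib.MP_7cdc3e_gt.A.Spec

/-!
# Theorem A: assembly
-/

open HoloConj Pool.Agent.Lib.SingHom

namespace TightRP

namespace Ver

theorem fin_cpt : CompactSpace RP3 := by
  have h : CompactSpace (Metric.sphere (0 : EuclideanSpace ℝ (Fin 4)) 1) :=
    isCompact_iff_compactSpace.1 (isCompact_sphere _ _)
  exact inferInstanceAs (CompactSpace (Quotient antipodal))

/-- the dimension of a space spanned by `e_ij` -/
theorem fin_dim {M : Type} (V : Submodule ℝ (M → ℝ)) (e : Fin 4 → Fin 4 → M → ℝ)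
    (hQ : Quad V e) : Module.finrank ℝ V ≤ 10 := by
  classical
  let S : Finset (M → ℝ) :=
    {e 0 0, e 0 1, e 0 2, e 0 3, e 1 1, e 1 2, e 1 3, e 2 2, e 2 3, e 3 3}
  have hS : V ≤ Submodule.span ℝ (S : Set (M → ℝ)) := by
    intro l hl
    obtain ⟨k, -, rfl⟩ := hQ.span l hl
    refine Submodule.sum_mem _ fun i _ => Submodule.sum_mem _ fun j _ =>
      Submodule.smul_mem _ _ (Submodule.subset_span ?_)
    have h10 := hQ.symm 1 0
    have h20 := hQ.symm 2 0
    have h30 := hQ.symm 3 0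
    have h21 := hQ.symm 2 1
    have h31 := hQ.symm 3 1
    have h32 := hQ.symm 3 2
    fin_cases i <;> fin_cases j <;> simp [S, h10, h20, h30, h21, h31, h32]
  have h1 : Module.finrank ℝ V ≤ Module.finrank ℝ (Submodule.span ℝ (S : Set (M → ℝ))) :=
    Submodule.finrank_mono hS
  have h2 : Module.finrank ℝ (Submodule.span ℝ (S : Set (M → ℝ))) ≤ S.card :=
    finrank_span_finset_le_card S
  have h3 : S.card ≤ 10 :=
    (Finset.card_insert_le _ _).trans (Nat.succ_le_succ
      ((Finset.card_insert_le _ _).trans (Nat.succ_le_succ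
        ((Finset.card_insert_le _ _).trans (Nat.succ_le_succ
          ((Finset.card_insert_le _ _).trans (Nat.succ_le_succ Finset.card_le_six)))))))
  omega

theorem fin_qf_add {n : ℕ} (Q Q' : Matrix (Fin n) (Fin n) ℝ) (y : Fin n → ℝ) :
    qf (Q + Q') y = qf Q y + qf Q' y := by
  simp only [qf, Matrix.add_apply, add_mul, Finset.sum_add_distrib]

theorem fin_qf_smul {n : ℕ} (r : ℝ) (Q : Matrix (Fin n) (Fin n) ℝ) (y : Fin n → ℝ) :
    qf (r • Q) y = r * qf Q y := by
  simp only [qf, Matrix.smul_apply, smul_eq_mul, mul_assoc, Finset.mul_sum]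

theorem fin_qf_zero {n : ℕ} (y : Fin n → ℝ) : qf (0 : Matrix (Fin n) (Fin n) ℝ) y = 0 := by
  simp [qf]

theorem fin_qf_sum {n : ℕ} {κ : Type} (s : Finset κ) (Q : κ → Matrix (Fin n) (Fin n) ℝ)
    (y : Fin n → ℝ) : qf (∑ i ∈ s, Q i) y = ∑ i ∈ s, qf (Q i) y := by
  classical
  induction s using Finset.induction_on with
  | empty => simp [fin_qf_zero]
  | insert a s ha ih => rw [Finset.sum_insert ha, Finset.sum_insert ha, fin_qf_add, ih]

theorem fin_qf_hom {n : ℕ} (Q : Matrix (Fin n) (Fin n) ℝ) (r : ℝ) (y : Fin n → ℝ) :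
    qf Q (r • y) = r ^ 2 * qf Q y := by
  simp only [qf, Pi.smul_apply, smul_eq_mul, Finset.mul_sum]
  apply Finset.sum_congr rfl
  intro i _
  apply Finset.sum_congr rfl
  intro j _
  ring

theorem fin_sym_zero (D : Matrix (Fin 4) (Fin 4) ℝ) (hD : D.IsSymm) (h : ∀ y, qf D y = 0) :
    D = 0 := by
  have hs : ∀ i j, D i j = D j i := fun i j => hD.apply j i
  have hii : ∀ i, D i i = 0 := by
    intro i
    have h1 := h (Pi.single i 1)
    fin_cases i <;> simpa [qf, Fin.sum_univ_four] using h1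
  ext i j
  have h1 := h (Pi.single i 1 + Pi.single j 1)
  have h2 := hii i
  have h3 := hii j
  have h4 := hs i j
  by_cases hij : i = j
  · rw [hij]
    exact h3
  · have h5 : qf D (Pi.single i 1 + Pi.single j 1) = D i i + D j j + D i j + D j i := by
      fin_cases i <;> fin_cases j <;> first
        | exact absurd rfl hij
        | (simp [qf, Fin.sum_univ_four]; try ring)
    rw [h5, h2, h3, ← h4] at h1
    simp only [Matrix.zero_apply]
    linarith

theorem fin_sym_ext (Q Q' : Matrix (Fin 4) (Fin 4) ℝ) (hQ : Q.IsSymm) (hQ' : Q'.IsSymm)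
    (h : ∀ v : Metric.sphere (0 : EuclideanSpace ℝ (Fin 4)) 1,
      qf Q v.1.ofLp = qf Q' v.1.ofLp) : Q = Q' := by
  have h1 : ∀ y, qf (Q + (-1 : ℝ) • Q') y = 0 := by
    intro y
    rw [fin_qf_add, fin_qf_smul]
    let w : EuclideanSpace ℝ (Fin 4) := WithLp.toLp 2 y
    by_cases hw : w = 0
    · have hy : y = 0 := by
        have : w.ofLp = 0 := by rw [hw]; rfl
        exact this
      rw [hy]
      simp [qf]
    · have hn : ‖w‖ ≠ 0 := norm_ne_zero_iff.2 hw
      have h2 := h ⟨‖w‖⁻¹ • w, by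
        rw [mem_sphere_zero_iff_norm, norm_smul, norm_inv, norm_norm, inv_mul_cancel₀ hn]⟩
      have h3 : (‖w‖⁻¹ • w).ofLp = ‖w‖⁻¹ • y := rfl
      simp only [h3] at h2
      rw [fin_qf_hom, fin_qf_hom] at h2
      have h4 : (‖w‖⁻¹) ^ 2 ≠ 0 := pow_ne_zero _ (inv_ne_zero hn)
      have h5 := mul_left_cancel₀ h4 h2
      rw [h5]
      ring
  have h2 : Q + (-1 : ℝ) • Q' = 0 := by
    apply fin_sym_zero _ _ h1
    rw [Matrix.IsSymm, Matrix.transpose_add, Matrix.transpose_smul, hQ.eq, hQ'.eq]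
  rw [neg_one_smul] at h2
  exact eq_of_sub_eq_zero (by rw [sub_eq_add_neg]; exact h2)

/-- the final statement -/
def FinStmt : Prop := ∀ (F : Type) [Field F] (N : ℕ), 9 ≤ N →
  ∀ f : RP3 → EuclideanSpace ℝ (Fin N), Continuous f → LocInj f → Substantial f →
  TightUpTo 1 F f → DefiniteC2 f → N = 9 ∧ ∃ φ : RP3 ≃ₜ RP3, SmoothImm f φ ∧
    ∃ (k : Matrix (Fin 4) (Fin 4) ℝ) (c : Fin N → Matrix (Fin 4) (Fin 4) ℝ), PD k ∧
      (∀ i, (c i).IsSymm) ∧
      (∀ Q : Matrix (Fin 4) (Fin 4) ℝ, Q.IsSymm → ∃ (α : Fin N → ℝ) (β : ℝ),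
        Q = ∑ i, α i • c i + β • k) ∧
      ∀ (v : Metric.sphere (0 : EuclideanSpace ℝ (Fin 4)) 1) (i : Fin N),
        f (φ (Quotient.mk antipodal v)) i = qf (c i) v.1.ofLp / qf k v.1.ofLp

theorem tFin (h1 : RPTopStmt) (h2 : RPHomStmt) (h3 : SysStmt) (h4 : QuadStmt) (h5 : HomStmt)
    (h6 : SmoStmt) : FinStmt := by
  intro F _ N hN f hf hi hs ht hd
  have _ := h1.1
  have _ := fin_cpt
  have _ := h1.2.2
  obtain ⟨hV, hdim⟩ := h3 F RP3 h1.2.1 (h2 F) N f hN hf hi hs ht
  obtain ⟨e, hQ⟩ := h4 F RP3 N f hV hd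
  have hN9 : N = 9 := by
    have := fin_dim _ e hQ
    omega
  refine ⟨hN9, ?_⟩
  obtain ⟨φ, k, hk, hφ⟩ := h5 F RP3 (aff f) hV e hQ
  refine ⟨φ, h6 N f φ k e hk hQ hφ, k, ?_⟩
  have hcoord : ∀ i : Fin N, (fun x => f x i) ∈ aff f := by
    intro i
    refine ⟨(EuclideanSpace.proj (𝕜 := ℝ) i : EuclideanSpace ℝ (Fin N) →L[ℝ] ℝ).toLinearMap,
      0, ?_⟩
    funext x
    simp
  choose c hc hce using fun i => hQ.span _ (hcoord i)
  have hval : ∀ (Q : Matrix (Fin 4) (Fin 4) ℝ)
      (v : Metric.sphere (0 : EuclideanSpace ℝ (Fin 4)) 1),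
      (∑ i, ∑ j, Q i j • e i j) (φ (Quotient.mk antipodal v)) =
        qf Q v.1.ofLp / qf k v.1.ofLp := by
    intro Q v
    simp only [Finset.sum_apply, Pi.smul_apply, smul_eq_mul, hφ v, qf, Finset.sum_div]
    apply Finset.sum_congr rfl
    intro i _
    apply Finset.sum_congr rfl
    intro j _
    ring
  have hfv : ∀ (v : Metric.sphere (0 : EuclideanSpace ℝ (Fin 4)) 1) (i : Fin N),
      f (φ (Quotient.mk antipodal v)) i = qf (c i) v.1.ofLp / qf k v.1.ofLp := by
    intro v i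
    have h7 := congrFun (hce i) (φ (Quotient.mk antipodal v))
    rw [hval] at h7
    exact h7
  refine ⟨c, hk, hc, ?_, hfv⟩
  intro Q hQs
  have hmem : (∑ i, ∑ j, Q i j • e i j) ∈ aff f :=
    Submodule.sum_mem _ fun i _ => Submodule.sum_mem _ fun j _ =>
      Submodule.smul_mem _ _ (hQ.mem i j)
  obtain ⟨L, β, hL⟩ := hmem
  refine ⟨fun i => L (EuclideanSpace.single i 1), β, ?_⟩
  apply fin_sym_ext _ _ hQs
  · rw [Matrix.IsSymm, Matrix.transpose_add, Matrix.transpose_smul, Matrix.transpose_sum]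
    congr 1
    · apply Finset.sum_congr rfl
      intro i _
      rw [Matrix.transpose_smul, (hc i).eq]
    · rw [hk.1.eq]
  · intro v
    have hkv : qf k v.1.ofLp ≠ 0 := by
      apply (hk.2 _ _).ne'
      intro h0
      have h8 : v.1 = 0 := by
        apply (WithLp.ofLp_injective 2)
        exact h0
      have h9 := v.2
      rw [mem_sphere_zero_iff_norm, h8, norm_zero] at h9
      exact zero_ne_one h9
    have h7 := congrFun hL (φ (Quotient.mk antipodal v))
    rw [hval] at h7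
    have h8 : L (f (φ (Quotient.mk antipodal v))) =
        ∑ i, L (EuclideanSpace.single i 1) * f (φ (Quotient.mk antipodal v)) i := by
      have h9 : f (φ (Quotient.mk antipodal v)) =
          ∑ i, f (φ (Quotient.mk antipodal v)) i • EuclideanSpace.single i (1 : ℝ) := by
        ext j
        simp [Pi.single_apply]
      conv_lhs => rw [h9]
      rw [map_sum]
      apply Finset.sum_congr rfl
      intro i _
      rw [map_smul, smul_eq_mul, mul_comm]
    rw [h8] at h7
    simp only [hfv v] at h7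
    rw [fin_qf_add, fin_qf_sum, fin_qf_smul]
    simp only [fin_qf_smul]
    have h10 : (∑ i, L (EuclideanSpace.single i 1) * (qf (c i) v.1.ofLp / qf k v.1.ofLp)) =
        (∑ i, L (EuclideanSpace.single i 1) * qf (c i) v.1.ofLp) / qf k v.1.ofLp := by
      rw [Finset.sum_div]
      apply Finset.sum_congr rfl
      intro i _
      ring
    rw [h10] at h7
    field_simp at h7
    linarith

end Ver

end TightRP
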