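import Pool.Agent.Lib.MP_7cdc3e_gt.A.Spec

/-!
# MP_7cdc3e_gt, Theorem A: the final statement and its assembly

* `DefiniteC2 f` (in `A/Spec.lean`): one chart in which `f` is `C²` and one nondegenerate extremum.
* `ThreePeano f`: three definite points in the weak sense (`PeanoPt`: a second order expansion at
  the point only), not on a common line (`FlatTriple`: a supporting half-space touches the image at
  two of them and not at the third).
-/

open HoloConj Pool.Agent.Lib.SingHom

namespace TightRP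

namespace Ver

/-- `a` is a definite point in the sense of Peano: in a chart `g` around `a` the map `f` has a second
order expansion `f(g y) = f(a) + A y + ∑ y_i y_j B_ij + o(|y|²)`, and some linear function `l` is
critical, with positive definite quadratic part -/
def PeanoPt {M : Type} [TopologicalSpace M] {N : ℕ} (f : M → EuclideanSpace ℝ (Fin N))
    (a : M) : Prop :=
  ∃ (g : (Fin 3 → ℝ) → M) (A : (Fin 3 → ℝ) →ₗ[ℝ] EuclideanSpace ℝ (Fin N))
    (B : Fin 3 → Fin 3 → EuclideanSpace ℝ (Fin N)) (l : EuclideanSpace ℝ (Fin N) →ₗ[ℝ] ℝ),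
    Topology.IsOpenEmbedding g ∧ g 0 = a ∧ (∀ i j, B i j = B j i) ∧
    (fun y => f (g y) - f a - A y - ∑ i, ∑ j, (y i * y j) • B i j) =o[nhds 0]
      (fun y => ‖y‖ ^ 2) ∧
    (∀ y, l (A y) = 0) ∧
    ∀ y : Fin 3 → ℝ, y ≠ 0 → 0 < ∑ i, ∑ j, y i * y j * l (B i j)

/-- there are three definite points in the sense of Peano, `a ≠ b` and `c`, such that a supporting
hyperplane `{l = r}` of the image contains `f a` and `f b` and does not contain `f c` -/
def ThreePeano {M : Type} [TopologicalSpace M] {N : ℕ} (f : M → EuclideanSpace ℝ (Fin N)) :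
    Prop :=
  ∃ a b c : M, a ≠ b ∧ PeanoPt f a ∧ PeanoPt f b ∧ PeanoPt f c ∧
    ∃ (l : EuclideanSpace ℝ (Fin N) →ₗ[ℝ] ℝ) (r : ℝ), (∀ x, r ≤ l (f x)) ∧ l (f a) = r ∧
      l (f b) = r ∧ r < l (f c)

/-- the unit sphere of `ℝ⁴` -/
abbrev S3 : Type := Metric.sphere (0 : EuclideanSpace ℝ (Fin 4)) 1

/-- the model of manifolds without boundary of dimension `n` -/
noncomputable abbrev MC (n : ℕ) :
    ModelWithCorners ℝ (EuclideanSpace ℝ (Fin n)) (EuclideanSpace ℝ (Fin n)) :=
  modelWithCornersSelf ℝ (EuclideanSpace ℝ (Fin n))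

/-- the lift of `f ∘ φ` to the sphere -/
def liftS3 {N : ℕ} (f : RP3 → EuclideanSpace ℝ (Fin N)) (φ : RP3 ≃ₜ RP3) :
    S3 → EuclideanSpace ℝ (Fin N) := fun v => f (φ (Quotient.mk antipodal v))

/-- a `C^∞` map on the sphere -/
def SmoothS3 {N : ℕ} (g : S3 → EuclideanSpace ℝ (Fin N)) : Prop :=
  ContMDiff (MC 3) (MC N) (⊤ : ℕ∞) g

/-- `D` is the differential of `g` at `v` -/
def DerS3 {N : ℕ} (g : S3 → EuclideanSpace ℝ (Fin N)) (v : S3)
    (D : EuclideanSpace ℝ (Fin 3) →L[ℝ] EuclideanSpace ℝ (Fin N)) : Prop :=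
  HasMFDerivAt (MC 3) (MC N) g v D

/-- all differentials of `g` exist and are injective -/
def ImmS3 {N : ℕ} (g : S3 → EuclideanSpace ℝ (Fin N)) : Prop :=
  ∀ v, ∃ D : EuclideanSpace ℝ (Fin 3) →L[ℝ] EuclideanSpace ℝ (Fin N), DerS3 g v D ∧
    Function.Injective D

/-- `f ∘ φ` is a smooth immersion of the projective space: its lift to the sphere (a local
diffeomorphism onto the projective space) is one -/
def SmImm {N : ℕ} (f : RP3 → EuclideanSpace ℝ (Fin N)) (φ : RP3 ≃ₜ RP3) : Prop :=
  SmoothS3 (liftS3 f φ) ∧ ImmS3 (liftS3 f φ)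

/-- `f ∘ φ` is a projective transformation of the Veronese embedding: its coordinates at the line of
the unit vector `v` are quotients `c_i(v) / k(v)` of quadratic forms, `k` is positive definite and the
forms `k, c_1, ..., c_N` are linearly independent -/
def Veronese {N : ℕ} (f : RP3 → EuclideanSpace ℝ (Fin N)) (φ : RP3 ≃ₜ RP3) : Prop :=
  ∃ (k : Matrix (Fin 4) (Fin 4) ℝ) (c : Fin N → Matrix (Fin 4) (Fin 4) ℝ),
    PD k ∧ (∀ i, (c i).IsSymm) ∧
    (∀ (s : ℝ) (t : Fin N → ℝ), s • k + ∑ i, t i • c i = 0 → s = 0 ∧ t = 0) ∧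
    ∀ (v : Metric.sphere (0 : EuclideanSpace ℝ (Fin 4)) 1) (i : Fin N),
      f (φ (Quotient.mk antipodal v)) i = qf (c i) v.1.ofLp / qf k v.1.ofLp

/-- the theorem -/
def FinalAStmt : Prop := ∀ (F : Type) [Field F] (N : ℕ), 9 ≤ N →
  ∀ f : RP3 → EuclideanSpace ℝ (Fin N), Continuous f → LocInj f → Substantial f →
    TightUpTo 1 F f → (DefiniteC2 f ∨ ThreePeano f) →
    N = 9 ∧ ∃ φ : RP3 ≃ₜ RP3, SmImm f φ ∧ Veronese f φ

/-! ## Assembly -/

theorem smImm_of {N : ℕ} {f : RP3 → EuclideanSpace ℝ (Fin N)} {φ : RP3 ≃ₜ RP3}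
    (h : SmoothImm f φ) : SmImm f φ := by
  refine ⟨h.1, fun v => ?_⟩
  have h1 : MDifferentiableAt (MC 3) (MC N) (liftS3 f φ) v :=
    h.1.mdifferentiable (by simp) v
  exact ⟨mfderiv (MC 3) (MC N) (liftS3 f φ) v, h1.hasMFDerivAt, h.2 v⟩

section linpart

variable {M : Type} [TopologicalSpace M] {N : ℕ} {f : M → EuclideanSpace ℝ (Fin N)}

omit [TopologicalSpace M] in
theorem aff_unique (hs : Substantial f) {l l' : EuclideanSpace ℝ (Fin N) →ₗ[ℝ] ℝ} {c c' : ℝ}
    (h : ∀ x, l (f x) + c = l' (f x) + c') : l = l' := by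
  have h1 := hs (l - l') (c' - c) (fun x => by
    have := h x
    simp only [LinearMap.sub_apply]
    linarith)
  exact sub_eq_zero.1 h1

omit [TopologicalSpace M] in
/-- the linear part of an affine function of `f` -/
noncomputable def linPart (hs : Substantial f) :
    aff f →ₗ[ℝ] (EuclideanSpace ℝ (Fin N) →ₗ[ℝ] ℝ) where
  toFun h := h.2.choose
  map_add' := by
    intro h h'
    obtain ⟨c1, h1⟩ := h.2.choose_spec
    obtain ⟨c2, h2⟩ := h'.2.choose_spec
    obtain ⟨c3, h3⟩ := (h + h').2.choose_spec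
    refine aff_unique hs (c := c3) (c' := c1 + c2) fun x => ?_
    have e1 := congrFun h1 x
    have e2 := congrFun h2 x
    have e3 := congrFun h3 x
    have e4 : (h + h').1 x = h.1 x + h'.1 x := rfl
    simp only [LinearMap.add_apply]
    linarith
  map_smul' := by
    intro r h
    obtain ⟨c1, h1⟩ := h.2.choose_spec
    obtain ⟨c3, h3⟩ := (r • h).2.choose_spec
    refine aff_unique hs (c := c3) (c' := r * c1) fun x => ?_
    have e1 := congrFun h1 x
    have e3 := congrFun h3 x
    have e4 : (r • h).1 x = r * h.1 x := rfl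
    simp only [LinearMap.smul_apply, smul_eq_mul, RingHom.id_apply]
    rw [e4, e1] at e3
    linarith

omit [TopologicalSpace M] in
theorem linPart_spec (hs : Substantial f) (h : aff f) :
    ∃ c : ℝ, ∀ x, h.1 x = linPart hs h (f x) + c := by
  obtain ⟨c, hc⟩ := h.2.choose_spec
  exact ⟨c, fun x => congrFun hc x⟩

omit [TopologicalSpace M] in
theorem linPart_eq (hs : Substantial f) (l : EuclideanSpace ℝ (Fin N) →ₗ[ℝ] ℝ) (c : ℝ) :
    linPart hs ⟨fun x => l (f x) + c, l, c, rfl⟩ = l := by
  obtain ⟨c', hc'⟩ := linPart_spec hs ⟨fun x => l (f x) + c, l, c, rfl⟩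
  exact (aff_unique hs (fun x => hc' x)).symm

/-- a definite point in the sense of Peano is a definite point of `aff f` -/
theorem defPt_of_peano (hs : Substantial f) {a : M} (h : PeanoPt f a) :
    Nonempty (DefPt (aff f) a) := by
  obtain ⟨g, A, B, l, hg, hg0, hB, hexp, hA, hpos⟩ := h
  have hexp' : ∀ h : aff f, (fun y : R3 => h.1 (g y) - h.1 a -
      ∑ i, linPart hs h (A (Pi.single i 1)) * y i -
        qf (Matrix.of fun i j => linPart hs h (B i j)) y) =o[nhds 0] fun y => ‖y‖ ^ 2 := by
    intro h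
    obtain ⟨c, hc⟩ := linPart_spec hs h
    have h1 : (fun y : R3 => h.1 (g y) - h.1 a - ∑ i, linPart hs h (A (Pi.single i 1)) * y i -
        qf (Matrix.of fun i j => linPart hs h (B i j)) y) =
        fun y => (linPart hs h).toContinuousLinearMap
          (f (g y) - f a - A y - ∑ i, ∑ j, (y i * y j) • B i j) := by
      funext y
      have h2 : linPart hs h (A y) = ∑ i, linPart hs h (A (Pi.single i 1)) * y i := by
        have h3 : y = ∑ i, y i • (Pi.single i 1 : R3) := by
          funext j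
          simp [Finset.sum_apply, Pi.single_apply]
        conv_lhs => rw [h3]
        rw [map_sum, map_sum]
        exact Finset.sum_congr rfl fun i _ => by
          rw [map_smul, map_smul, smul_eq_mul, mul_comm]
      have h4 : linPart hs h (∑ i, ∑ j, (y i * y j) • B i j) =
          qf (Matrix.of fun i j => linPart hs h (B i j)) y := by
        simp only [map_sum, map_smul, smul_eq_mul, qf, Matrix.of_apply]
        exact Finset.sum_congr rfl fun i _ => Finset.sum_congr rfl fun j _ => mul_comm _ _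
      rw [LinearMap.coe_toContinuousLinearMap', map_sub, map_sub, map_sub, h2, h4, hc, hc]
      ring
    rw [h1]
    exact ((linPart hs h).toContinuousLinearMap.isBigO_comp _ _).trans_isLittleO hexp
  have hpos' : ∃ h : aff f, h.1 a = 0 ∧ (fun i => linPart hs h (A (Pi.single i 1))) = (0 : R3) ∧
      PD (Matrix.of fun i j => linPart hs h (B i j)) := by
    refine ⟨⟨fun x => l (f x) + -l (f a), l, -l (f a), rfl⟩, ?_, ?_, ?_⟩
    · change l (f a) + -l (f a) = 0
      ring
    · funext i
      rw [linPart_eq, hA, Pi.zero_apply]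
    · rw [linPart_eq]
      refine ⟨?_, ?_⟩
      · ext i j
        simp only [Matrix.transpose_apply, Matrix.of_apply, hB j i]
      · intro y hy
        refine (hpos y hy).trans_eq ?_
        simp only [qf, Matrix.of_apply]
        exact Finset.sum_congr rfl fun i _ => Finset.sum_congr rfl fun j _ => by ring
  exact ⟨{
    g := g
    emb := hg
    g0 := hg0
    d := {
      toFun := fun h i => linPart hs h (A (Pi.single i 1))
      map_add' := by
        intro h h'
        funext i
        simp only [map_add, LinearMap.add_apply, Pi.add_apply]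
      map_smul' := by
        intro r h
        funext i
        simp only [map_smul, LinearMap.smul_apply, Pi.smul_apply, RingHom.id_apply] }
    q := {
      toFun := fun h => Matrix.of fun i j => linPart hs h (B i j)
      map_add' := by
        intro h h'
        ext i j
        simp only [map_add, LinearMap.add_apply, Matrix.of_apply, Matrix.add_apply]
      map_smul' := by
        intro r h
        ext i j
        simp only [map_smul, LinearMap.smul_apply, Matrix.of_apply, Matrix.smul_apply,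
          RingHom.id_apply] }
    symm := by
      intro h
      ext i j
      simp only [LinearMap.coe_mk, AddHom.coe_mk, Matrix.transpose_apply, Matrix.of_apply, hB j i]
    exp := hexp'
    pos := hpos' }⟩

end linpart

/-- the third hypothesis in step (5) from a supporting hyperplane -/
theorem exists_sep {M : Type} [TopologicalSpace M] {V : Submodule ℝ (M → ℝ)} {a b c : M}
    (A : R1Pt V a) (h : ∃ l ∈ V, (∀ x, 0 ≤ l x) ∧ l a = 0 ∧ l b = 0 ∧ 0 < l c) :
    ∃ p, A.S p p b = 0 ∧ A.S p p c ≠ 0 := by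
  obtain ⟨l, hl, hnn, ha, hb, hc⟩ := h
  obtain ⟨Q, hQ, hlQ⟩ := A.nonneg l hl ha hnn
  obtain ⟨u, hu⟩ := A.rk b
  obtain ⟨w, hw⟩ := A.rk c
  -- values of `l`
  have hval : ∀ (x : M) (v : R3 →ₗ[ℝ] ℝ), (∀ p r, A.S p r x = v p * v r) →
      l x = qf Q (fun i => v (Pi.single i 1)) := by
    intro x v hv
    rw [hlQ, qf]
    simp only [Finset.sum_apply, Pi.smul_apply, hv, smul_eq_mul]
  have hlb := hval b u hu
  have hlc := hval c w hw
  rw [hb] at hlb
  -- `w` is not a multiple of `u`: find `p` with `u p = 0`, `w p ≠ 0`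
  by_contra hcon
  push Not at hcon
  have hker : ∀ p, u p = 0 → w p = 0 := by
    intro p hp
    have h1 := hcon p (by rw [hu, hp, zero_mul])
    rw [hw] at h1
    exact mul_self_eq_zero.1 h1
  obtain ⟨s, hs⟩ : ∃ s : ℝ, w = s • u := by
    have h2 : LinearMap.ker u ≤ LinearMap.ker w := fun p hp => hker p hp
    have h3 : w ∈ Submodule.span ℝ (Set.range (fun _ : Fin 1 => u)) := by
      refine mem_span_of_iInf_ker_le_ker ?_
      simpa using h2
    rw [Set.range_const, Submodule.mem_span_singleton] at h3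
    obtain ⟨s, hs⟩ := h3
    exact ⟨s, hs.symm⟩
  rw [hs] at hlc
  have h4 : qf Q (fun i => (s • u) (Pi.single i 1)) = s ^ 2 * qf Q (fun i => u (Pi.single i 1)) := by
    rw [qf, qf, Finset.mul_sum]
    refine Finset.sum_congr rfl fun i _ => ?_
    rw [Finset.mul_sum]
    refine Finset.sum_congr rfl fun j _ => ?_
    simp only [LinearMap.smul_apply, smul_eq_mul]
    ring
  rw [h4, ← hlb, mul_zero] at hlc
  linarith

/-- the compactness of the projective space -/
theorem compact_RP3 : CompactSpace RP3 := inferInstanceAs (CompactSpace (Quotient antipodal))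

/-- the end: from ten functions to the Veronese embedding -/
theorem finish (hHom : HomStmt) (hSmo : SmoStmt) {F : Type} [Field F] {N : ℕ}
    {f : RP3 → EuclideanSpace ℝ (Fin N)} (hs : Substantial f) (hV : TSys F RP3 (aff f))
    (hQ : ∃ e, Quad (aff f) e) : ∃ φ : RP3 ≃ₜ RP3, SmImm f φ ∧ Veronese f φ := by
  obtain ⟨e, he⟩ := hQ
  obtain ⟨φ, k, hk, hv⟩ := hHom F RP3 (aff f) hV e he
  refine ⟨φ, smImm_of (hSmo N f φ k e hk he hv), ?_⟩
  have hcoord : ∀ i : Fin N, ∃ c : Matrix (Fin 4) (Fin 4) ℝ, c.IsSymm ∧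
      (fun x => f x i) = ∑ a, ∑ b, c a b • e a b := by
    intro i
    refine he.span _ ⟨EuclideanSpace.projₗ i, 0, ?_⟩
    funext x
    simp
  choose c hc1 hc2 using hcoord
  have hval : ∀ (v : Metric.sphere (0 : EuclideanSpace ℝ (Fin 4)) 1) (i : Fin N),
      f (φ (Quotient.mk antipodal v)) i = qf (c i) v.1.ofLp / qf k v.1.ofLp := by
    intro v i
    have h1 := congrFun (hc2 i) (φ (Quotient.mk antipodal v))
    simp only [Finset.sum_apply, Pi.smul_apply, hv, smul_eq_mul] at h1
    rw [h1]
    generalize qf k v.1.ofLp = K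
    rw [qf, Finset.sum_div]
    refine Finset.sum_congr rfl fun a _ => ?_
    rw [Finset.sum_div]
    exact Finset.sum_congr rfl fun b _ => by ring
  refine ⟨k, c, hk, hc1, ?_, hval⟩
  intro s t hst
  -- positivity of `k`
  have hkpos : ∀ v : Metric.sphere (0 : EuclideanSpace ℝ (Fin 4)) 1, 0 < qf k v.1.ofLp := by
    intro v
    refine hk.2 _ fun h => ?_
    have h0 : v.1 = 0 := by
      ext i
      exact congrFun h i
    exact Metric.ne_of_mem_sphere v.2 one_ne_zero h0
  have hqadd : ∀ y : Fin 4 → ℝ, s * qf k y + ∑ i, t i * qf (c i) y = 0 := by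
    intro y
    have h1 : qf (s • k + ∑ i, t i • c i) y = 0 := by
      rw [hst]
      simp [qf]
    rw [← h1]
    simp only [qf, Matrix.add_apply, Matrix.smul_apply, Matrix.sum_apply, smul_eq_mul, add_mul,
      Finset.sum_add_distrib, Finset.mul_sum, Finset.sum_mul]
    congr 1
    · exact Finset.sum_congr rfl fun a _ => Finset.sum_congr rfl fun b _ => by ring
    · rw [Finset.sum_comm]
      refine Finset.sum_congr rfl fun a _ => ?_
      rw [Finset.sum_comm]
      exact Finset.sum_congr rfl fun b _ => Finset.sum_congr rfl fun i _ => by ring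
  -- the linear function `∑ t_i x_i`
  have hl := hs (∑ i, t i • EuclideanSpace.projₗ i) (-s) (by
    intro x
    obtain ⟨y, rfl⟩ := φ.surjective x
    obtain ⟨v, rfl⟩ := Quotient.exists_rep y
    simp only [LinearMap.sum_apply, LinearMap.smul_apply, PiLp.projₗ_apply, smul_eq_mul]
    have h1 : ∀ i, t i * f (φ (Quotient.mk antipodal v)) i =
        (t i * qf (c i) v.1.ofLp) / qf k v.1.ofLp := fun i => by rw [hval]; ring
    rw [Finset.sum_congr rfl fun i _ => h1 i, ← Finset.sum_div, div_eq_iff (hkpos v).ne']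
    have := hqadd v.1.ofLp
    linarith)
  have ht : t = 0 := by
    funext i
    have h1 := congrArg (fun l => l (EuclideanSpace.single i 1)) hl
    simp only [LinearMap.sum_apply, LinearMap.smul_apply, PiLp.projₗ_apply,
      smul_eq_mul, LinearMap.zero_apply, PiLp.single_apply] at h1
    simpa using h1
  refine ⟨?_, ht⟩
  have h2 := hqadd (Pi.single 0 1)
  rw [ht] at h2
  simp only [Pi.zero_apply, zero_mul, Finset.sum_const_zero, add_zero] at h2
  have h3 : 0 < qf k (Pi.single 0 1) := hk.2 _ (by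
    intro h
    have := congrFun h 0
    simp at this)
  rcases mul_eq_zero.1 h2 with h | h
  · exact h
  · exact absurd h h3.ne'

/-- the assembly -/
theorem final_of (hRT : RPTopStmt) (hRH : RPHomStmt) (hSys : SysStmt) (hFrm : FrmStmt)
    (hR1 : R1Stmt) (hTrip : TripStmt) (hGlo : GloStmt) (hTay : TayStmt) (hQuad : QuadStmt)
    (hHom : HomStmt) (hSmo : SmoStmt) : FinalAStmt := by
  intro F _ N hN f hf hi hs ht hd
  have i1 := hRT.1
  have i2 := compact_RP3
  have i3 := hRT.2.2
  obtain ⟨hV, hfin⟩ := hSys F RP3 hRT.2.1 (hRH F) N f hN hf hi hs ht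
  have key : (∃ a, Nonempty (DefPt (aff f) a)) ∧ ∃ e, Quad (aff f) e := by
    rcases hd with hd | ⟨a, b, c, hab, ha, hb, hc, l, r, hr, hla, hlb, hlc⟩
    · refine ⟨?_, hQuad F RP3 N f hV hd⟩
      obtain ⟨g, l, hg, hC, h0, hpos⟩ := hGlo RP3 N f hd
      obtain ⟨D, -⟩ := hTay RP3 N f g l 0 hg hC h0 hpos
      exact ⟨g 0, ⟨D⟩⟩
    · have hDa := defPt_of_peano hs ha
      refine ⟨⟨a, hDa⟩, ?_⟩
      obtain ⟨A⟩ := hR1 F RP3 _ hV a hDa
      obtain ⟨B⟩ := hR1 F RP3 _ hV b (defPt_of_peano hs hb)
      obtain ⟨C⟩ := hR1 F RP3 _ hV c (defPt_of_peano hs hc)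
      refine hTrip RP3 _ a b c A B C hab ?_ ?_ (exists_sep A ?_)
      · rintro rfl
        linarith
      · rintro rfl
        linarith
      · refine ⟨fun x => l (f x) + -r, ⟨l, -r, rfl⟩, fun x => ?_, ?_, ?_, ?_⟩
        · have := hr x
          linarith
        · linarith
        · linarith
        · linarith
  obtain ⟨⟨a, ⟨D⟩⟩, hQ⟩ := key
  have h10 := (hFrm F RP3 _ hV a D).1
  refine ⟨by omega, finish hHom hSmo hs hV hQ⟩

end Ver

end TightRP
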