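import Pool.Agent.Lib.MP_7cdc3e_gt.A.Spec

/-!
# MP_7cdc3e_gt, Theorem A, S2: the functions with a critical zero at a definite point

They are the quadratic forms; the space of functions has dimension ten.
-/

open HoloConj Pool.Agent.Lib.SingHom

namespace TightRP

namespace Ver

private theorem frm_qf_smul {n : ℕ} (c : ℝ) (Q : Matrix (Fin n) (Fin n) ℝ) (y : Fin n → ℝ) :
    qf (c • Q) y = c * qf Q y := by
  unfold qf
  rw [Finset.mul_sum]
  refine Finset.sum_congr rfl fun i _ => ?_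
  rw [Finset.mul_sum]
  refine Finset.sum_congr rfl fun j _ => ?_
  rw [Matrix.smul_apply, smul_eq_mul]
  ring

private theorem frm_PD_smul {n : ℕ} {c : ℝ} (hc : 0 < c) {Q : Matrix (Fin n) (Fin n) ℝ}
    (h : PD Q) : PD (c • Q) := by
  refine ⟨?_, fun y hy => ?_⟩
  · have h1 := h.1
    rw [Matrix.IsSymm] at h1 ⊢
    rw [Matrix.transpose_smul, h1]
  · rw [frm_qf_smul]
    exact mul_pos hc (h.2 y hy)

private theorem frm_zero (h : MaxStmt) (F : Type) [Field F] (M : Type) [TopologicalSpace M]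
    (V : Submodule ℝ (M → ℝ)) (T : TSys F M V) (a : M) (D : DefPt V a) (l : V)
    (ha : l.1 a = 0) (hd : D.d l = 0) (hq : D.q l = 0) : l = 0 := by
  obtain ⟨l₀, h0a, h0d, h0q⟩ := D.pos
  have key : ∀ m : V, m.1 a = 0 → D.d m = 0 → D.q m = 0 → ∀ x, 0 ≤ m.1 x := by
    intro m ma md mq x
    rcases eq_or_ne x a with rfl | hx
    · rw [ma]
    · by_contra hneg
      push Not at hneg
      have hpos : 0 < l₀.1 x := h F M V T a D l₀ h0a h0d h0q x hx
      have hε : 0 < -(m.1 x) / (2 * l₀.1 x) := by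
        apply div_pos <;> linarith
      have h1 := h F M V T a D ((-(m.1 x) / (2 * l₀.1 x)) • l₀ + m)
        (by
          change (-(m.1 x) / (2 * l₀.1 x)) * l₀.1 a + m.1 a = 0
          rw [h0a, ma]; ring)
        (by rw [map_add, map_smul, h0d, md, smul_zero, add_zero])
        (by
          rw [map_add, map_smul, mq, add_zero]
          exact frm_PD_smul hε h0q) x hx
      have h2 : ((-(m.1 x) / (2 * l₀.1 x)) • l₀ + m).1 x = m.1 x / 2 := by
        change (-(m.1 x) / (2 * l₀.1 x)) * l₀.1 x + m.1 x = m.1 x / 2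
        field_simp
        ring
      rw [h2] at h1
      linarith
  apply Subtype.ext
  funext x
  have h1 := key l ha hd hq x
  have h2 := key (-l) (by change -(l.1 a) = 0; rw [ha, neg_zero])
    (by rw [map_neg, hd, neg_zero]) (by rw [map_neg, hq, neg_zero]) x
  change 0 ≤ -(l.1 x) at h2
  change l.1 x = 0
  linarith

/-- evaluation at `a` -/
private def frmEv {M : Type} (V : Submodule ℝ (M → ℝ)) (a : M) : V →ₗ[ℝ] ℝ where
  toFun l := l.1 a
  map_add' _ _ := rfl
  map_smul' _ _ := rfl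

/-- the six coordinates of a symmetric matrix (after symmetrization) -/
private noncomputable def frmSix : Matrix (Fin 3) (Fin 3) ℝ →ₗ[ℝ] (Fin 6 → ℝ) where
  toFun Q := ![Q 0 0, (Q 0 1 + Q 1 0) / 2, (Q 0 2 + Q 2 0) / 2, Q 1 1, (Q 1 2 + Q 2 1) / 2, Q 2 2]
  map_add' P Q := by
    funext i
    fin_cases i <;> simp [Matrix.add_apply] <;> ring
  map_smul' c Q := by
    funext i
    fin_cases i <;> simp [Matrix.smul_apply] <;> ring

private theorem frmSix_inj {P Q : Matrix (Fin 3) (Fin 3) ℝ} (hP : P.IsSymm) (hQ : Q.IsSymm)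
    (h : frmSix P = frmSix Q) : P = Q := by
  have h0 := congrFun h 0
  have h1 := congrFun h 1
  have h2 := congrFun h 2
  have h3 := congrFun h 3
  have h4 := congrFun h 4
  have h5 := congrFun h 5
  simp only [frmSix, LinearMap.coe_mk, AddHom.coe_mk] at h0 h1 h2 h3 h4 h5
  simp at h0 h1 h2 h3 h4 h5
  have p1 := hP.apply 0 1
  have p2 := hP.apply 0 2
  have p3 := hP.apply 1 2
  have q1 := hQ.apply 0 1
  have q2 := hQ.apply 0 2
  have q3 := hQ.apply 1 2
  ext i j
  fin_cases i <;> fin_cases j <;> simp <;> linarith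

/-- the linear algebra -/
private theorem frm_core {V : Type} [AddCommGroup V] [Module ℝ V] [FiniteDimensional ℝ V]
    (E : V →ₗ[ℝ] ℝ × R3) (q : V →ₗ[ℝ] (Fin 6 → ℝ))
    (hz : ∀ l, E l = 0 → q l = 0 → l = 0) (hdim : 10 ≤ Module.finrank ℝ V) :
    Module.finrank ℝ V = 10 ∧ Function.Surjective E ∧
      ∃ Λ : (Fin 6 → ℝ) →ₗ[ℝ] V, (∀ w, q (Λ w) = w) ∧ (∀ w, E (Λ w) = 0) ∧
        ∀ l, E l = 0 → Λ (q l) = l := by
  set G : LinearMap.ker E →ₗ[ℝ] (Fin 6 → ℝ) := q ∘ₗ (LinearMap.ker E).subtype with hG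
  have hGinj : Function.Injective G := by
    refine (injective_iff_map_eq_zero G).2 fun m hm => ?_
    exact Subtype.ext (hz m.1 (LinearMap.mem_ker.1 m.2) hm)
  have hk6 : Module.finrank ℝ (LinearMap.ker E) ≤ 6 := by
    have := LinearMap.finrank_le_finrank_of_injective hGinj
    simpa using this
  have hr4 : Module.finrank ℝ (LinearMap.range E) ≤ 4 := by
    have := Submodule.finrank_le (LinearMap.range E)
    have h2 : Module.finrank ℝ (ℝ × R3) = 4 := by
      rw [Module.finrank_prod]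
      simp
    omega
  have hrn := LinearMap.finrank_range_add_finrank_ker E
  have hV : Module.finrank ℝ V = 10 := by omega
  have hK : Module.finrank ℝ (LinearMap.ker E) = 6 := by omega
  have hR : Module.finrank ℝ (LinearMap.range E) = 4 := by omega
  have hEsurj : Function.Surjective E := by
    rw [← LinearMap.range_eq_top]
    apply Submodule.eq_top_of_finrank_eq
    rw [hR, Module.finrank_prod]
    simp
  have hKW : Module.finrank ℝ (LinearMap.ker E) = Module.finrank ℝ (Fin 6 → ℝ) := by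
    rw [hK]
    simp
  have hGbij : Function.Bijective G :=
    ⟨hGinj, (LinearMap.injective_iff_surjective_of_finrank_eq_finrank hKW).1 hGinj⟩
  set Ge : LinearMap.ker E ≃ₗ[ℝ] (Fin 6 → ℝ) := LinearEquiv.ofBijective G hGbij with hGe
  refine ⟨hV, hEsurj, (LinearMap.ker E).subtype ∘ₗ Ge.symm.toLinearMap, ?_, ?_, ?_⟩
  · intro w
    have h1 : Ge (Ge.symm w) = w := Ge.apply_symm_apply _
    exact h1
  · intro w
    exact LinearMap.mem_ker.1 (Ge.symm w).2
  · intro l hl
    have hm : l ∈ LinearMap.ker E := LinearMap.mem_ker.2 hl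
    have h1 : q l = Ge ⟨l, hm⟩ := rfl
    change (Ge.symm (q l)).1 = l
    rw [h1, Ge.symm_apply_apply]

theorem tFrm (h : MaxStmt) : FrmStmt := by
  intro F _ M _ V T a D
  have hfin := T.fin
  have hEk : ∀ l : V, (frmEv V a).prod D.d l = 0 ↔ l.1 a = 0 ∧ D.d l = 0 := by
    intro l
    exact Prod.mk_eq_zero
  obtain ⟨hV, hs, Λ, h1, h2, h3⟩ := frm_core ((frmEv V a).prod D.d) (frmSix ∘ₗ D.q) (by
    intro l hl hq
    have hq0 : D.q l = 0 := by
      apply frmSix_inj (D.symm _) Matrix.isSymm_zero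
      rw [map_zero]
      exact hq
    exact frm_zero h F M V T a D l ((hEk l).1 hl).1 ((hEk l).1 hl).2 hq0) T.dim
  refine ⟨hV, Λ ∘ₗ frmSix, ?_, ?_, ?_, ?_, ?_⟩
  · intro Q hQ
    exact frmSix_inj (D.symm _) hQ (h1 (frmSix Q))
  · intro Q
    exact ((hEk _).1 (h2 (frmSix Q))).1
  · intro Q
    exact ((hEk _).1 (h2 (frmSix Q))).2
  · intro l hl hd
    exact h3 l ((hEk l).2 ⟨hl, hd⟩)
  · intro c δ
    obtain ⟨l, hl⟩ := hs (c, δ)
    exact ⟨l, congrArg Prod.fst hl, congrArg Prod.snd hl⟩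

end Ver

end TightRP
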