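import Pool.Agent.Lib.MP_7cdc3e_gt.A.Spec

/-!
# Theorem A, C2: a global chart at a definite point
-/

open HoloConj Pool.Agent.Lib.SingHom

namespace TightRP

namespace Ver

abbrev GloE : Type := EuclideanSpace ℝ (Fin 3)

/-- the second derivative at a critical point after a change of the chart -/
theorem glo_aux {h : GloE → ℝ} {U : Set GloE} (hU : IsOpen U) (hh : ContDiffOn ℝ 2 h U)
    {G : R3 → GloE} (hG : ContDiff ℝ 2 G) (hGU : ∀ x, G x ∈ U)
    (h0 : fderiv ℝ h (G 0) = 0) :
    fderiv ℝ (fun y => h (G y)) 0 = 0 ∧ ∀ v,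
      iteratedFDeriv ℝ 2 (fun y => h (G y)) 0 ![v, v] =
        iteratedFDeriv ℝ 2 h (G 0) ![fderiv ℝ G 0 v, fderiv ℝ G 0 v] := by
  have hd : ∀ x ∈ U, ContDiffAt ℝ 2 h x := fun x hx => hh.contDiffAt (hU.mem_nhds hx)
  have hdf : ∀ x ∈ U, DifferentiableAt ℝ h x := fun x hx =>
    (hd x hx).differentiableAt (by norm_num)
  have hGd : Differentiable ℝ G := hG.differentiable (by norm_num)
  have hf : fderiv ℝ (fun y => h (G y)) = fun y => (fderiv ℝ h (G y)).comp (fderiv ℝ G y) := by
    funext y
    exact fderiv_comp y (hdf (G y) (hGU y)) (hGd y)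
  constructor
  · rw [hf]
    show (fderiv ℝ h (G 0)).comp (fderiv ℝ G 0) = 0
    rw [h0, ContinuousLinearMap.zero_comp]
  · intro v
    have hd1 : DifferentiableAt ℝ (fderiv ℝ h) (G 0) :=
      ((hd (G 0) (hGU 0)).fderiv_right (m := 1) (by norm_num)).differentiableAt (by norm_num)
    have hd2 : DifferentiableAt ℝ (fun y => fderiv ℝ h (G y)) 0 :=
      hd1.comp 0 (hGd 0)
    have hd3 : DifferentiableAt ℝ (fderiv ℝ G) 0 :=
      ((hG.contDiffAt (x := 0)).fderiv_right (m := 1) (by norm_num)).differentiableAt (by norm_num)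
    have key := (hd2.hasFDerivAt.clm_comp hd3.hasFDerivAt).fderiv
    have hk2 : fderiv ℝ (fun y => fderiv ℝ h (G y)) 0 =
        (fderiv ℝ (fderiv ℝ h) (G 0)).comp (fderiv ℝ G 0) := fderiv_comp 0 hd1 (hGd 0)
    rw [iteratedFDeriv_two_apply, iteratedFDeriv_two_apply, hf, key, hk2, h0]
    simp

theorem tGlo : GloStmt := by
  rintro M _ N f ⟨e, y₀, l, hy₀, hf, hl, hp⟩
  obtain ⟨r, hr, hball⟩ := Metric.isOpen_iff.1 e.open_target y₀ hy₀
  let T : R3 ≃L[ℝ] GloE := (EuclideanSpace.equiv (Fin 3) ℝ).symm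
  let B : OpenPartialHomeomorph GloE GloE := OpenPartialHomeomorph.univBall y₀ r
  have hBs : B.source = Set.univ := OpenPartialHomeomorph.univBall_source y₀ r
  have hBt : B.target = Metric.ball y₀ r := OpenPartialHomeomorph.univBall_target y₀ hr
  have hB0 : B 0 = y₀ := OpenPartialHomeomorph.univBall_apply_zero y₀ r
  have hBm : ∀ x, B x ∈ Metric.ball y₀ r := fun x => by
    rw [← hBt]
    exact B.map_source (by rw [hBs]; trivial)
  let G : R3 → GloE := fun x => B (T x)
  have hG0 : G 0 = y₀ := by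
    show B (T 0) = y₀
    rw [map_zero, hB0]
  have hGc : ContDiff ℝ 2 G := by
    have h1 : ContDiff ℝ 2 B := OpenPartialHomeomorph.contDiff_univBall (n := 2)
    exact h1.comp T.contDiff
  have hGm : ∀ x, G x ∈ e.target := fun x => hball (hBm (T x))
  let gg : OpenPartialHomeomorph R3 M := (T.toHomeomorph.toOpenPartialHomeomorph.trans B).trans e.symm
  have hgs : gg.source = Set.univ := by
    ext x
    simp only [gg, OpenPartialHomeomorph.trans_source, Set.mem_inter_iff, Set.mem_preimage,
      Set.mem_univ, iff_true, Homeomorph.toOpenPartialHomeomorph_source, true_and]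
    refine ⟨by rw [hBs]; trivial, ?_⟩
    exact hGm x
  have hge : Topology.IsOpenEmbedding gg := gg.isOpenEmbedding hgs
  have hgg : ∀ x, gg x = e.symm (G x) := fun x => rfl
  refine ⟨gg, l, hge, ?_, ?_⟩
  · exact hf.comp_contDiff hGc hGm
  · have hh : ContDiffOn ℝ 2 (fun y => l (f (e.symm y))) e.target := by
      have h1 : ContDiff ℝ 2 (fun w : EuclideanSpace ℝ (Fin N) => l w) :=
        (LinearMap.toContinuousLinearMap l).contDiff
      exact h1.comp_contDiffOn hf
    have h0 : fderiv ℝ (fun y => l (f (e.symm y))) (G 0) = 0 := by rw [hG0]; exact hl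
    obtain ⟨k1, k2⟩ := glo_aux e.open_target hh hGc hGm h0
    refine ⟨k1, fun v hv => ?_⟩
    have k3 := k2 v
    have hinj : fderiv ℝ G 0 v ≠ 0 := by
      intro hc
      apply hv
      have hS : DifferentiableAt ℝ B.symm y₀ := by
        have h2 : ContDiffOn ℝ 2 B.symm (Metric.ball y₀ r) :=
          OpenPartialHomeomorph.contDiffOn_univBall_symm (n := 2)
        exact (h2.contDiffAt (Metric.ball_mem_nhds y₀ hr)).differentiableAt (by norm_num)
      have hGd : DifferentiableAt ℝ G 0 := hGc.differentiable (by norm_num) 0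
      have hid : (fun x => B.symm (G x)) = fun x => T x := by
        funext x
        exact B.left_inv (by rw [hBs]; trivial)
      have hc1 : fderiv ℝ (fun x => B.symm (G x)) 0 =
          (fderiv ℝ B.symm (G 0)).comp (fderiv ℝ G 0) :=
        fderiv_comp 0 (by rw [hG0]; exact hS) hGd
      rw [hid] at hc1
      have hc2 : fderiv ℝ (fun x => T x) 0 = (T : R3 →L[ℝ] GloE) := T.fderiv
      rw [hc2] at hc1
      have hc3 : T v = 0 := by
        have h5 := congrArg (fun L : R3 →L[ℝ] GloE => L v) hc1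
        simp only [ContinuousLinearMap.comp_apply] at h5
        rw [hc, map_zero] at h5
        exact h5
      exact (map_eq_zero_iff T T.injective).1 hc3
    have h6 := hp _ hinj
    rw [hG0] at k3
    show 0 < iteratedFDeriv ℝ 2 (fun y => l (f (e.symm (G y)))) 0 ![v, v]
    rw [k3]
    exact h6

end Ver

end TightRP
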