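import Pool.Agent.Lib.MP_7cdc3e_gt.A.Spec

/-!
# MP_7cdc3e_gt, Theorem A, module Hom: the homeomorphism and the formula
-/

open HoloConj Pool.Agent.Lib.SingHom

namespace TightRP

namespace Ver

/-- the unit sphere of `ℝ⁴` -/
private abbrev homS : Type := Metric.sphere (0 : EuclideanSpace ℝ (Fin 4)) 1

private theorem hom_qf_smul {n : ℕ} (k : Matrix (Fin n) (Fin n) ℝ) (c : ℝ) (y : Fin n → ℝ) :
    qf k (c • y) = c ^ 2 * qf k y := by
  unfold qf
  rw [Finset.mul_sum]
  refine Finset.sum_congr rfl fun i _ => ?_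
  rw [Finset.mul_sum]
  refine Finset.sum_congr rfl fun j _ => ?_
  simp only [Pi.smul_apply, smul_eq_mul]
  ring

private theorem hom_toLp_ne {u : Fin 4 → ℝ} (hu : u ≠ 0) :
    (WithLp.toLp 2 u : EuclideanSpace ℝ (Fin 4)) ≠ 0 := by
  intro h
  apply hu
  have := congrArg WithLp.ofLp h
  simpa using this

/-- the unit vector in the direction of `u` -/
private noncomputable def homW (u : Fin 4 → ℝ) (hu : u ≠ 0) : homS :=
  ⟨‖(WithLp.toLp 2 u : EuclideanSpace ℝ (Fin 4))‖⁻¹ • (WithLp.toLp 2 u : EuclideanSpace ℝ (Fin 4)), by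
    rw [mem_sphere_zero_iff_norm, norm_smul, norm_inv, norm_norm]
    exact inv_mul_cancel₀ (norm_ne_zero_iff.mpr (hom_toLp_ne hu))⟩

/-- the class of the unit vector depends only on the line -/
private theorem hom_class_eq {u u' : Fin 4 → ℝ} (hu : u ≠ 0) (hu' : u' ≠ 0) (s : ℝ) (h : u' = s • u) :
    (Quotient.mk antipodal (homW u' hu') : RP3) = Quotient.mk antipodal (homW u hu) := by
  have hs : s ≠ 0 := by
    rintro rfl
    rw [zero_smul] at h
    exact hu' h
  subst h
  apply Quotient.sound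
  change ((homW (s • u) hu').1 = (homW u hu).1 ∨ (homW (s • u) hu').1 = -(homW u hu).1)
  simp only [homW]
  have e1 : (WithLp.toLp 2 (s • u) : EuclideanSpace ℝ (Fin 4)) = s • WithLp.toLp 2 u := rfl
  rw [e1, norm_smul, mul_inv, smul_smul]
  rcases lt_or_gt_of_ne hs with h | h
  · right
    rw [Real.norm_eq_abs, abs_of_neg h, ← neg_smul]
    congr 1
    field_simp
  · left
    rw [Real.norm_eq_abs, abs_of_pos h]
    congr 1
    field_simp

/-- equal classes give proportional vectors -/
private theorem hom_of_class {u : Fin 4 → ℝ} (hu : u ≠ 0) (v : homS)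
    (h : (Quotient.mk antipodal (homW u hu) : RP3) = Quotient.mk antipodal v) :
    ∃ s : ℝ, s ≠ 0 ∧ u = s • v.1.ofLp := by
  have h1 : (homW u hu).1 = v.1 ∨ (homW u hu).1 = -v.1 := Quotient.exact h
  have hn : ‖(WithLp.toLp 2 u : EuclideanSpace ℝ (Fin 4))‖ ≠ 0 :=
    norm_ne_zero_iff.mpr (hom_toLp_ne hu)
  have h2 : (WithLp.toLp 2 u : EuclideanSpace ℝ (Fin 4)) =
      ‖(WithLp.toLp 2 u : EuclideanSpace ℝ (Fin 4))‖ • (homW u hu).1 := by
    simp only [homW]
    rw [smul_smul, mul_inv_cancel₀ hn, one_smul]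
  rcases h1 with h1 | h1
  · refine ⟨_, hn, ?_⟩
    rw [h1] at h2
    exact congrArg WithLp.ofLp h2
  · refine ⟨_, neg_ne_zero.mpr hn, ?_⟩
    rw [h1, smul_neg, ← neg_smul] at h2
    exact congrArg WithLp.ofLp h2

theorem tHom (h1 : OneStmt) (h2 : FibStmt) (h3 : RPTopStmt) : HomStmt := by
  intro F _ M _ V T e Q
  have := T.t2
  have := T.cpt
  have := T.pc
  obtain ⟨hT2, hE, hPC⟩ := h3
  have := hT2
  have := hPC
  choose u hu0 hu using h1 F M V T e Q
  have hec : ∀ i j, Continuous (e i j) := fun i j => T.cont _ (Q.mem i j)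
  -- the map
  set h : M → RP3 := fun x => Quotient.mk antipodal (homW (u x) (hu0 x)) with hh
  have hmk : Continuous (fun v : homS => (Quotient.mk antipodal v : RP3)) := continuous_quotient_mk'
  have hcont : Continuous h := by
    rw [continuous_iff_continuousAt]
    intro x₀
    obtain ⟨m, hm⟩ : ∃ m, u x₀ m ≠ 0 := Function.ne_iff.mp (hu0 x₀)
    have hO : IsOpen {x : M | e m m x ≠ 0} := isOpen_ne_fun (hec m m) continuous_const
    have hx₀ : x₀ ∈ {x : M | e m m x ≠ 0} := by
      change e m m x₀ ≠ 0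
      rw [hu]
      exact mul_ne_zero hm hm
    have hv0 : ∀ x : {x : M | e m m x ≠ 0}, (fun i => e m i x.1) ≠ 0 := by
      intro x hx
      exact x.2 (congrFun hx m)
    have hon : ContinuousOn h {x : M | e m m x ≠ 0} := by
      rw [continuousOn_iff_continuous_domRestrict]
      have e1 : Set.domRestrict {x : M | e m m x ≠ 0} h =
          fun x : {x : M | e m m x ≠ 0} =>
            (Quotient.mk antipodal (homW (fun i => e m i x.1) (hv0 x)) : RP3) := by
        funext x
        change (Quotient.mk antipodal (homW (u x.1) (hu0 x.1)) : RP3) = _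
        symm
        refine hom_class_eq _ _ (u x.1 m) ?_
        funext i
        rw [hu]
        rfl
      rw [e1]
      refine hmk.comp ?_
      refine Continuous.subtype_mk ?_ _
      have hc1 : Continuous (fun x : {x : M | e m m x ≠ 0} =>
          (WithLp.toLp 2 (fun i => e m i x.1) : EuclideanSpace ℝ (Fin 4))) := by
        refine (PiLp.continuous_toLp 2 _).comp ?_
        exact continuous_pi fun i => (hec m i).comp continuous_subtype_val
      refine Continuous.smul (Continuous.inv₀ hc1.norm ?_) hc1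
      intro x
      exact norm_ne_zero_iff.mpr (hom_toLp_ne (hv0 x))
    exact hon.continuousAt (hO.mem_nhds hx₀)
  have hinj : Function.Injective h := by
    intro x x' hxx
    obtain ⟨s, hs, hus⟩ := hom_of_class (hu0 x) (homW (u x') (hu0 x')) hxx
    have hn : ‖(WithLp.toLp 2 (u x') : EuclideanSpace ℝ (Fin 4))‖ ≠ 0 :=
      norm_ne_zero_iff.mpr (hom_toLp_ne (hu0 x'))
    refine (h2 F M V T e Q x' x (u x') (u x)
      (s * ‖(WithLp.toLp 2 (u x') : EuclideanSpace ℝ (Fin 4))‖⁻¹) (hu x') (hu x) ?_).symm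
    rw [mul_smul]
    exact hus
  have hsurj : Function.Surjective h :=
    InvDom.surjective_of_injective (E := EuclideanSpace ℝ (Fin 3)) T.euc hE h hcont hinj
  set H : M ≃ₜ RP3 := Continuous.homeoOfEquivCompactToT2 (f := Equiv.ofBijective h ⟨hinj, hsurj⟩) hcont
    with hH
  have hHh : ∀ x, H x = h x := fun x => rfl
  -- the form
  obtain ⟨k, hk, hk1⟩ := Q.span _ (T.const 1)
  have hqf : ∀ x, qf k (u x) = 1 := by
    intro x
    have h4 := congrFun hk1 x
    rw [h4]
    unfold qf
    rw [Finset.sum_apply]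
    refine Finset.sum_congr rfl fun i _ => ?_
    rw [Finset.sum_apply]
    refine Finset.sum_congr rfl fun j _ => ?_
    rw [Pi.smul_apply, smul_eq_mul, hu]
  have key : ∀ v : homS, ∃ s : ℝ, u (H.symm (Quotient.mk antipodal v)) = s • v.1.ofLp ∧
      s ^ 2 * qf k v.1.ofLp = 1 := by
    intro v
    have h4 : h (H.symm (Quotient.mk antipodal v)) = Quotient.mk antipodal v := by
      rw [← hHh]
      exact H.apply_symm_apply _
    obtain ⟨s, _, hs⟩ := hom_of_class (hu0 _) v h4
    refine ⟨s, hs, ?_⟩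
    rw [← hom_qf_smul, ← hs]
    exact hqf _
  refine ⟨H.symm, k, ⟨hk, ?_⟩, ?_⟩
  · intro y hy
    obtain ⟨s, _, hs⟩ := key (homW y hy)
    have h5 : 0 < qf k (homW y hy).1.ofLp := by
      by_contra hcon
      have h6 : s ^ 2 * qf k (homW y hy).1.ofLp ≤ 0 :=
        mul_nonpos_of_nonneg_of_nonpos (sq_nonneg s) (not_lt.mp hcon)
      linarith
    have h7 : (homW y hy).1.ofLp = ‖(WithLp.toLp 2 y : EuclideanSpace ℝ (Fin 4))‖⁻¹ • y := rfl
    rw [h7, hom_qf_smul] at h5
    exact pos_of_mul_pos_right h5 (sq_nonneg _)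
  · intro v i j
    obtain ⟨s, hs1, hs2⟩ := key v
    have h5 : qf k v.1.ofLp ≠ 0 := by
      intro h0
      rw [h0, mul_zero] at hs2
      exact zero_ne_one hs2
    rw [hu, hs1, eq_div_iff h5]
    simp only [Pi.smul_apply, smul_eq_mul]
    linear_combination (v.1.ofLp i * v.1.ofLp j) * hs2

end Ver

end TightRP
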