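import Pool.Agent.Lib.MP_7cdc3e_gt.A.Spec

/-!
# A path in `S` gives a singular one-chain in `S`
-/

open HoloConj Pool.Agent.Lib.SingHom

namespace TightRP.Ver

section

variable {F : Type} [Field F] {X : Type} [TopologicalSpace X]

private instance join_subsingleton : Subsingleton (Sx 0) := by
  constructor
  intro s t
  apply stdSimplex.ext
  funext k
  have hk : k = 0 := by
    apply Fin.ext
    have := k.2
    show (k : ℕ) = 0
    omega
  have h1 : s k = 1 := by
    have h := stdSimplex.sum_eq_one s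
    rw [Fin.sum_univ_one] at h
    rw [hk]
    exact h
  have h2 : t k = 1 := by
    have h := stdSimplex.sum_eq_one t
    rw [Fin.sum_univ_one] at h
    rw [hk]
    exact h
  exact h1.trans h2.symm

private theorem join_simplex {x y : X} (γ : Path x y) (S : Set X) (hS : ∀ t, γ t ∈ S) :
    ∃ τ : C(Sx 1, X), (∀ t, τ t ∈ S) ∧
      sbdv F τ = Finsupp.single (ContinuousMap.const (Sx 0) y) 1 -
      Finsupp.single (ContinuousMap.const (Sx 0) x) 1 := by
  have hI : ∀ t : Sx 1, t 1 ∈ Set.Icc (0 : ℝ) 1 := fun t =>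
    ⟨stdSimplex.zero_le t 1, by
      have h := stdSimplex.sum_eq_one t
      rw [Fin.sum_univ_two] at h
      have h0 := stdSimplex.zero_le t 0
      linarith⟩
  have hcont : Continuous (fun t : Sx 1 => (⟨t 1, hI t⟩ : unitInterval)) := by
    apply Continuous.subtype_mk
    exact (continuous_apply 1).comp continuous_subtype_val
  let τ : C(Sx 1, X) := ⟨fun t => γ ⟨t 1, hI t⟩, γ.continuous.comp hcont⟩
  refine ⟨τ, fun t => hS _, ?_⟩
  have hf0 : face 0 τ = ContinuousMap.const (Sx 0) y := by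
    ext1 t
    have ht : t = stdSimplex.vertex 0 := Subsingleton.elim _ _
    show τ (smap (Fin.succAbove 0) t) = y
    rw [ht, smap_eq_aff, aff_vertex]
    show γ ⟨(stdSimplex.vertex (Fin.succAbove 0 0) : Sx 1) 1, _⟩ = y
    have e : (⟨(stdSimplex.vertex (Fin.succAbove (0 : Fin 2) (0 : Fin 1)) : Sx 1) 1,
        hI _⟩ : unitInterval) = 1 := by
      apply Subtype.ext
      simp
    rw [e, γ.target]
  have hf1 : face 1 τ = ContinuousMap.const (Sx 0) x := by
    ext1 t
    have ht : t = stdSimplex.vertex 0 := Subsingleton.elim _ _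
    show τ (smap (Fin.succAbove 1) t) = x
    rw [ht, smap_eq_aff, aff_vertex]
    show γ ⟨(stdSimplex.vertex (Fin.succAbove 1 0) : Sx 1) 1, _⟩ = x
    have e : (⟨(stdSimplex.vertex (Fin.succAbove (1 : Fin 2) (0 : Fin 1)) : Sx 1) 1,
        hI _⟩ : unitInterval) = 0 := by
      apply Subtype.ext
      simp
    rw [e, γ.source]
  rw [sbdv, Fin.sum_univ_two, hf0, hf1]
  simp [sub_eq_add_neg]

end

theorem tJoin : JoinStmt := by
  intro F _ X _ S x y h
  obtain ⟨γ, hγ⟩ := h
  obtain ⟨τ, h1, h2⟩ := join_simplex (F := F) γ S hγ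
  refine ⟨Finsupp.single τ 1, ?_, ?_⟩
  · show Finsupp.single τ (1 : F) ∈ Finsupp.supported F F {σ : C(Sx 1, X) | ∀ t, σ t ∈ S}
    exact Finsupp.single_mem_supported F 1 h1
  · rw [sbd_single, h2]
    rfl

end TightRP.Ver
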