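import Pool.Agent.Lib.MP_7cdc3e_gt.A.Spec

/-!
# S1: a nondegenerate local minimum is a strict global minimum
-/

set_option autoImplicit false

open HoloConj Pool.Agent.Lib.SingHom

namespace TightRP

namespace Ver

theorem max_qf_cont {n : ℕ} (Q : Matrix (Fin n) (Fin n) ℝ) : Continuous (qf Q) := by
  unfold qf
  fun_prop

theorem max_qf_smul {n : ℕ} (Q : Matrix (Fin n) (Fin n) ℝ) (s : ℝ) (y : Fin n → ℝ) :
    qf Q (s • y) = s ^ 2 * qf Q y := by
  unfold qf
  rw [Finset.mul_sum]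
  refine Finset.sum_congr rfl fun i _ => ?_
  rw [Finset.mul_sum]
  refine Finset.sum_congr rfl fun j _ => ?_
  simp only [Pi.smul_apply, smul_eq_mul]
  ring

/-- A positive definite form is bounded below by a multiple of the square of the norm. -/
theorem max_qf_lower {Q : Matrix (Fin 3) (Fin 3) ℝ} (hQ : PD Q) :
    ∃ c : ℝ, 0 < c ∧ ∀ y : R3, c * ‖y‖ ^ 2 ≤ qf Q y := by
  have hne : (Metric.sphere (0 : R3) 1).Nonempty := NormedSpace.sphere_nonempty.2 zero_le_one
  obtain ⟨y₀, hy₀, hmin⟩ := (isCompact_sphere (0 : R3) 1).exists_isMinOn hne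
    (max_qf_cont Q).continuousOn
  have hn0 : ‖y₀‖ = 1 := by simpa using hy₀
  have hy0 : y₀ ≠ 0 := by
    intro h
    rw [h, norm_zero] at hn0
    exact zero_ne_one hn0
  refine ⟨qf Q y₀, hQ.2 y₀ hy0, fun y => ?_⟩
  rcases eq_or_ne y 0 with rfl | hy
  · have h0 : qf Q (0 : R3) = 0 := by
      unfold qf
      simp
    rw [h0, norm_zero]
    simp
  · have hn : 0 < ‖y‖ := norm_pos_iff.2 hy
    have hz : (‖y‖⁻¹ • y) ∈ Metric.sphere (0 : R3) 1 := by
      rw [mem_sphere_zero_iff_norm, norm_smul, norm_inv, norm_norm, inv_mul_cancel₀ hn.ne']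
    have h1 : qf Q y₀ ≤ qf Q (‖y‖⁻¹ • y) := hmin hz
    have h2 : qf Q y = ‖y‖ ^ 2 * qf Q (‖y‖⁻¹ • y) := by
      rw [max_qf_smul]
      field_simp
    rw [h2, mul_comm]
    exact mul_le_mul_of_nonneg_left h1 (by positivity)

theorem tMax (h1 : ConnStmt) : MaxStmt := by
  intro F _ M _ V hV a D l hla hdl hpd x hxa
  by_contra hneg
  have hlx : l.1 x ≤ 0 := not_lt.1 hneg
  have := hV.t2
  obtain ⟨c, hc, hcq⟩ := max_qf_lower hpd
  have hexp := D.exp l
  have hb := hexp.def (half_pos hc)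
  obtain ⟨ε, hε, hball⟩ := Metric.eventually_nhds_iff.1 hb
  have key : ∀ y : R3, ‖y‖ < ε → c / 2 * ‖y‖ ^ 2 ≤ l.1 (D.g y) := by
    intro y hy
    have h2 := hball (by rwa [dist_zero_right] : dist y 0 < ε)
    rw [hla, hdl] at h2
    have h3 : ∑ i, (0 : R3) i * y i = 0 := by simp
    rw [h3, sub_zero, sub_zero, Real.norm_eq_abs, norm_pow, norm_norm] at h2
    have h4 := (abs_le.1 h2).1
    have h5 := hcq y
    linarith
  set r : ℝ := ε / 2 with hr
  have hr0 : 0 < r := half_pos hε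
  have hrε : r < ε := half_lt_self hε
  have hxn : x ∉ D.g '' Metric.closedBall 0 r := by
    rintro ⟨y, hy, rfl⟩
    rw [mem_closedBall_zero_iff] at hy
    have hy0 : y ≠ 0 := by
      rintro rfl
      exact hxa D.g0
    have h2 := key y (hy.trans_lt hrε)
    have h3 : 0 < c / 2 * ‖y‖ ^ 2 := by
      have : 0 < ‖y‖ := norm_pos_iff.2 hy0
      positivity
    linarith
  set m : ℝ := c / 2 * r ^ 2 with hm
  have hm0 : 0 < m := by positivity
  have hfV : (fun z => m / 2 - l.1 z) ∈ V := V.sub_mem (hV.const (m / 2)) l.2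
  have hpre := (h1 F M V hV _ hfV).1
  have hU : IsOpen (D.g '' Metric.ball 0 r) := D.emb.isOpenMap _ Metric.isOpen_ball
  have hcomp : IsCompact (D.g '' Metric.closedBall 0 r) :=
    (isCompact_closedBall (0 : R3) r).image D.emb.continuous
  have hU' : IsOpen (D.g '' Metric.closedBall 0 r)ᶜ := hcomp.isClosed.isOpen_compl
  have hcov : {z | 0 < m / 2 - l.1 z} ⊆ D.g '' Metric.ball 0 r ∪ (D.g '' Metric.closedBall 0 r)ᶜ := by
    intro z hz
    by_cases hzc : z ∈ D.g '' Metric.closedBall 0 r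
    · left
      obtain ⟨y, hy, rfl⟩ := hzc
      refine ⟨y, ?_, rfl⟩
      rw [mem_closedBall_zero_iff] at hy
      rw [mem_ball_zero_iff]
      rcases hy.lt_or_eq with h | h
      · exact h
      · exfalso
        have h2 := key y (by rw [h]; exact hrε)
        rw [h] at h2
        have h3 : 0 < m / 2 - l.1 (D.g y) := hz
        linarith
    · exact Or.inr hzc
  have ha : a ∈ {z | 0 < m / 2 - l.1 z} := by
    show 0 < m / 2 - l.1 a
    rw [hla]
    linarith
  have hx : x ∈ {z | 0 < m / 2 - l.1 z} := by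
    show 0 < m / 2 - l.1 x
    linarith
  obtain ⟨z, -, hz1, hz2⟩ := hpre _ _ hU hU' hcov
    ⟨a, ha, 0, by rw [mem_ball_zero_iff, norm_zero]; exact hr0, D.g0⟩ ⟨x, hx, hxn⟩
  exact hz2 (Set.image_mono Metric.ball_subset_closedBall hz1)

end Ver

end TightRP
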