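import Pool.Agent.Lib.MP_7cdc3e_gt.A.Spec

/-!
# MP_7cdc3e_gt, Theorem A, module Nbh: the definite points form a neighbourhood
-/

open HoloConj Pool.Agent.Lib.SingHom

namespace TightRP

namespace Ver

open Filter

private theorem nbh_i1 : ContinuousAdd (R3 →L[ℝ] R3 →L[ℝ] ℝ) :=
  (inferInstance : IsTopologicalAddGroup (R3 →L[ℝ] R3 →L[ℝ] ℝ)).toContinuousAdd

private theorem nbh_i2 : ContinuousSub (R3 →L[ℝ] R3 →L[ℝ] ℝ) :=
  (inferInstance : IsTopologicalAddGroup (R3 →L[ℝ] R3 →L[ℝ] ℝ)).to_continuousSub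

attribute [local instance] nbh_i1 nbh_i2

private theorem nbh_lin (L : R3 →L[ℝ] ℝ) (y : R3) : ∑ i, L (Pi.single i 1) * y i = L y := by
  conv_rhs => rw [← Finset.univ_sum_single y]
  rw [map_sum]
  refine Finset.sum_congr rfl fun i _ => ?_
  have : (Pi.single i (y i) : R3) = y i • (Pi.single i 1 : R3) := by
    rw [← Pi.single_smul, smul_eq_mul, mul_one]
  rw [this, map_smul, smul_eq_mul, mul_comm]

private theorem nbh_ext {L L' : R3 →L[ℝ] ℝ} (h : ∀ i, L (Pi.single i 1) = L' (Pi.single i 1)) :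
    L = L' := by
  ext y
  rw [← nbh_lin L, ← nbh_lin L']
  exact Finset.sum_congr rfl fun i _ => by rw [h]

/-- positive lower bound of a positive definite quadratic form -/
private theorem nbh_min (B : R3 →L[ℝ] R3 →L[ℝ] ℝ) (hB : ∀ v, v ≠ 0 → 0 < B v v) :
    ∃ μ : ℝ, 0 < μ ∧ ∀ v, μ * ‖v‖ ^ 2 ≤ B v v := by
  have hc : IsCompact (Metric.sphere (0 : R3) 1) := isCompact_sphere _ _
  have hcont : Continuous (fun v : R3 => B v v) := B.continuous.clm_apply continuous_id
  have hne : (Metric.sphere (0 : R3) 1).Nonempty := NormedSpace.sphere_nonempty.mpr zero_le_one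
  obtain ⟨v₀, hv₀, hmin⟩ := hc.exists_isMinOn hne hcont.continuousOn
  have hv₀1 : ‖v₀‖ = 1 := by rwa [mem_sphere_zero_iff_norm] at hv₀
  refine ⟨B v₀ v₀, hB v₀ (by rintro rfl; simp at hv₀1), ?_⟩
  intro v
  rcases eq_or_ne v 0 with rfl | hv
  · simp
  · have hn : ‖v‖ ≠ 0 := norm_ne_zero_iff.mpr hv
    have h1 : ‖v‖⁻¹ • v ∈ Metric.sphere (0 : R3) 1 := by
      rw [mem_sphere_zero_iff_norm, norm_smul, norm_inv, norm_norm]
      exact inv_mul_cancel₀ hn
    have h2 : B v₀ v₀ ≤ B (‖v‖⁻¹ • v) (‖v‖⁻¹ • v) := hmin h1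
    rw [map_smul, map_smul, smul_apply, smul_eq_mul, smul_eq_mul] at h2
    have h3 : 0 < ‖v‖ ^ 2 := by positivity
    calc B v₀ v₀ * ‖v‖ ^ 2 ≤ (‖v‖⁻¹ * (‖v‖⁻¹ * B v v)) * ‖v‖ ^ 2 :=
          mul_le_mul_of_nonneg_right h2 h3.le
      _ = B v v := by field_simp

private theorem nbh_pos {B B' : R3 →L[ℝ] R3 →L[ℝ] ℝ} {μ : ℝ} (hμ : ∀ v, μ * ‖v‖ ^ 2 ≤ B v v)
    (h : ‖B' - B‖ < μ) (v : R3) (hv : v ≠ 0) : 0 < B' v v := by
  have h1 : |(B' - B) v v| ≤ ‖B' - B‖ * ‖v‖ * ‖v‖ := (B' - B).le_opNorm₂ v v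
  have h2 : (B' - B) v v = B' v v - B v v := rfl
  rw [h2] at h1
  have h3 : 0 < ‖v‖ := norm_pos_iff.mpr hv
  have h4 : ‖B' - B‖ * ‖v‖ * ‖v‖ < μ * ‖v‖ ^ 2 := by
    rw [pow_two, ← mul_assoc]
    gcongr
  have h5 := (abs_le.mp h1).1
  have h6 := hμ v
  linarith

variable {M : Type} {N : ℕ} {f : M → EuclideanSpace ℝ (Fin N)} {g : R3 → M}

/-- derivatives of a linear function of `f ∘ g` -/
private theorem nbh_fd (hf : ContDiff ℝ 2 (fun y => f (g y)))
    (m : EuclideanSpace ℝ (Fin N) →ₗ[ℝ] ℝ) (y : R3) :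
    fderiv ℝ (fun y => m (f (g y))) y =
      m.toContinuousLinearMap.comp (fderiv ℝ (fun y => f (g y)) y) := by
  have h1 : HasFDerivAt (fun y => f (g y)) (fderiv ℝ (fun y => f (g y)) y) y :=
    (hf.differentiable (by norm_num) y).hasFDerivAt
  have h2 : HasFDerivAt (fun y => m.toContinuousLinearMap (f (g y)))
      (m.toContinuousLinearMap.comp (fderiv ℝ (fun y => f (g y)) y)) y :=
    m.toContinuousLinearMap.hasFDerivAt.comp y h1
  exact h2.fderiv

theorem tNbh (h1 : FrmStmt) (h2 : TayStmt) : NbhStmt := by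
  intro F _ M _ N f T g l hg hf hl1 hl2
  obtain ⟨D, _, hDd⟩ := h2 M N f g l 0 hg hf hl1 hl2
  obtain ⟨_, Λ, _, _, _, _, hsurj⟩ := h1 F M (aff f) T (g 0) D
  -- the derivative of `f ∘ g`
  set F' : R3 → R3 →L[ℝ] EuclideanSpace ℝ (Fin N) := fderiv ℝ (fun y => f (g y)) with hF'
  have hF'c1 : ContDiff ℝ 1 F' := hf.fderiv_right (m := 1) (by norm_num)
  have hF'c : Continuous F' := hF'c1.continuous
  have hF'd : Differentiable ℝ F' := hF'c1.differentiable (by norm_num)
  have hF''c : Continuous (fderiv ℝ F') := hF'c1.continuous_fderiv (by norm_num)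
  -- three linear functions
  have hm : ∀ i : Fin 3, ∃ m : EuclideanSpace ℝ (Fin N) →ₗ[ℝ] ℝ,
      ∀ j, m (F' 0 (Pi.single j 1)) = if i = j then 1 else 0 := by
    intro i
    obtain ⟨⟨_, m, c, rfl⟩, _, hm⟩ := hsurj 0 (Pi.single i 1)
    refine ⟨m, fun j => ?_⟩
    have h3 := hDd m c (Pi.single j 1)
    rw [hm] at h3
    have h4 : ∑ k, (Pi.single i (1 : ℝ) : R3) k * (Pi.single j (1 : ℝ) : R3) k =
        if i = j then 1 else 0 := by
      rw [Finset.sum_eq_single i]
      · rw [Pi.single_eq_same, one_mul, Pi.single_apply]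
      · intro b _ hb
        rw [Pi.single_eq_of_ne hb, zero_mul]
      · intro h
        exact absurd (Finset.mem_univ _) h
    rw [h4, nbh_fd hf m 0] at h3
    exact h3.symm
  choose m hm using hm
  set A : R3 → Matrix (Fin 3) (Fin 3) ℝ := fun y i j => m i (F' y (Pi.single j 1)) with hA
  set b : R3 → Fin 3 → ℝ := fun y j => l (F' y (Pi.single j 1)) with hb
  have hcm : ∀ (k : EuclideanSpace ℝ (Fin N) →ₗ[ℝ] ℝ) (j : Fin 3),
      Continuous (fun y => k (F' y (Pi.single j 1))) := by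
    intro k j
    exact k.toContinuousLinearMap.continuous.comp (hF'c.clm_apply continuous_const)
  have hAc : Continuous A := continuous_pi fun i => continuous_pi fun j => hcm (m i) j
  have hbc : Continuous b := continuous_pi fun j => hcm l j
  have hA0 : A 0 = 1 := by
    ext i j
    change m i (F' 0 (Pi.single j 1)) = _
    rw [hm, Matrix.one_apply]
  have hb0 : b 0 = 0 := by
    funext j
    have h3 : fderiv ℝ (fun y => l (f (g y))) 0 (Pi.single j 1) = 0 := by rw [hl1]; rfl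
    rw [nbh_fd hf l 0] at h3
    exact h3
  have hdet0 : (A 0).det ≠ 0 := by rw [hA0, Matrix.det_one]; exact one_ne_zero
  have hdetc : Continuous (fun y => (A y).det) := hAc.matrix_det
  have hdet : ∀ᶠ y in nhds (0 : R3), (A y).det ≠ 0 := hdetc.continuousAt.eventually_ne hdet0
  -- the coefficients
  set c : R3 → Fin 3 → ℝ := fun y => -(Matrix.vecMul (b y) (A y)⁻¹) with hc
  have hcA : ∀ y, (A y).det ≠ 0 → Matrix.vecMul (c y) (A y) = -b y := by
    intro y hy
    rw [hc, Matrix.neg_vecMul, Matrix.vecMul_vecMul, Matrix.nonsing_inv_mul _ (Ne.isUnit hy),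
      Matrix.vecMul_one]
  have hcc : ContinuousAt c 0 := by
    have hinv : ContinuousAt (fun y => (A y)⁻¹) 0 := by
      have h3 : (fun y => (A y)⁻¹) = fun y => Ring.inverse (A y).det • (A y).adjugate := rfl
      rw [h3]
      have h4 : ContinuousAt (fun y => Ring.inverse (A y).det) 0 := by
        simp only [Ring.inverse_eq_inv']
        exact hdetc.continuousAt.inv₀ hdet0
      exact h4.smul hAc.matrix_adjugate.continuousAt
    have h5 : ContinuousAt (fun y => Matrix.vecMul (b y) (A y)⁻¹) 0 := by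
      rw [continuousAt_pi]
      intro j
      have h6 : (fun y => Matrix.vecMul (b y) (A y)⁻¹ j) = fun y => ∑ i, b y i * (A y)⁻¹ i j := by
        funext y
        rfl
      rw [h6]
      refine tendsto_finsetSum _ fun i _ => ?_
      have h7 : ContinuousAt (fun y => b y i) 0 := (continuous_apply i).comp hbc |>.continuousAt
      have h8 : ContinuousAt (fun y => (A y)⁻¹ i j) 0 := by
        have := (continuousAt_pi.mp hinv) i
        exact (continuousAt_pi.mp this) j
      exact h7.mul h8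
    exact h5.neg
  have hc0 : c 0 = 0 := by
    rw [hc]
    change -(Matrix.vecMul (b 0) (A 0)⁻¹) = 0
    rw [hb0, Matrix.zero_vecMul, neg_zero]
  -- the linear functions
  set L : R3 → EuclideanSpace ℝ (Fin N) →ₗ[ℝ] ℝ := fun y => l + ∑ i, c y i • m i with hL
  have hLa : ∀ y v, L y v = l v + ∑ i, c y i * m i v := by
    intro y v
    simp [hL, LinearMap.sum_apply]
  have hcrit : ∀ y, (A y).det ≠ 0 → fderiv ℝ (fun z => L y (f (g z))) y = 0 := by
    intro y hy
    rw [nbh_fd hf]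
    refine nbh_ext fun j => ?_
    change L y (F' y (Pi.single j 1)) = 0
    rw [hLa]
    have h3 := congrFun (hcA y hy) j
    have h4 : Matrix.vecMul (c y) (A y) j = ∑ i, c y i * m i (F' y (Pi.single j 1)) := rfl
    rw [h4] at h3
    rw [h3]
    exact add_neg_cancel _
  -- the second derivatives
  set Bk : (EuclideanSpace ℝ (Fin N) →ₗ[ℝ] ℝ) → R3 → R3 →L[ℝ] R3 →L[ℝ] ℝ := fun k y =>
    ((ContinuousLinearMap.compL ℝ R3 (EuclideanSpace ℝ (Fin N)) ℝ) k.toContinuousLinearMap).comp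
      (fderiv ℝ F' y) with hBk
  have hBkc : ∀ k, Continuous (Bk k) := fun k => continuous_const.clm_comp hF''c
  have hBka : ∀ k y v w, Bk k y v w = k (fderiv ℝ F' y v w) := fun k y v w => rfl
  have hsnd : ∀ (k : EuclideanSpace ℝ (Fin N) →ₗ[ℝ] ℝ) (y : R3),
      fderiv ℝ (fderiv ℝ (fun z => k (f (g z)))) y = Bk k y := by
    intro k y
    have h3 : fderiv ℝ (fun z => k (f (g z))) = fun z =>
        (ContinuousLinearMap.compL ℝ R3 (EuclideanSpace ℝ (Fin N)) ℝ) k.toContinuousLinearMap (F' z) := by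
      funext z
      exact nbh_fd hf k z
    rw [h3]
    exact (((ContinuousLinearMap.compL ℝ R3 (EuclideanSpace ℝ (Fin N)) ℝ)
      k.toContinuousLinearMap).hasFDerivAt.comp y (hF'd y).hasFDerivAt).fderiv
  set B : R3 → R3 →L[ℝ] R3 →L[ℝ] ℝ := fun y => Bk l y + ∑ i, c y i • Bk (m i) y with hB
  have hBa : ∀ y v w, B y v w = Bk l y v w + ∑ i, c y i * Bk (m i) y v w := by
    intro y v w
    simp only [hB]
    rw [add_apply, add_apply, sum_apply, sum_apply]
    rfl
  have hBL : ∀ y, Bk (L y) y = B y := by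
    intro y
    refine ContinuousLinearMap.ext fun v => ContinuousLinearMap.ext fun w => ?_
    rw [hBka, hLa, hBa, hBka]
    rfl
  have hBc : ContinuousAt B 0 := by
    refine (hBkc l).continuousAt.add ?_
    refine tendsto_finsetSum _ fun i _ => ?_
    have h3 : ContinuousAt (fun y => c y i) 0 := (continuousAt_pi.mp hcc) i
    exact h3.smul (hBkc (m i)).continuousAt
  have hB0 : B 0 = Bk l 0 := by
    refine ContinuousLinearMap.ext fun v => ContinuousLinearMap.ext fun w => ?_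
    rw [hBa, hc0]
    simp
  have hpos0 : ∀ v, v ≠ 0 → 0 < B 0 v v := by
    intro v hv
    have h3 := hl2 v hv
    rw [iteratedFDeriv_two_apply, hsnd] at h3
    rw [hB0]
    exact h3
  obtain ⟨μ, hμ, hμB⟩ := nbh_min (B 0) hpos0
  have hnear : ∀ᶠ y in nhds (0 : R3), ‖B y - B 0‖ < μ := by
    filter_upwards [hBc (Metric.ball_mem_nhds (B 0) hμ)] with y hy
    have hy' : dist (B y) (B 0) < μ := hy
    have h3 : dist (B y) (B 0) = ‖B y - B 0‖ := dist_eq_norm (E := R3 →L[ℝ] R3 →L[ℝ] ℝ) (B y) (B 0)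
    rw [h3] at hy'
    exact hy'
  have hall : ∀ᶠ y in nhds (0 : R3), Nonempty (DefPt (aff f) (g y)) := by
    filter_upwards [hdet, hnear] with y hy1 hy2
    obtain ⟨D', _⟩ := h2 M N f g (L y) y hg hf (hcrit y hy1) (by
      intro v hv
      rw [iteratedFDeriv_two_apply, hsnd, hBL]
      exact nbh_pos hμB hy2 v hv)
    exact ⟨D'⟩
  rw [← hg.map_nhds_eq]
  exact hall

end Ver

end TightRP
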