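import Pool.Agent.Lib.MP_7cdc3e_gt.A.Spec

/-!
# Theorem A, S4: cycles in `{l > 0}` are boundaries
-/

open HoloConj Pool.Agent.Lib.SingHom

namespace TightRP

namespace Ver

theorem tNul (h1 : OddStmt) (h2 : ConnStmt) (h3 : JoinStmt) (h4 : DimStmt) : NulStmt := by
  intro F _ M _ V hV a D l p t hS z hz hdz
  by_contra hB
  have ht := hS.tpos
  have hp : 0 < l.1 (D.g (t • p)) := hS.seg t ht.ne' (by rw [abs_of_pos ht])
  have hm : 0 < l.1 (D.g (-(t • p))) := by
    rw [← neg_smul]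
    exact hS.seg (-t) (neg_ne_zero.2 ht.ne') (by rw [abs_neg, abs_of_pos ht])
  obtain ⟨τ, hτ, hdτ⟩ := h3 F M {x | 0 < l.1 x} _ _ ((h2 F M V hV l.1 l.2).2 _ _ hp hm)
  have hR : IsPathConnected (Set.range D.g) := by
    rw [← Set.image_univ]
    exact isPathConnected_univ.image D.emb.continuous
  obtain ⟨κ, hκ, hdκ⟩ := h3 F M (Set.range D.g) _ _
    (hR.joinedIn (D.g (-(t • p))) (Set.mem_range_self _) (D.g (t • p)) (Set.mem_range_self _))
  obtain ⟨k, hk⟩ := h4 F M hV.rk1 z (τ + κ) hdz (by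
    rw [map_add, hdτ, hdκ]
    abel) hB
  have h5 := h1 F M V hV a D l p t hS (τ - k • z)
    (Submodule.sub_mem _ hτ (Submodule.smul_mem _ k hz)) κ hκ (by
      rw [map_sub, map_smul, hdz, smul_zero, sub_zero, hdτ]) hdκ
  apply h5
  have h6 : τ - k • z + κ = τ + κ - k • z := by abel
  rw [h6]
  exact hk

end Ver

end TightRP
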