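import Pool.Agent.Lib.MP_7cdc3e_gt.A.Spec

/-!
# Theorem A, S3: loops through a definite point from one side to the other
-/

open HoloConj Pool.Agent.Lib.SingHom

namespace TightRP

namespace Ver

open Set Metric

private theorem odd_mono {F : Type} [Field F] {X : Type} [TopologicalSpace X] {S T : Set X}
    (h : S ⊆ T) {n : ℕ} {c : SC F X n} (hc : c ∈ inU F S n) : c ∈ inU F T n :=
  supp_mono F (fun _ hσ t => h (hσ t)) hc

private theorem odd_line (h4 : JoinStmt) (F : Type) [Field F] {X : Type} [TopologicalSpace X]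
    (g : R3 → X) (hg : Continuous g) (p : R3) (S : Set X) (α β : ℝ) (hαβ : α ≤ β)
    (hS : ∀ r, α ≤ r → r ≤ β → g (r • p) ∈ S) :
    ∃ τ ∈ inU F S 1, sbd F 0 τ = pt F (g (β • p)) - pt F (g (α • p)) := by
  apply h4
  have hI : IsPathConnected (Icc α β) :=
    (convex_Icc α β).isPathConnected ⟨α, left_mem_Icc.2 hαβ⟩
  have h1 : JoinedIn (Icc α β) α β := hI.joinedIn α (left_mem_Icc.2 hαβ) β (right_mem_Icc.2 hαβ)
  have hc : Continuous fun r : ℝ => g (r • p) := hg.comp (continuous_id.smul continuous_const)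
  have h2 : IsPathConnected ((fun r : ℝ => g (r • p)) '' Icc α β) := hI.image hc
  have h3 := h2.joinedIn _ (mem_image_of_mem _ (left_mem_Icc.2 hαβ)) _
    (mem_image_of_mem _ (right_mem_Icc.2 hαβ))
  refine h3.mono ?_
  rintro _ ⟨r, hr, rfl⟩
  exact hS r hr.1 hr.2

theorem tOdd (h1 : CrossStmt) (h2 : BallStmt) (h3 : SuppStmt) (h4 : JoinStmt) : OddStmt := by
  intro F _ M _ V hV a D l p t hS τ hτ κ hκ hdτ hdκ
  have _ := hV.t2
  have hgc : Continuous D.g := D.emb.continuous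
  have hgi : Function.Injective D.g := D.emb.injective
  have htpos := hS.tpos
  obtain ⟨c, hc, hneg⟩ := hS.neg
  have hp : p ≠ 0 := by
    intro hp
    have h := hS.seg t htpos.ne' (by rw [abs_of_pos htpos])
    rw [hp, smul_zero, D.g0, hS.za] at h
    exact lt_irrefl _ h
  have hpn : 0 < ‖p‖ := norm_pos_iff.2 hp
  have hpp : 0 < ∑ i, p i * p i := by
    obtain ⟨i, hi⟩ := Function.ne_iff.1 hp
    have hi' : p i ≠ 0 := hi
    exact Finset.sum_pos' (fun j _ => mul_self_nonneg _) ⟨i, Finset.mem_univ _,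
      mul_self_pos.2 hi'⟩
  -- the compact carrier
  obtain ⟨C, hCc, hCA, hτC⟩ := h3 F M {x | 0 < l.1 x} 1 τ hτ
  have haC : a ∉ C := fun h => by
    have h' : 0 < l.1 a := hCA h
    rw [hS.za] at h'
    exact lt_irrefl _ h'
  obtain ⟨ρ₁, hρ₁, hρ₁C⟩ : ∃ ρ₁ > 0, closedBall (0 : R3) ρ₁ ⊆ D.g ⁻¹' Cᶜ := by
    have h : D.g ⁻¹' Cᶜ ∈ nhds (0 : R3) := by
      apply hgc.continuousAt.preimage_mem_nhds
      apply hCc.isClosed.isOpen_compl.mem_nhds
      rw [D.g0]
      exact haC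
    exact Metric.nhds_basis_closedBall.mem_iff.1 h
  -- the expansion
  obtain ⟨ρ₂, hρ₂, hexp⟩ : ∃ ρ₂ > 0, ∀ y ∈ closedBall (0 : R3) ρ₂,
      l.1 (D.g y) ≤ qf (D.q l) y + c / 2 * ‖y‖ ^ 2 := by
    have h := (D.exp l).def (half_pos hc)
    obtain ⟨ρ₂, hρ₂, h'⟩ := Metric.nhds_basis_closedBall.mem_iff.1 h
    refine ⟨ρ₂, hρ₂, fun y hy => ?_⟩
    have h3 := h' hy
    simp only [mem_ofPred_eq, hS.za, hS.zd, Pi.zero_apply, zero_mul, Finset.sum_const_zero,
      sub_zero] at h3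
    rw [Real.norm_eq_abs, Real.norm_eq_abs, abs_of_nonneg (sq_nonneg ‖y‖)] at h3
    have h4 := (abs_le.1 h3).2
    linarith
  obtain ⟨ρ, hρ, hρ1, hρ2, hρt⟩ : ∃ ρ > 0, ρ ≤ ρ₁ ∧ ρ ≤ ρ₂ ∧ ρ < t * ‖p‖ := by
    have htp : 0 < t * ‖p‖ := mul_pos htpos hpn
    exact ⟨min (min ρ₁ ρ₂) (t * ‖p‖ / 2), lt_min (lt_min hρ₁ hρ₂) (half_pos htp),
      (min_le_left _ _).trans (min_le_left _ _), (min_le_left _ _).trans (min_le_right _ _),
      (min_le_right _ _).trans_lt (half_lt_self htp)⟩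
  set δ : ℝ := c * ρ ^ 2 / 16 with hδdef
  have hδ : 0 < δ := by positivity
  set s : ℝ := 3 * ρ / (4 * ‖p‖) with hsdef
  have hs : 0 < s := by positivity
  have hsp : s * ‖p‖ = 3 * ρ / 4 := by
    rw [hsdef]
    field_simp
  have hst : s ≤ t := by
    by_contra hlt
    push Not at hlt
    have := mul_lt_mul_of_pos_right hlt hpn
    rw [hsp] at this
    linarith
  -- the open sets
  let A' : Set M := {x | 0 < l.1 x + δ}
  have hlc : Continuous l.1 := hV.cont l.1 l.2
  have hA'o : IsOpen A' := isOpen_lt continuous_const (hlc.add continuous_const)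
  let P : Set M := A' ∩ D.g '' ball 0 ρ
  let R : Set M := A' ∩ (D.g '' closedBall 0 (ρ / 2))ᶜ
  let W₁ : Set M := D.g '' {y | 0 < ∑ i, p i * y i}
  let W₂ : Set M := D.g '' {y | ∑ i, p i * y i < 0}
  have hlin : Continuous fun y : R3 => ∑ i, p i * y i := by fun_prop
  have hPo : IsOpen P := hA'o.inter (D.emb.isOpenMap _ isOpen_ball)
  have hRo : IsOpen R := hA'o.inter
    ((isCompact_closedBall (0 : R3) (ρ / 2)).image hgc).isClosed.isOpen_compl
  have hW₁o : IsOpen W₁ := D.emb.isOpenMap _ (isOpen_lt continuous_const hlin)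
  have hW₂o : IsOpen W₂ := D.emb.isOpenMap _ (isOpen_lt hlin continuous_const)
  have hdisj : Disjoint W₁ W₂ := by
    rw [Set.disjoint_left]
    rintro _ ⟨y, hy, rfl⟩ ⟨y', hy', h⟩
    rw [hgi h] at hy'
    have h5 : 0 < ∑ i, p i * y i := hy
    have h6 : ∑ i, p i * y i < 0 := hy'
    exact lt_asymm h5 h6
  have hcover : P ∩ R ⊆ W₁ ∪ W₂ := by
    rintro _ ⟨⟨hx, y, hy, rfl⟩, -, hx2⟩
    have hy1 : ρ / 2 < ‖y‖ := by
      by_contra hle
      push Not at hle
      exact hx2 ⟨y, mem_closedBall_zero_iff.2 hle, rfl⟩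
    have hy2 : ‖y‖ < ρ := mem_ball_zero_iff.1 hy
    rcases lt_trichotomy (∑ i, p i * y i) 0 with h | h | h
    · exact Or.inr ⟨y, h, rfl⟩
    · exfalso
      have h5 := hexp y (mem_closedBall_zero_iff.2 (hy2.le.trans hρ2))
      have h6 := hneg y h
      have h7 : 0 < l.1 (D.g y) + δ := hx
      have h8 : (ρ / 2) ^ 2 < ‖y‖ ^ 2 := by
        apply pow_lt_pow_left₀ hy1 (by positivity) (by norm_num)
      have h9 : c * (ρ / 2) ^ 2 < c * ‖y‖ ^ 2 := mul_lt_mul_of_pos_left h8 hc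
      rw [hδdef] at h7
      nlinarith
    · exact Or.inl ⟨y, h, rfl⟩
  have hPR : P ∪ R = {x | 0 < (fun x => l.1 x + δ) x} := by
    ext x
    constructor
    · rintro (h | h)
      · exact h.1
      · exact h.1
    · intro h
      by_cases hx : x ∈ D.g '' closedBall 0 (ρ / 2)
      · obtain ⟨y, hy, rfl⟩ := hx
        refine Or.inl ⟨h, y, ?_, rfl⟩
        rw [mem_closedBall_zero_iff] at hy
        rw [mem_ball_zero_iff]
        linarith
      · exact Or.inr ⟨h, hx⟩
  have hinj : HInj F (P ∪ R) 1 := by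
    rw [hPR]
    apply hV.inj _ _ 1 le_rfl
    exact V.add_mem l.2 (hV.const δ)
  have hx₁ : D.g (s • p) ∈ W₁ := by
    refine ⟨s • p, ?_, rfl⟩
    show 0 < ∑ i, p i * (s • p) i
    have : ∑ i, p i * (s • p) i = s * ∑ i, p i * p i := by
      rw [Finset.mul_sum]
      apply Finset.sum_congr rfl
      intro i _
      simp only [Pi.smul_apply, smul_eq_mul]
      ring
    rw [this]
    positivity
  have hx₂ : D.g ((-s) • p) ∈ W₂ := by
    refine ⟨(-s) • p, ?_, rfl⟩
    show ∑ i, p i * ((-s) • p) i < 0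
    have : ∑ i, p i * ((-s) • p) i = -(s * ∑ i, p i * p i) := by
      rw [Finset.mul_sum, ← Finset.sum_neg_distrib]
      apply Finset.sum_congr rfl
      intro i _
      simp only [Pi.smul_apply, smul_eq_mul]
      ring
    rw [this]
    have : 0 < s * ∑ i, p i * p i := by positivity
    linarith
  -- points on the segment
  have hnr : ∀ r : ℝ, ‖r • p‖ = |r| * ‖p‖ := fun r => by rw [norm_smul, Real.norm_eq_abs]
  have hsegR : ∀ r : ℝ, s ≤ |r| → |r| ≤ t → D.g (r • p) ∈ R ∩ range D.g := by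
    intro r h5 h6
    have hr0 : r ≠ 0 := by
      intro h
      rw [h, abs_zero] at h5
      linarith
    refine ⟨⟨?_, ?_⟩, mem_range_self _⟩
    · show 0 < l.1 (D.g (r • p)) + δ
      have := hS.seg r hr0 h6
      linarith
    · rintro ⟨y, hy, h⟩
      rw [hgi h, mem_closedBall_zero_iff, hnr] at hy
      have := mul_le_mul_of_nonneg_right h5 hpn.le
      rw [hsp] at this
      linarith
  have hsegP : ∀ r : ℝ, -s ≤ r → r ≤ s → D.g (r • p) ∈ P := by
    intro r h5 h6
    have habs : |r| ≤ s := abs_le.2 ⟨h5, h6⟩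
    refine ⟨?_, r • p, ?_, rfl⟩
    · show 0 < l.1 (D.g (r • p)) + δ
      by_cases hr0 : r = 0
      · rw [hr0, zero_smul, D.g0, hS.za]
        linarith
      · have := hS.seg r hr0 (habs.trans hst)
        linarith
    · rw [mem_ball_zero_iff, hnr]
      have := mul_le_mul_of_nonneg_right habs hpn.le
      rw [hsp] at this
      linarith
  obtain ⟨σ, hσ, hdσ⟩ := odd_line h4 F D.g hgc p P (-s) s (by linarith) hsegP
  obtain ⟨e₁, he₁, hd₁⟩ := odd_line h4 F D.g hgc p (R ∩ range D.g) s t hst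
    (fun r h5 h6 => hsegR r (h5.trans (le_abs_self r)) (by
      rw [abs_of_nonneg (hs.le.trans h5)]
      exact h6))
  obtain ⟨e₂, he₂, hd₂⟩ := odd_line h4 F D.g hgc p (R ∩ range D.g) (-t) (-s) (by linarith)
    (fun r h5 h6 => hsegR r (by
      rw [abs_of_nonpos (by linarith)]
      linarith) (by
      rw [abs_of_nonpos (by linarith)]
      linarith))
  have hτR : τ ∈ inU F R 1 := by
    refine odd_mono ?_ hτC
    intro x hx
    refine ⟨?_, ?_⟩
    · show 0 < l.1 x + δ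
      have : 0 < l.1 x := hCA hx
      linarith
    · rintro ⟨y, hy, rfl⟩
      exact hρ₁C (closedBall_subset_closedBall (by linarith) hy) hx
  rw [← neg_smul] at hdτ hdκ
  have hmain := h1 F M P R W₁ W₂ hPo hRo hW₁o hW₂o hdisj hcover hinj (D.g (s • p))
    (D.g ((-s) • p)) hx₁ hx₂ σ hσ (e₁ + τ + e₂)
    (Submodule.add_mem _ (Submodule.add_mem _ (odd_mono inter_subset_left he₁) hτR)
      (odd_mono inter_subset_left he₂)) hdσ (by
      rw [map_add, map_add, hd₁, hdτ, hd₂]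
      abel)
  intro hB
  apply hmain
  have hcyc : IsBdry F 1 (κ - (e₂ + σ + e₁)) := by
    apply h2 F M D.g D.emb
    · apply Submodule.sub_mem _ hκ
      refine Submodule.add_mem _ (Submodule.add_mem _ (odd_mono inter_subset_right he₂) ?_)
        (odd_mono inter_subset_right he₁)
      refine odd_mono ?_ hσ
      rintro _ ⟨-, y, -, rfl⟩
      exact mem_range_self y
    · rw [map_sub, map_add, map_add, hdκ, hd₂, hdσ, hd₁]
      abel
  have h5 := hB.add hcyc.neg
  have h6 : τ + κ + -(κ - (e₂ + σ + e₁)) = σ + (e₁ + τ + e₂) := by abel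
  rwa [h6] at h5

end Ver

end TightRP
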