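import Pool.Agent.Lib.MP_7cdc3e_gt.A.Spec

/-!
# MP_7cdc3e_gt, Theorem A: the matrix of the ten functions has rank one everywhere
-/

open HoloConj Pool.Agent.Lib.SingHom

namespace TightRP

namespace Ver

private theorem one_zero_mul {M : Type} {V : Submodule ℝ (M → ℝ)} {e : Fin 4 → Fin 4 → M → ℝ}
    (hQ : Quad V e) (x : M) (i j : Fin 4) : e i j x * e 0 0 x = e 0 i x * e 0 j x := by
  have key : ∀ m : Fin 4, (0 : Fin 4) ≠ m → i ≠ m → j ≠ m →
      (∃ u : Fin 4 → ℝ, ∀ i j, i ≠ m → j ≠ m → e i j x = u i * u j) →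
      e i j x * e 0 0 x = e 0 i x * e 0 j x := by
    rintro m h0 hi hj ⟨u, hu⟩
    rw [hu i j hi hj, hu 0 0 h0 h0, hu 0 i h0 hi, hu 0 j h0 hj]
    ring
  have hc : ∀ i j : Fin 4, (i ≠ 3 ∧ j ≠ 3) ∨ (i ≠ 2 ∧ j ≠ 2) ∨ (i ≠ 1 ∧ j ≠ 1) := by decide
  rcases hc i j with ⟨hi, hj⟩ | ⟨hi, hj⟩ | ⟨hi, hj⟩
  · exact key 3 (by decide) hi hj (hQ.r3 x)
  · exact key 2 (by decide) hi hj (hQ.r2 x)
  · exact key 1 (by decide) hi hj (hQ.r1 x)

private theorem one_diag {M : Type} {V : Submodule ℝ (M → ℝ)} {e : Fin 4 → Fin 4 → M → ℝ}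
    (hQ : Quad V e) (x : M) (i : Fin 4) : 0 ≤ e i i x := by
  have hc : ∀ i : Fin 4, i ≠ 3 ∨ i ≠ 2 := by decide
  rcases hc i with hi | hi
  · obtain ⟨u, hu⟩ := hQ.r3 x
    rw [hu i i hi hi]
    exact mul_self_nonneg _
  · obtain ⟨u, hu⟩ := hQ.r2 x
    rw [hu i i hi hi]
    exact mul_self_nonneg _

theorem tOne (h1 : DomStmt) : OneStmt := by
  intro F _ M _ V hV e hQ
  have hD : Dense {x | e 0 0 x ≠ 0} := h1 F M V hV e hQ
  have hcont : ∀ i j, Continuous (e i j) := fun i j => hV.cont _ (hQ.mem i j)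
  have hrel : ∀ (i j k l : Fin 4) (x : M), e i j x * e k l x = e i l x * e k j x := by
    intro i j k l
    have hcl : IsClosed {x | e i j x * e k l x = e i l x * e k j x} :=
      isClosed_eq ((hcont i j).mul (hcont k l)) ((hcont i l).mul (hcont k j))
    have hsub : {x | e 0 0 x ≠ 0} ⊆ {x | e i j x * e k l x = e i l x * e k j x} := by
      intro x hx
      have hx' : e 0 0 x ≠ 0 := hx
      have e1 := one_zero_mul hQ x i j
      have e2 := one_zero_mul hQ x k l
      have e3 := one_zero_mul hQ x i l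
      have e4 := one_zero_mul hQ x k j
      have h : (e i j x * e k l x) * (e 0 0 x * e 0 0 x) =
          (e i l x * e k j x) * (e 0 0 x * e 0 0 x) := by
        calc (e i j x * e k l x) * (e 0 0 x * e 0 0 x)
            = (e i j x * e 0 0 x) * (e k l x * e 0 0 x) := by ring
          _ = (e 0 i x * e 0 j x) * (e 0 k x * e 0 l x) := by rw [e1, e2]
          _ = (e 0 i x * e 0 l x) * (e 0 k x * e 0 j x) := by ring
          _ = (e i l x * e 0 0 x) * (e k j x * e 0 0 x) := by rw [e3, e4]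
          _ = _ := by ring
      exact mul_right_cancel₀ (mul_ne_zero hx' hx') h
    intro x
    have hx : x ∈ closure {x | e 0 0 x ≠ 0} := hD x
    exact (closure_minimal hsub hcl) hx
  intro x
  have hex : ∃ m, e m m x ≠ 0 := by
    by_contra hno
    push Not at hno
    have h0 : ∀ i j, e i j x = 0 := by
      intro i j
      have h := hrel i j j i x
      rw [hQ.symm j i, hno i, zero_mul] at h
      exact mul_self_eq_zero.1 h
    obtain ⟨k, _, hk⟩ := hQ.span _ (hV.const 1)
    have h1 := congrFun hk x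
    simp only [Finset.sum_apply, Pi.smul_apply, h0, smul_zero, Finset.sum_const_zero] at h1
    exact one_ne_zero h1
  obtain ⟨m, hm⟩ := hex
  have hpos : 0 < e m m x := lt_of_le_of_ne (one_diag hQ x m) (Ne.symm hm)
  have hs : Real.sqrt (e m m x) ≠ 0 := (Real.sqrt_pos.2 hpos).ne'
  refine ⟨fun i => e m i x / Real.sqrt (e m m x), ?_, ?_⟩
  · intro h
    have h2 := congrFun h m
    simp only [Pi.zero_apply, div_eq_zero_iff] at h2
    rcases h2 with h2 | h2
    · exact hm h2
    · exact hs h2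
  · intro i j
    rw [div_mul_div_comm, Real.mul_self_sqrt hpos.le, eq_div_iff hm]
    have h := hrel i j m m x
    rw [h, hQ.symm i m]

end Ver

end TightRP
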