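import Pool.Agent.Lib.MP_7cdc3e_gt.A.Spec

/-!
# MP_7cdc3e_gt, Theorem A, step (4): two definite points
-/

open HoloConj Pool.Agent.Lib.SingHom

namespace TightRP

namespace Ver

open Matrix

private theorem pair_qf {n : ℕ} (Q : Matrix (Fin n) (Fin n) ℝ) (y : Fin n → ℝ) :
    qf Q y = y ⬝ᵥ (Q *ᵥ y) := by
  simp only [qf, dotProduct, mulVec, Finset.mul_sum]
  refine Finset.sum_congr rfl fun i _ => Finset.sum_congr rfl fun j _ => ?_
  ring

private theorem pair_qf_conj {n m : ℕ} (P : Matrix (Fin n) (Fin m) ℝ)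
    (Q : Matrix (Fin m) (Fin m) ℝ) (y : Fin n → ℝ) :
    qf (P * Q * Pᵀ) y = qf Q (y ᵥ* P) := by
  rw [pair_qf, pair_qf, Matrix.mul_assoc, ← mulVec_mulVec, dotProduct_mulVec, ← mulVec_mulVec,
    mulVec_transpose]

private theorem pair_symm_conj {n m : ℕ} (P : Matrix (Fin n) (Fin m) ℝ)
    (Q : Matrix (Fin m) (Fin m) ℝ) (h : Q.IsSymm) : (P * Q * Pᵀ).IsSymm := by
  unfold Matrix.IsSymm at h ⊢
  rw [transpose_mul, transpose_mul, transpose_transpose, h, Matrix.mul_assoc]

private theorem pair_psd_conj {n m : ℕ} (P : Matrix (Fin n) (Fin m) ℝ)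
    (Q : Matrix (Fin m) (Fin m) ℝ) (h : PSD Q) : PSD (P * Q * Pᵀ) :=
  ⟨pair_symm_conj P Q h.1, fun y => by rw [pair_qf_conj]; exact h.2 _⟩

/-- a null vector of a positive semidefinite form is in the kernel -/
private theorem pair_null {n : ℕ} (Q : Matrix (Fin n) (Fin n) ℝ) (h : PSD Q) (u : Fin n → ℝ)
    (hu : qf Q u = 0) : Q *ᵥ u = 0 := by
  have key : ∀ y : Fin n → ℝ, y ⬝ᵥ (Q *ᵥ u) = 0 := by
    intro y
    have hs : u ⬝ᵥ (Q *ᵥ y) = y ⬝ᵥ (Q *ᵥ u) := by
      rw [dotProduct_mulVec, ← mulVec_transpose, h.1, dotProduct_comm]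
    have hq : ∀ t : ℝ, 0 ≤ 2 * t * (y ⬝ᵥ (Q *ᵥ u)) + t ^ 2 * qf Q y := by
      intro t
      have h1 := h.2 (u + t • y)
      rw [pair_qf, mulVec_add, mulVec_smul, add_dotProduct, dotProduct_add, dotProduct_add,
        smul_dotProduct, smul_dotProduct, dotProduct_smul, dotProduct_smul, hs, ← pair_qf,
        ← pair_qf, hu] at h1
      simp only [smul_eq_mul] at h1
      nlinarith
    set α := y ⬝ᵥ (Q *ᵥ u)
    set β := qf Q y with hβ
    have hβ0 : 0 ≤ β := h.2 y
    by_contra hne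
    have h2 := hq (-(α / (β + 1)))
    have hb : 0 < β + 1 := by linarith
    have e : 2 * (-(α / (β + 1))) * α + (-(α / (β + 1))) ^ 2 * β
        = -(α ^ 2 * (β + 2)) / (β + 1) ^ 2 := by
      field_simp
      ring
    rw [e] at h2
    have h3 : 0 < α ^ 2 * (β + 2) / (β + 1) ^ 2 := by
      have : 0 < α ^ 2 := by positivity
      positivity
    have h4 : -(α ^ 2 * (β + 2)) / (β + 1) ^ 2 = -(α ^ 2 * (β + 2) / (β + 1) ^ 2) := by ring
    rw [h4] at h2
    linarith
  funext i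
  have := key (Pi.single i 1)
  simpa using this

/-- the symmetric matrix of a product of two vectors -/
private def pairSy {n : ℕ} (x y : Fin n → ℝ) : Matrix (Fin n) (Fin n) ℝ :=
  vecMulVec x y + vecMulVec y x

private theorem pair_sy_symm {n : ℕ} (x y : Fin n → ℝ) : (pairSy x y).IsSymm := by
  unfold Matrix.IsSymm pairSy
  rw [transpose_add, transpose_vecMulVec, transpose_vecMulVec, add_comm]

private theorem pair_sy_conj {n m : ℕ} (P : Matrix (Fin n) (Fin m) ℝ) (x y : Fin m → ℝ) :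
    P * pairSy x y * Pᵀ = pairSy (P *ᵥ x) (P *ᵥ y) := by
  unfold pairSy
  rw [Matrix.mul_add, Matrix.add_mul, mul_vecMulVec, mul_vecMulVec, vecMulVec_mul, vecMulVec_mul,
    vecMul_transpose, vecMul_transpose]

/-- the evaluation of a matrix -/
private noncomputable def pairEv {M : Type} (S : R3 →ₗ[ℝ] R3 →ₗ[ℝ] (M → ℝ))
    (c : Matrix (Fin 3) (Fin 3) ℝ) : M → ℝ :=
  ∑ i, ∑ j, c i j • S (Pi.single i 1) (Pi.single j 1)

private theorem pair_ev_add {M : Type} (S : R3 →ₗ[ℝ] R3 →ₗ[ℝ] (M → ℝ))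
    (c d : Matrix (Fin 3) (Fin 3) ℝ) : pairEv S (c + d) = pairEv S c + pairEv S d := by
  simp only [pairEv, Matrix.add_apply, add_smul, Finset.sum_add_distrib]

private theorem pair_ev_smul {M : Type} (S : R3 →ₗ[ℝ] R3 →ₗ[ℝ] (M → ℝ)) (t : ℝ)
    (c : Matrix (Fin 3) (Fin 3) ℝ) : pairEv S (t • c) = t • pairEv S c := by
  simp only [pairEv, Matrix.smul_apply, smul_assoc, Finset.smul_sum]

private theorem pair_ev_sub {M : Type} (S : R3 →ₗ[ℝ] R3 →ₗ[ℝ] (M → ℝ))
    (c d : Matrix (Fin 3) (Fin 3) ℝ) : pairEv S (c - d) = pairEv S c - pairEv S d := by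
  simp only [pairEv, Matrix.sub_apply, sub_smul, Finset.sum_sub_distrib]

private theorem pair_vec (x : R3) : x = ∑ i, x i • (Pi.single i 1 : R3) := by
  funext j
  simp [Finset.sum_apply, Pi.single_apply]

private theorem pair_ev_sy {M : Type} (S : R3 →ₗ[ℝ] R3 →ₗ[ℝ] (M → ℝ))
    (hS : ∀ p r, S p r = S r p) (x y : R3) : pairEv S (pairSy x y) = (2 : ℝ) • S x y := by
  have h : ∀ x y : R3, S x y = ∑ i, ∑ j, (x i * y j) • S (Pi.single i 1) (Pi.single j 1) := by
    intro x y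
    conv_lhs => rw [pair_vec x, pair_vec y]
    simp only [map_sum, map_smul, LinearMap.sum_apply, LinearMap.smul_apply, Finset.smul_sum,
      smul_smul]
    rw [Finset.sum_comm]
    refine Finset.sum_congr rfl fun i _ => Finset.sum_congr rfl fun j _ => ?_
    rw [mul_comm]
  have e : pairEv S (pairSy x y) = S x y + S y x := by
    rw [h x y, h y x]
    simp only [pairEv, pairSy, Matrix.add_apply, vecMulVec_apply, add_smul,
      Finset.sum_add_distrib]
  rw [e, hS y x, two_smul]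

private theorem pair_ev_apply {M : Type} (S : R3 →ₗ[ℝ] R3 →ₗ[ℝ] (M → ℝ)) (x : M)
    (u : R3 →ₗ[ℝ] ℝ) (hu : ∀ p r, S p r x = u p * u r) (c : Matrix (Fin 3) (Fin 3) ℝ) :
    pairEv S c x = qf c (fun i => u (Pi.single i 1)) := by
  simp only [pairEv, qf, Finset.sum_apply, Pi.smul_apply, hu, smul_eq_mul]

/-- a parametrization of the kernel of a linear form -/
private theorem pair_ker (u : Fin 3 → ℝ) (hu : u ≠ 0) :
    ∃ (P : Matrix (Fin 3) (Fin 2) ℝ) (L : Matrix (Fin 2) (Fin 3) ℝ), L * P = 1 ∧ u ᵥ* P = 0 ∧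
      ∀ v, u ⬝ᵥ v = 0 → P *ᵥ (L *ᵥ v) = v := by
  obtain ⟨i, hi⟩ : ∃ i, u i ≠ 0 := by
    by_contra h
    push Not at h
    exact hu (funext h)
  fin_cases i
  · simp only [Fin.zero_eta, Fin.isValue] at hi
    refine ⟨!![-u 1 / u 0, -u 2 / u 0; 1, 0; 0, 1], !![0, 1, 0; 0, 0, 1], ?_, ?_, ?_⟩
    · ext i j
      fin_cases i <;> fin_cases j <;> simp [Matrix.mul_apply, Fin.sum_univ_three]
    · ext j
      fin_cases j <;> simp [vecMul, dotProduct, Fin.sum_univ_three] <;> field_simp <;> ring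
    · intro v hv
      simp only [dotProduct, Fin.sum_univ_three] at hv
      ext i
      fin_cases i
      · simp [mulVec, dotProduct, Fin.sum_univ_three, Fin.sum_univ_two]
        field_simp
        linarith
      · simp [mulVec, dotProduct, Fin.sum_univ_three, Fin.sum_univ_two]
      · simp [mulVec, dotProduct, Fin.sum_univ_three, Fin.sum_univ_two]
  · simp only [Fin.mk_one, Fin.isValue] at hi
    refine ⟨!![1, 0; -u 0 / u 1, -u 2 / u 1; 0, 1], !![1, 0, 0; 0, 0, 1], ?_, ?_, ?_⟩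
    · ext i j
      fin_cases i <;> fin_cases j <;> simp [Matrix.mul_apply, Fin.sum_univ_three]
    · ext j
      fin_cases j <;> simp [vecMul, dotProduct, Fin.sum_univ_three] <;> field_simp <;> ring
    · intro v hv
      simp only [dotProduct, Fin.sum_univ_three] at hv
      ext i
      fin_cases i
      · simp [mulVec, dotProduct, Fin.sum_univ_three, Fin.sum_univ_two]
      · simp [mulVec, dotProduct, Fin.sum_univ_three, Fin.sum_univ_two]
        field_simp
        linarith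
      · simp [mulVec, dotProduct, Fin.sum_univ_three, Fin.sum_univ_two]
  · simp only [Fin.reduceFinMk, Fin.isValue] at hi
    refine ⟨!![1, 0; 0, 1; -u 0 / u 2, -u 1 / u 2], !![1, 0, 0; 0, 1, 0], ?_, ?_, ?_⟩
    · ext i j
      fin_cases i <;> fin_cases j <;> simp [Matrix.mul_apply, Fin.sum_univ_three]
    · ext j
      fin_cases j <;> simp [vecMul, dotProduct, Fin.sum_univ_three] <;> field_simp <;> ring
    · intro v hv
      simp only [dotProduct, Fin.sum_univ_three] at hv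
      ext i
      fin_cases i
      · simp [mulVec, dotProduct, Fin.sum_univ_three, Fin.sum_univ_two]
      · simp [mulVec, dotProduct, Fin.sum_univ_three, Fin.sum_univ_two]
      · simp [mulVec, dotProduct, Fin.sum_univ_three, Fin.sum_univ_two]
        field_simp
        linarith

/-- a positive semidefinite form with the null vector `u` comes from the kernel of `u` -/
private theorem pair_desc (u : Fin 3 → ℝ) (P : Matrix (Fin 3) (Fin 2) ℝ)
    (L : Matrix (Fin 2) (Fin 3) ℝ) (hk : ∀ v, u ⬝ᵥ v = 0 → P *ᵥ (L *ᵥ v) = v)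
    (c : Matrix (Fin 3) (Fin 3) ℝ) (hc : PSD c) (h0 : qf c u = 0) :
    ∃ d : Matrix (Fin 2) (Fin 2) ℝ, PSD d ∧ c = P * d * Pᵀ := by
  have hcu := pair_null c hc u h0
  have h1 : P * L * c = c := by
    ext i j
    have hv : u ⬝ᵥ (fun k => c k j) = 0 := by
      have := congrFun hcu j
      simp only [mulVec, Pi.zero_apply] at this
      rw [dotProduct_comm]
      rw [← this]
      congr 1
      funext k
      have hs := congrFun (congrFun hc.1 k) j
      simpa [Matrix.transpose_apply] using hs.symm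
    have h2 := congrFun (hk _ hv) i
    rw [mulVec_mulVec] at h2
    rw [Matrix.mul_apply]
    simpa [mulVec, dotProduct] using h2
  refine ⟨L * c * Lᵀ, pair_psd_conj L c hc, ?_⟩
  have h2 : c * Lᵀ * Pᵀ = c := by
    have := congrArg Matrix.transpose h1
    rw [transpose_mul, transpose_mul, hc.1, ← Matrix.mul_assoc] at this
    exact this
  calc c = P * L * c := h1.symm
    _ = P * L * (c * Lᵀ * Pᵀ) := by rw [h2]
    _ = P * (L * c * Lᵀ) * Pᵀ := by simp only [Matrix.mul_assoc]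

/-- transport of positive semidefinite forms from `a` to `b` -/
private theorem pair_trans {M : Type} [TopologicalSpace M] {V : Submodule ℝ (M → ℝ)} {a b : M}
    (A : R1Pt V a) (B : R1Pt V b) (u u' : R3 →ₗ[ℝ] ℝ)
    (hu : ∀ p r, A.S p r b = u p * u r) (hu' : ∀ p r, B.S p r a = u' p * u' r)
    (P R : Matrix (Fin 3) (Fin 2) ℝ) (L' : Matrix (Fin 2) (Fin 3) ℝ)
    (hP : (fun i => u (Pi.single i 1)) ᵥ* P = 0)
    (hk : ∀ v, (fun i => u' (Pi.single i 1)) ⬝ᵥ v = 0 → R *ᵥ (L' *ᵥ v) = v)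
    (c : Matrix (Fin 2) (Fin 2) ℝ) (hc : PSD c) :
    ∃ d : Matrix (Fin 2) (Fin 2) ℝ, PSD d ∧ pairEv A.S (P * c * Pᵀ) = pairEv B.S (R * d * Rᵀ) := by
  have hPc := pair_psd_conj P c hc
  obtain ⟨c', hc', he⟩ := B.nonneg (pairEv A.S (P * c * Pᵀ))
    (by
      unfold pairEv
      exact Submodule.sum_mem _ fun i _ => Submodule.sum_mem _ fun j _ =>
        V.smul_mem _ (A.mem _ _))
    (by
      rw [pair_ev_apply A.S b u hu, pair_qf_conj, hP]
      simp [qf])
    (by
      intro x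
      obtain ⟨w, hw⟩ := A.rk x
      rw [pair_ev_apply A.S x w hw]
      exact hPc.2 _)
  have h0 : qf c' (fun i => u' (Pi.single i 1)) = 0 := by
    rw [← pair_ev_apply B.S a u' hu']
    have : pairEv B.S c' = pairEv A.S (P * c * Pᵀ) := he.symm
    rw [this]
    simp [pairEv, A.ata]
  obtain ⟨d, hd, hdc⟩ := pair_desc _ R L' hk c' hc' h0
  refine ⟨d, hd, ?_⟩
  rw [he, hdc]
  rfl

private theorem pair_inj {M : Type} [TopologicalSpace M] {V : Submodule ℝ (M → ℝ)} {a : M}
    (A : R1Pt V a) (P : Matrix (Fin 3) (Fin 2) ℝ) (L : Matrix (Fin 2) (Fin 3) ℝ) (h : L * P = 1)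
    (c d : Matrix (Fin 2) (Fin 2) ℝ) (hc : c.IsSymm) (hd : d.IsSymm)
    (he : pairEv A.S (P * c * Pᵀ) = pairEv A.S (P * d * Pᵀ)) : c = d := by
  have h0 : P * c * Pᵀ - P * d * Pᵀ = 0 := by
    apply A.indep
    · exact (pair_symm_conj P c hc).sub (pair_symm_conj P d hd)
    · have := pair_ev_sub A.S (P * c * Pᵀ) (P * d * Pᵀ)
      rw [he, sub_self] at this
      exact this
  have h1 : P * c * Pᵀ = P * d * Pᵀ := sub_eq_zero.mp h0
  have hT : Pᵀ * Lᵀ = 1 := by rw [← transpose_mul, h, transpose_one]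
  have h2 : ∀ c : Matrix (Fin 2) (Fin 2) ℝ, L * (P * c * Pᵀ) * Lᵀ = c := by
    intro c
    calc L * (P * c * Pᵀ) * Lᵀ = (L * P) * c * (Pᵀ * Lᵀ) := by simp only [Matrix.mul_assoc]
      _ = c := by rw [h, hT, Matrix.one_mul, Matrix.mul_one]
  rw [← h2 c, h1, h2 d]

/-- L2, step (4) -/
theorem tPair (h1 : CongStmt) : PairStmt := by
  intro M _ V a b A B hab
  obtain ⟨u, hu⟩ := A.rk b
  obtain ⟨u', hu'⟩ := B.rk a
  have hne : ∀ (w : R3 →ₗ[ℝ] ℝ), w ≠ 0 → (fun i => w (Pi.single i 1)) ≠ (0 : Fin 3 → ℝ) := by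
    intro w hw h
    apply hw
    ext i
    exact congrFun h i
  have hun : u ≠ 0 := by
    rintro rfl
    obtain ⟨p, hp⟩ := A.sep b hab.symm
    exact hp (by rw [hu]; simp)
  have hun' : u' ≠ 0 := by
    rintro rfl
    obtain ⟨p, hp⟩ := B.sep a hab
    exact hp (by rw [hu']; simp)
  obtain ⟨P, L, hLP, hP, hkP⟩ := pair_ker _ (hne u hun)
  obtain ⟨R, L', hLR, hR, hkR⟩ := pair_ker _ (hne u' hun')
  have hAS : ∀ p r, A.S p r = A.S r p := by
    intro p r
    funext x
    obtain ⟨w, hw⟩ := A.rk x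
    rw [hw, hw, mul_comm]
  have hBS : ∀ p r, B.S p r = B.S r p := by
    intro p r
    funext x
    obtain ⟨w, hw⟩ := B.rk x
    rw [hw, hw, mul_comm]
  have hdot : ∀ (w : R3 →ₗ[ℝ] ℝ) (v : R3), (fun i => w (Pi.single i 1)) ⬝ᵥ v = w v := by
    intro w v
    conv_rhs => rw [pair_vec v]
    simp only [map_sum, map_smul, dotProduct, smul_eq_mul]
    exact Finset.sum_congr rfl fun i _ => mul_comm _ _
  -- the transport in both directions
  have tAB := pair_trans A B u u' hu hu' P R L' hP hkR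
  have tBA := pair_trans B A u' u hu' hu R P L hR hkP
  have iA := pair_inj A P L hLP
  have iB := pair_inj B R L' hLR
  -- three positive semidefinite matrices
  obtain ⟨d1, hd1, e1⟩ := tAB !![1, 0; 0, 0] ⟨by
    ext i j; fin_cases i <;> fin_cases j <;> rfl, fun y => by
    simp [qf, Fin.sum_univ_two]; exact mul_self_nonneg _⟩
  obtain ⟨d2, hd2, e2⟩ := tAB !![0, 0; 0, 1] ⟨by
    ext i j; fin_cases i <;> fin_cases j <;> rfl, fun y => by
    simp [qf, Fin.sum_univ_two]; exact mul_self_nonneg _⟩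
  obtain ⟨d3, hd3, e3⟩ := tAB !![1, 1; 1, 1] ⟨by
    ext i j; fin_cases i <;> fin_cases j <;> rfl, fun y => by
    simp [qf, Fin.sum_univ_two]; nlinarith [sq_nonneg (y 0 + y 1)]⟩
  let Φ : Matrix (Fin 2) (Fin 2) ℝ →ₗ[ℝ] Matrix (Fin 2) (Fin 2) ℝ :=
    { toFun := fun c => (c 0 0 - c 0 1) • d1 + (c 1 1 - c 0 1) • d2 + c 0 1 • d3
      map_add' := by
        intro c d
        simp only [Matrix.add_apply]
        module
      map_smul' := by
        intro t c
        simp only [Matrix.smul_apply, smul_eq_mul, RingHom.id_apply]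
        module }
  have hΦ : ∀ c, Φ c = (c 0 0 - c 0 1) • d1 + (c 1 1 - c 0 1) • d2 + c 0 1 • d3 := fun c => rfl
  have hΦs : ∀ c, (Φ c).IsSymm := by
    intro c
    rw [hΦ]
    exact ((hd1.1.smul _).add (hd2.1.smul _)).add (hd3.1.smul _)
  have hΦe : ∀ c : Matrix (Fin 2) (Fin 2) ℝ, c.IsSymm →
      pairEv A.S (P * c * Pᵀ) = pairEv B.S (R * Φ c * Rᵀ) := by
    intro c hc
    have hcs : c 1 0 = c 0 1 := by
      have := congrFun (congrFun hc 0) 1
      simpa [Matrix.transpose_apply] using this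
    have hdec : c = (c 0 0 - c 0 1) • !![1, 0; 0, 0] + (c 1 1 - c 0 1) • !![0, 0; 0, 1]
        + c 0 1 • !![1, 1; 1, 1] := by
      ext i j
      fin_cases i <;> fin_cases j <;> simp [hcs]
    have hl : ∀ (S : R3 →ₗ[ℝ] R3 →ₗ[ℝ] (M → ℝ)) (Q : Matrix (Fin 3) (Fin 2) ℝ)
        (x y z : ℝ) (f g h : Matrix (Fin 2) (Fin 2) ℝ),
        pairEv S (Q * (x • f + y • g + z • h) * Qᵀ) = x • pairEv S (Q * f * Qᵀ)
          + y • pairEv S (Q * g * Qᵀ) + z • pairEv S (Q * h * Qᵀ) := by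
      intro S Q x y z f g h
      rw [Matrix.mul_add, Matrix.mul_add, Matrix.add_mul, Matrix.add_mul, Matrix.mul_smul,
        Matrix.mul_smul, Matrix.mul_smul, Matrix.smul_mul, Matrix.smul_mul, Matrix.smul_mul,
        pair_ev_add, pair_ev_add, pair_ev_smul, pair_ev_smul, pair_ev_smul]
    conv_lhs => rw [hdec]
    rw [hΦ, hl, hl, e1, e2, e3]
  obtain ⟨G, hG⟩ := h1 Φ (fun c _ => hΦs c)
    (by
      intro c hc h0
      apply iA c 0 hc (Matrix.isSymm_zero)
      rw [hΦe c hc, h0]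
      simp [pairEv])
    (by
      intro c hc
      constructor
      · intro h
        obtain ⟨c', hc', he⟩ := tBA (Φ c) h
        have : c = c' := iA c c' hc hc'.1 (by rw [hΦe c hc, he])
        rw [this]
        exact hc'
      · intro h
        obtain ⟨d, hd, he⟩ := tAB c h
        have : Φ c = d := iB _ d (hΦs c) hd.1 (by rw [← he, hΦe c hc])
        rw [this]
        exact hd)
  refine ⟨(R * G * L).mulVecLin, ?_⟩
  intro p r hp hr
  have hup : u p = 0 := by
    rw [hu] at hp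
    exact mul_self_eq_zero.mp hp
  have hur : u r = 0 := by
    rw [hu] at hr
    exact mul_self_eq_zero.mp hr
  have hpp : P *ᵥ (L *ᵥ p) = p := hkP p (by rw [hdot]; exact hup)
  have hrr : P *ᵥ (L *ᵥ r) = r := hkP r (by rw [hdot]; exact hur)
  have key : (2 : ℝ) • A.S p r
      = (2 : ℝ) • B.S ((R * G * L).mulVecLin p) ((R * G * L).mulVecLin r) := by
    rw [← pair_ev_sy A.S hAS, ← pair_ev_sy B.S hBS]
    conv_lhs => rw [← hpp, ← hrr]
    rw [← pair_sy_conj, hΦe _ (pair_sy_symm _ _), hG _ (pair_sy_symm _ _), pair_sy_conj,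
      pair_sy_conj]
    simp only [Matrix.mulVecLin_apply, mulVec_mulVec, Matrix.mul_assoc]
  exact smul_right_injective _ (two_ne_zero' ℝ) key

end Ver

end TightRP
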