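import Pool.Agent.Lib.MP_7cdc3e_gt.A.Spec

/-!
# C5: three definite points in general position
-/

set_option autoImplicit false

open HoloConj Pool.Agent.Lib.SingHom

namespace TightRP

namespace Ver

theorem quadE_expand {M : Type} (S : R3 →ₗ[ℝ] R3 →ₗ[ℝ] (M → ℝ)) (p : R3) :
    ∑ i, ∑ j, (p i * p j) • S (Pi.single i 1) (Pi.single j 1) = S p p := by
  have hp : p = ∑ i, p i • (Pi.single i 1 : R3) := by
    ext k
    simp [Finset.sum_apply, Pi.single_apply]
  have h1 : ∀ q : R3, S p q = ∑ i, p i • S (Pi.single i 1) q := by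
    intro q
    have h2 : S p = ∑ i, p i • S (Pi.single i 1) := by
      conv_lhs => rw [hp]
      rw [map_sum]
      exact Finset.sum_congr rfl fun i _ => map_smul _ _ _
    rw [h2, LinearMap.sum_apply]
    exact Finset.sum_congr rfl fun i _ => LinearMap.smul_apply _ _ _
  rw [h1 p]
  refine Finset.sum_congr rfl fun i _ => ?_
  have h3 : S (Pi.single i 1) p = ∑ j, p j • S (Pi.single i 1) (Pi.single j 1) := by
    conv_lhs => rw [hp]
    rw [map_sum]
    exact Finset.sum_congr rfl fun j _ => map_smul _ _ _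
  rw [h3, Finset.smul_sum]
  exact Finset.sum_congr rfl fun j _ => (smul_smul _ _ _).symm

theorem tQuad (h1 : R1Stmt) (h2 : NbhStmt) (h3 : GloStmt) (h4 : TripStmt) : QuadStmt := by
  intro F _ M _ N f hV hD
  obtain ⟨g, l, hg, hC, h0, hpos⟩ := h3 M N f hD
  have hev := h2 F M N f hV g l hg hC h0 hpos
  obtain ⟨A⟩ := h1 F M _ hV (g 0) hev.self_of_nhds
  -- the point `b`
  have hev' : ∀ᶠ y in nhds (0 : R3), Nonempty (DefPt (aff f) (g y)) :=
    hg.continuous.continuousAt.eventually hev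
  have hnb : (nhdsWithin (0 : R3) {0}ᶜ).NeBot := inferInstance
  obtain ⟨y, hy, hyne⟩ := ((hev'.filter_mono nhdsWithin_le_nhds).and
    (self_mem_nhdsWithin (a := (0 : R3)) (s := {0}ᶜ))).exists
  obtain ⟨B⟩ := h1 F M _ hV (g y) hy
  have hab : g 0 ≠ g y := fun h => hyne (hg.injective h).symm
  obtain ⟨u, hu⟩ := A.rk (g y)
  -- the vector `p`
  have hker : LinearMap.ker u ≠ ⊥ := LinearMap.ker_ne_bot_of_finrank_lt (by simp)
  obtain ⟨p, hpk, hp0⟩ := Submodule.exists_mem_ne_zero_of_ne_bot hker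
  have hup : u p = 0 := hpk
  have hpb : A.S p p (g y) = 0 := by rw [hu, hup, zero_mul]
  have hSp : A.S p p ≠ 0 := by
    intro h
    have hc := A.indep (fun i j => p i * p j) (by
      ext i j
      exact mul_comm _ _) ((quadE_expand A.S p).trans h)
    apply hp0
    funext i
    exact mul_self_eq_zero.1 (congrFun (congrFun hc i) i)
  -- the point `c`
  have hfr : ∃ᶠ x in nhds (g 0), A.S p p x ≠ 0 := by
    intro h
    exact hSp (A.locz _ (A.mem p p) (h.mono fun x hx => not_not.1 hx))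
  obtain ⟨c, hc1, hc2⟩ := (hfr.and_eventually hev).exists
  obtain ⟨C⟩ := h1 F M _ hV c hc2
  have hac : g 0 ≠ c := by
    rintro rfl
    exact hc1 (A.ata p p)
  have hbc : g y ≠ c := by
    rintro rfl
    exact hc1 hpb
  exact h4 M _ (g 0) (g y) c A B C hab hac hbc ⟨p, hpb, hc1⟩

end Ver

end TightRP
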