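import Pool.Agent.Lib.MP_7cdc3e_gt.A.Spec

/-!
# MP_7cdc3e_gt, Theorem A, S6: the structure at a definite point
-/

open HoloConj Pool.Agent.Lib.SingHom Filter Topology

namespace TightRP

namespace Ver

/-! ## quadratic forms -/

private theorem r1_qf_add (P Q : Matrix (Fin 3) (Fin 3) ℝ) (y : R3) :
    qf (P + Q) y = qf P y + qf Q y := by
  simp only [qf, Fin.sum_univ_three, Matrix.add_apply]
  ring

private theorem r1_qf_smul (c : ℝ) (Q : Matrix (Fin 3) (Fin 3) ℝ) (y : R3) :
    qf (c • Q) y = c * qf Q y := by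
  simp only [qf, Fin.sum_univ_three, Matrix.smul_apply, smul_eq_mul]
  ring

private theorem r1_qf_smul_arg (s : ℝ) (Q : Matrix (Fin 3) (Fin 3) ℝ) (y : R3) :
    qf Q (s • y) = s ^ 2 * qf Q y := by
  simp only [qf, Fin.sum_univ_three, Pi.smul_apply, smul_eq_mul]
  ring

private theorem r1_qf_sq (p y : R3) : qf (sq p) y = (∑ i, p i * y i) ^ 2 := by
  simp only [qf, sq, Fin.sum_univ_three]
  ring

private theorem r1_qf_one (y : R3) : qf 1 y = y 0 ^ 2 + y 1 ^ 2 + y 2 ^ 2 := by
  simp [qf, Fin.sum_univ_three, Matrix.one_apply]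
  ring

private theorem r1_qf_one_pos (y : R3) (hy : y ≠ 0) : 0 < qf 1 y := by
  rw [r1_qf_one]
  by_contra h
  push Not at h
  apply hy
  have h0 := sq_nonneg (y 0)
  have h1 := sq_nonneg (y 1)
  have h2 := sq_nonneg (y 2)
  have a0 : y 0 ^ 2 = 0 := by linarith
  have a1 : y 1 ^ 2 = 0 := by linarith
  have a2 : y 2 ^ 2 = 0 := by linarith
  funext i
  fin_cases i
  · exact pow_eq_zero_iff (two_ne_zero) |>.1 a0
  · exact pow_eq_zero_iff (two_ne_zero) |>.1 a1
  · exact pow_eq_zero_iff (two_ne_zero) |>.1 a2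

private theorem r1_sq_symm (p : R3) : (sq p).IsSymm := by
  ext i j
  simp only [Matrix.transpose_apply, sq]
  ring

private theorem r1_symm_add {P Q : Matrix (Fin 3) (Fin 3) ℝ} (hP : P.IsSymm) (hQ : Q.IsSymm) :
    (P + Q).IsSymm := hP.add hQ

private theorem r1_one_symm : (1 : Matrix (Fin 3) (Fin 3) ℝ).IsSymm := Matrix.isSymm_one

private theorem r1_PSD_add_PD {P : Matrix (Fin 3) (Fin 3) ℝ} (hP : PSD P) {ε : ℝ} (hε : 0 < ε) :
    PD (P + ε • (1 : Matrix (Fin 3) (Fin 3) ℝ)) := by
  refine ⟨hP.1.add (Matrix.isSymm_one.smul ε), fun y hy => ?_⟩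
  rw [r1_qf_add, r1_qf_smul]
  have := hP.2 y
  have := mul_pos hε (r1_qf_one_pos y hy)
  linarith

private theorem r1_one_PD : PD (1 : Matrix (Fin 3) (Fin 3) ℝ) :=
  ⟨Matrix.isSymm_one, r1_qf_one_pos⟩

private theorem r1_sq_PSD (p : R3) : PSD (sq p) :=
  ⟨r1_sq_symm p, fun y => by rw [r1_qf_sq]; positivity⟩

private theorem r1_zero_of_qf {Q : Matrix (Fin 3) (Fin 3) ℝ} (hQ : Q.IsSymm)
    (h : ∀ y, qf Q y = 0) : Q = 0 := by
  have q1 := hQ.apply 0 1
  have q2 := hQ.apply 0 2
  have q3 := hQ.apply 1 2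
  have h0 := h ![1, 0, 0]
  have h1 := h ![0, 1, 0]
  have h2 := h ![0, 0, 1]
  have h01 := h ![1, 1, 0]
  have h02 := h ![1, 0, 1]
  have h12 := h ![0, 1, 1]
  simp [qf, Fin.sum_univ_three] at h0 h1 h2 h01 h02 h12
  ext i j
  fin_cases i <;> fin_cases j <;> simp <;> linarith

/-! ## expansions along lines -/

section lines

variable {M : Type} [TopologicalSpace M] {V : Submodule ℝ (M → ℝ)} {a : M}

private theorem r1_line (D : DefPt V a) (l : V) (v : R3) :
    (fun s : ℝ => l.1 (D.g (s • v)) - l.1 a - s * (∑ i, D.d l i * v i) - s ^ 2 * qf (D.q l) v)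
      =o[nhds 0] (fun s : ℝ => s ^ 2) := by
  have ht : Tendsto (fun s : ℝ => s • v) (nhds 0) (nhds 0) := by
    have : Continuous (fun s : ℝ => s • v) := by fun_prop
    have h := this.tendsto 0
    rwa [zero_smul] at h
  have h := (D.exp l).comp_tendsto ht
  have hO : ((fun y : R3 => ‖y‖ ^ 2) ∘ fun s : ℝ => s • v) =O[nhds 0] (fun s : ℝ => s ^ 2) := by
    refine Asymptotics.IsBigO.of_bound (‖v‖ ^ 2) (Eventually.of_forall fun s => ?_)
    simp only [Function.comp_apply, norm_smul, norm_pow, norm_mul, norm_norm]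
    apply le_of_eq
    ring
  refine (h.trans_isBigO hO).congr_left fun s => ?_
  simp only [Function.comp_apply, r1_qf_smul_arg]
  congr 2
  rw [Finset.mul_sum]
  refine Finset.sum_congr rfl fun i _ => ?_
  simp only [Pi.smul_apply, smul_eq_mul]
  ring

private theorem r1_rem (D : DefPt V a) (l : V) (v : R3) :
    Tendsto (fun s : ℝ => (l.1 (D.g (s • v)) - l.1 a - s * (∑ i, D.d l i * v i) -
      s ^ 2 * qf (D.q l) v) / s ^ 2) (𝓝[≠] 0) (𝓝 0) :=
  ((r1_line D l v).mono nhdsWithin_le_nhds).tendsto_div_nhds_zero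

private theorem r1_one (D : DefPt V a) (l : V) (v : R3) :
    Tendsto (fun s : ℝ => (l.1 (D.g (s • v)) - l.1 a) / s) (𝓝[≠] 0)
      (𝓝 (∑ i, D.d l i * v i)) := by
  have hs : Tendsto (fun s : ℝ => s) (𝓝[≠] 0) (𝓝 0) := tendsto_id.mono_left nhdsWithin_le_nhds
  have h1 : Tendsto (fun s : ℝ => (∑ i, D.d l i * v i) + s * qf (D.q l) v +
      s * ((l.1 (D.g (s • v)) - l.1 a - s * (∑ i, D.d l i * v i) -
      s ^ 2 * qf (D.q l) v) / s ^ 2)) (𝓝[≠] 0)
      (𝓝 ((∑ i, D.d l i * v i) + 0 * qf (D.q l) v + 0 * 0)) :=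
    ((tendsto_const_nhds).add (hs.mul tendsto_const_nhds)).add (hs.mul (r1_rem D l v))
  have h2 : (∑ i, D.d l i * v i) + 0 * qf (D.q l) v + 0 * 0 = ∑ i, D.d l i * v i := by ring
  rw [h2] at h1
  refine h1.congr' ?_
  filter_upwards [self_mem_nhdsWithin] with s hs0
  have hs1 : s ≠ 0 := hs0
  field_simp
  ring

private theorem r1_two (D : DefPt V a) (l : V) (ha : l.1 a = 0) (hd : D.d l = 0) (v : R3) :
    Tendsto (fun s : ℝ => l.1 (D.g (s • v)) / s ^ 2) (𝓝[≠] 0) (𝓝 (qf (D.q l) v)) := by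
  have h1 : Tendsto (fun s : ℝ => qf (D.q l) v + (l.1 (D.g (s • v)) - l.1 a -
      s * (∑ i, D.d l i * v i) - s ^ 2 * qf (D.q l) v) / s ^ 2) (𝓝[≠] 0)
      (𝓝 (qf (D.q l) v + 0)) := tendsto_const_nhds.add (r1_rem D l v)
  rw [add_zero] at h1
  refine h1.congr' ?_
  filter_upwards [self_mem_nhdsWithin] with s hs0
  have hs1 : s ≠ 0 := hs0
  have h0 : ∑ i, D.d l i * v i = 0 := by
    rw [hd]
    simp
  rw [h0, ha]
  field_simp
  ring

/-- a nonnegative function with a zero at `a` is critical there -/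
private theorem r1_crit (D : DefPt V a) (l : V) (ha : l.1 a = 0) (hn : ∀ x, 0 ≤ l.1 x) :
    D.d l = 0 := by
  have key : ∀ v : R3, 0 ≤ ∑ i, D.d l i * v i := by
    intro v
    have h1 : Tendsto (fun s : ℝ => (l.1 (D.g (s • v)) - l.1 a) / s) (𝓝[>] 0)
        (𝓝 (∑ i, D.d l i * v i)) := (r1_one D l v).mono_left (nhdsGT_le_nhdsNE 0)
    refine ge_of_tendsto h1 ?_
    filter_upwards [self_mem_nhdsWithin] with s hs
    rw [ha, sub_zero]
    exact div_nonneg (hn _) (le_of_lt hs)
  funext j
  have h1 := key (fun i => -(D.d l i))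
  simp only [Fin.sum_univ_three] at h1
  have h0 := mul_self_nonneg (D.d l 0)
  have h2 := mul_self_nonneg (D.d l 1)
  have h3 := mul_self_nonneg (D.d l 2)
  have e0 : D.d l 0 * D.d l 0 = 0 := by linarith
  have e1 : D.d l 1 * D.d l 1 = 0 := by linarith
  have e2 : D.d l 2 * D.d l 2 = 0 := by linarith
  fin_cases j
  · exact mul_self_eq_zero.1 e0
  · exact mul_self_eq_zero.1 e1
  · exact mul_self_eq_zero.1 e2

/-- ... and its quadratic part is positive semidefinite -/
private theorem r1_psd (D : DefPt V a) (l : V) (ha : l.1 a = 0) (hn : ∀ x, 0 ≤ l.1 x) :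
    PSD (D.q l) := by
  refine ⟨D.symm l, fun v => ?_⟩
  refine ge_of_tendsto (r1_two D l ha (r1_crit D l ha hn) v) ?_
  filter_upwards with s
  exact div_nonneg (hn _) (sq_nonneg _)

private theorem r1_lin2 (A B : R3) (h : ∀ v : R3, (∑ i, A i * v i) * (∑ i, B i * v i) = 0) :
    A = 0 ∨ B = 0 := by
  by_contra hne
  push Not at hne
  have hA : 0 < ∑ i, A i * A i := by
    have := r1_qf_one_pos A hne.1
    rw [r1_qf_one] at this
    simp only [Fin.sum_univ_three]
    linarith
  have hB : 0 < ∑ i, B i * B i := by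
    have := r1_qf_one_pos B hne.2
    rw [r1_qf_one] at this
    simp only [Fin.sum_univ_three]
    linarith
  have h1 := h A
  have h2 := h (A + B)
  have h3 : ∑ i, B i * A i = 0 := by
    rcases mul_eq_zero.1 h1 with h3 | h3
    · rw [h3] at hA
      exact absurd hA (lt_irrefl _)
    · exact h3
  have h4 : ∑ i, A i * (A + B) i = ∑ i, A i * A i := by
    have : ∑ i, A i * (A + B) i = ∑ i, A i * A i + ∑ i, B i * A i := by
      simp only [Fin.sum_univ_three, Pi.add_apply]
      ring
    rw [this, h3, add_zero]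
  have h5 : ∑ i, B i * (A + B) i = ∑ i, B i * B i := by
    have : ∑ i, B i * (A + B) i = ∑ i, B i * A i + ∑ i, B i * B i := by
      simp only [Fin.sum_univ_three, Pi.add_apply]
      ring
    rw [this, h3, zero_add]
  rw [h4, h5] at h2
  exact absurd h2 (mul_pos hA hB).ne'

end lines

/-- the symmetrized product -/
private noncomputable def r1B : R3 →ₗ[ℝ] R3 →ₗ[ℝ] Matrix (Fin 3) (Fin 3) ℝ :=
  LinearMap.mk₂ ℝ (fun p r => Matrix.of fun i j => (p i * r j + r i * p j) / 2)
    (by
      intro p p' r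
      ext i j
      simp only [Matrix.of_apply, Pi.add_apply, Matrix.add_apply]
      ring)
    (by
      intro c p r
      ext i j
      simp only [Matrix.of_apply, Pi.smul_apply, Matrix.smul_apply, smul_eq_mul]
      ring)
    (by
      intro p r r'
      ext i j
      simp only [Matrix.of_apply, Pi.add_apply, Matrix.add_apply]
      ring)
    (by
      intro c p r
      ext i j
      simp only [Matrix.of_apply, Pi.smul_apply, Matrix.smul_apply, smul_eq_mul]
      ring)

private theorem r1B_apply (p r : R3) (i j : Fin 3) : r1B p r i j = (p i * r j + r i * p j) / 2 :=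
  rfl

private theorem r1B_symm (p r : R3) : (r1B p r).IsSymm := by
  ext i j
  rw [Matrix.transpose_apply, r1B_apply, r1B_apply]
  ring

private theorem r1B_self (p : R3) : r1B p p = sq p := by
  ext i j
  rw [r1B_apply]
  unfold sq
  ring

private theorem r1B_sum (c : Matrix (Fin 3) (Fin 3) ℝ) (hc : c.IsSymm) :
    ∑ i, ∑ j, c i j • r1B (Pi.single i 1) (Pi.single j 1) = c := by
  have q1 := hc.apply 0 1
  have q2 := hc.apply 0 2
  have q3 := hc.apply 1 2
  ext i j
  simp only [Fin.sum_univ_three, Matrix.add_apply, Matrix.smul_apply, r1B_apply, smul_eq_mul]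
  fin_cases i <;> fin_cases j <;> simp <;> linarith

theorem tR1 (h1 : MaxStmt) (h2 : FrmStmt) (h3 : FamStmt) (h4 : RotStmt) (h5 : RkOneStmt) :
    R1Stmt := by
  intro F _ M _ V T a ⟨D⟩
  obtain ⟨-, Λ, L1, L2, L3, L4, -⟩ := h2 F M V T a D
  -- the bilinear map
  set S : R3 →ₗ[ℝ] R3 →ₗ[ℝ] (M → ℝ) := r1B.compr₂ (V.subtype ∘ₗ Λ) with hS
  have hSa : ∀ p r, S p r = (Λ (r1B p r)).1 := fun p r => rfl
  have hsum : ∀ c : Matrix (Fin 3) (Fin 3) ℝ, c.IsSymm →
      ∑ i, ∑ j, c i j • S (Pi.single i 1) (Pi.single j 1) = (Λ c).1 := by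
    intro c hc
    have e1 : (Λ c).1 = (V.subtype ∘ₗ Λ) (∑ i, ∑ j, c i j • r1B (Pi.single i 1) (Pi.single j 1)) := by
      rw [r1B_sum c hc]
      rfl
    rw [e1, map_sum]
    refine Finset.sum_congr rfl fun i _ => ?_
    rw [map_sum]
    refine Finset.sum_congr rfl fun j _ => ?_
    rw [map_smul]
    rfl
  -- positive semidefinite forms are nonnegative
  have hpos : ∀ c : Matrix (Fin 3) (Fin 3) ℝ, PSD c → ∀ x, 0 ≤ (Λ c).1 x := by
    intro c hc x
    rcases eq_or_ne x a with rfl | hx
    · rw [L2]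
    · have h1x : ∀ ε : ℝ, 0 < ε → 0 < (Λ c).1 x + ε * (Λ 1).1 x := by
        intro ε hε
        have hPD := r1_PSD_add_PD hc hε
        have := h1 F M V T a D (Λ (c + ε • 1)) (L2 _) (L3 _) (by rw [L1 _ hPD.1]; exact hPD) x hx
        rw [map_add, map_smul] at this
        exact this
      have h10 : 0 < (Λ 1).1 x :=
        h1 F M V T a D (Λ 1) (L2 _) (L3 _) (by rw [L1 _ Matrix.isSymm_one]; exact r1_one_PD) x hx
      by_contra hneg
      push Not at hneg
      have hε : 0 < -((Λ c).1 x) / (2 * (Λ 1).1 x) := by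
        apply div_pos <;> linarith
      have h2x := h1x _ hε
      have h3x : (Λ c).1 x + -((Λ c).1 x) / (2 * (Λ 1).1 x) * (Λ 1).1 x = (Λ c).1 x / 2 := by
        field_simp
        ring
      rw [h3x] at h2x
      linarith
  have hker : ∀ l : V, l.1 a = 0 → D.d l = 0 → ∃ c : Matrix (Fin 3) (Fin 3) ℝ, c.IsSymm ∧
      l.1 = ∑ i, ∑ j, c i j • S (Pi.single i 1) (Pi.single j 1) := by
    intro l ha hd
    refine ⟨D.q l, D.symm l, ?_⟩
    rw [hsum _ (D.symm l), L4 l ha hd]
  have hSx : ∀ p r x, S p r x = ∑ i, ∑ j, r1B p r i j *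
      S (Pi.single i 1) (Pi.single j 1) x := by
    intro p r x
    have e1 := congrFun (hsum (r1B p r) (r1B_symm p r)) x
    rw [hSa, ← e1]
    simp only [Finset.sum_apply, Pi.smul_apply, smul_eq_mul]
  have hrk : ∀ x, ∃ u : R3 →ₗ[ℝ] ℝ, ∀ p r, S p r x = u p * u r := by
    intro x
    rcases eq_or_ne x a with rfl | hx
    · refine ⟨0, fun p r => ?_⟩
      rw [hSa, L2]
      simp
    · set L : Matrix (Fin 3) (Fin 3) ℝ := fun i j => S (Pi.single i 1) (Pi.single j 1) x with hL
      have hLqf : ∀ p, S p p x = qf L p := by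
        intro p
        rw [hSx p p x]
        unfold qf
        refine Finset.sum_congr rfl fun i _ => Finset.sum_congr rfl fun j _ => ?_
        rw [r1B_apply, hL]
        ring
      have hLP : PSD L := by
        refine ⟨?_, fun y => ?_⟩
        · ext i j
          rw [Matrix.transpose_apply]
          change S (Pi.single j 1) (Pi.single i 1) x = S (Pi.single i 1) (Pi.single j 1) x
          rw [hSa, hSa]
          have : r1B (Pi.single j 1) (Pi.single i 1) = r1B (Pi.single i 1) (Pi.single j 1) := by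
            ext k m
            rw [r1B_apply, r1B_apply]
            ring
          rw [this]
        · rw [← hLqf, hSa, r1B_self]
          exact hpos _ (r1_sq_PSD y) x
      obtain ⟨u, hu⟩ := h5 L hLP (by
        intro p₁ p₂ hind
        by_contra hcon
        push Not at hcon
        obtain ⟨t, p, l, c1, c2, c3, c4, c5, c6⟩ := h3 F M V T a D x p₁ p₂ (by
          intro α β hαβ m ma md mq
          have e1 : m.1 x = qf L (α • p₁ + β • p₂) := by
            rw [← hLqf, hSa, r1B_self, ← mq, L4 m ma md]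
          have e2 := hcon α β hαβ
          have e3 := hLP.2 (α • p₁ + β • p₂)
          rw [e1]
          exact lt_of_le_of_ne e3 (Ne.symm e2)) hind
        exact h4 F M V T a D x t p l c1 c2 c3 c4 c5 c6)
      refine ⟨∑ i, u i • LinearMap.proj i, fun p r => ?_⟩
      rw [hSx p r x]
      have hLu : ∀ i j, S (Pi.single i 1) (Pi.single j 1) x = u i * u j := by
        intro i j
        have := congrFun (congrFun hu i) j
        exact this
      simp only [hLu, r1B_apply, Fin.sum_univ_three, LinearMap.add_apply, LinearMap.smul_apply,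
        LinearMap.proj_apply, smul_eq_mul]
      ring
  refine ⟨⟨S, fun p r => (Λ (r1B p r)).2, hrk, fun p r => L2 _, ?_, ?_, ?_, D.d, hker, ?_, ?_⟩⟩
  · -- separation
    intro x hx
    by_contra hcon
    push Not at hcon
    have h10 : 0 < (Λ 1).1 x :=
      h1 F M V T a D (Λ 1) (L2 _) (L3 _) (by rw [L1 _ Matrix.isSymm_one]; exact r1_one_PD) x hx
    rw [← hsum 1 Matrix.isSymm_one] at h10
    simp [Fin.sum_univ_three, Matrix.one_apply] at h10
    rw [hcon, hcon, hcon] at h10
    simp at h10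
  · -- independence
    intro c hc h0
    rw [hsum c hc] at h0
    have h00 : Λ c = 0 := Subtype.ext h0
    have := L1 c hc
    rw [h00, map_zero] at this
    exact this.symm
  · -- nonnegative functions
    intro l hl ha hn
    have hd := r1_crit D ⟨l, hl⟩ ha hn
    have hq := r1_psd D ⟨l, hl⟩ ha hn
    refine ⟨D.q ⟨l, hl⟩, hq, ?_⟩
    rw [hsum _ (D.symm _), L4 ⟨l, hl⟩ ha hd]
  · -- gradients
    intro l m p ha hlm
    have key : ∀ v : R3, (∑ i, D.d l i * v i) ^ 2 = (∑ i, p i * v i) ^ 2 * m.1 a := by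
      intro v
      have t1 : Tendsto (fun s : ℝ => ((l.1 (D.g (s • v)) - l.1 a) / s) ^ 2) (𝓝[≠] 0)
          (𝓝 ((∑ i, D.d l i * v i) ^ 2)) := (r1_one D l v).pow 2
      have t2 : Tendsto (fun s : ℝ => (S p p) (D.g (s • v)) / s ^ 2) (𝓝[≠] 0)
          (𝓝 ((∑ i, p i * v i) ^ 2)) := by
        have := r1_two D (Λ (r1B p p)) (L2 _) (L3 _) v
        rw [L1 _ (r1B_symm p p), r1B_self, r1_qf_sq] at this
        rw [hSa, r1B_self]
        exact this
      have t3 : Tendsto (fun s : ℝ => m.1 (D.g (s • v))) (𝓝[≠] 0) (𝓝 (m.1 a)) := by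
        have hc : Continuous (fun s : ℝ => m.1 (D.g (s • v))) := by
          refine (T.cont m.1 m.2).comp (D.emb.continuous.comp ?_)
          fun_prop
        have := hc.tendsto 0
        rw [zero_smul, D.g0] at this
        exact this.mono_left nhdsWithin_le_nhds
      have t4 := t2.mul t3
      refine tendsto_nhds_unique t1 (t4.congr' ?_)
      filter_upwards [self_mem_nhdsWithin] with s hs0
      have hs1 : s ≠ 0 := hs0
      rw [ha, sub_zero, div_pow, hlm (D.g (s • v))]
      ring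
    rcases le_or_gt (m.1 a) 0 with hma | hma
    · left
      rw [Real.sqrt_eq_zero_of_nonpos hma, zero_smul]
      have h0 : ∀ v : R3, ∑ i, D.d l i * v i = 0 := by
        intro v
        have e1 := key v
        have e2 : (∑ i, p i * v i) ^ 2 * m.1 a ≤ 0 :=
          mul_nonpos_of_nonneg_of_nonpos (sq_nonneg _) hma
        have e3 := sq_nonneg (∑ i, D.d l i * v i)
        have e4 : (∑ i, D.d l i * v i) ^ 2 = 0 := le_antisymm (by rw [e1]; exact e2) e3
        exact pow_eq_zero_iff two_ne_zero |>.1 e4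
      rcases r1_lin2 (D.d l) (D.d l) (fun v => by rw [h0 v, zero_mul]) with h | h <;> exact h
    · have hr : Real.sqrt (m.1 a) ^ 2 = m.1 a := Real.sq_sqrt hma.le
      rcases r1_lin2 (D.d l - Real.sqrt (m.1 a) • p) (D.d l + Real.sqrt (m.1 a) • p) (fun v => by
        have e1 := key v
        rw [← hr] at e1
        have e2 : ∑ i, (D.d l - Real.sqrt (m.1 a) • p) i * v i =
            ∑ i, D.d l i * v i - Real.sqrt (m.1 a) * ∑ i, p i * v i := by
          simp only [Fin.sum_univ_three, Pi.sub_apply, Pi.smul_apply, smul_eq_mul]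
          ring
        have e3 : ∑ i, (D.d l + Real.sqrt (m.1 a) • p) i * v i =
            ∑ i, D.d l i * v i + Real.sqrt (m.1 a) * ∑ i, p i * v i := by
          simp only [Fin.sum_univ_three, Pi.add_apply, Pi.smul_apply, smul_eq_mul]
          ring
        rw [e2, e3]
        linear_combination e1) with h | h
      · left
        exact sub_eq_zero.1 h
      · right
        exact eq_neg_of_add_eq_zero_left h
  · -- local zero
    intro l hl hz
    have ha : l a = 0 := hz.self_of_nhds
    have hg : Tendsto D.g (𝓝 0) (𝓝 a) := by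
      have := D.emb.continuous.tendsto 0
      rwa [D.g0] at this
    have hgz : ∀ᶠ y in 𝓝 (0 : R3), l (D.g y) = 0 := hg.eventually hz
    have hgs : ∀ v : R3, ∀ᶠ s in 𝓝[≠] (0 : ℝ), l (D.g (s • v)) = 0 := by
      intro v
      have ht : Tendsto (fun s : ℝ => s • v) (nhds 0) (nhds 0) := by
        have : Continuous (fun s : ℝ => s • v) := by fun_prop
        have h := this.tendsto 0
        rwa [zero_smul] at h
      exact (ht.eventually hgz).filter_mono nhdsWithin_le_nhds
    have hd : D.d ⟨l, hl⟩ = 0 := by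
      have h0 : ∀ v : R3, ∑ i, D.d ⟨l, hl⟩ i * v i = 0 := by
        intro v
        refine tendsto_nhds_unique (r1_one D ⟨l, hl⟩ v) ?_
        refine tendsto_const_nhds.congr' ?_
        filter_upwards [hgs v] with s hs
        rw [hs, ha, sub_zero, zero_div]
      rcases r1_lin2 (D.d ⟨l, hl⟩) (D.d ⟨l, hl⟩) (fun v => by rw [h0 v, zero_mul]) with h | h <;>
        exact h
    have hq : D.q ⟨l, hl⟩ = 0 := by
      apply r1_zero_of_qf (D.symm _)
      intro v
      refine tendsto_nhds_unique (r1_two D ⟨l, hl⟩ ha hd v) ?_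
      refine tendsto_const_nhds.congr' ?_
      filter_upwards [hgs v] with s hs
      change 0 = l (D.g (s • v)) / s ^ 2
      rw [hs, zero_div]
    have := L4 ⟨l, hl⟩ ha hd
    rw [hq, map_zero] at this
    exact (congrArg Subtype.val this).symm

end Ver

end TightRP
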