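import Pool.Agent.Lib.MP_7cdc3e_gt.A.Spec

/-!
# MP_7cdc3e_gt, Theorem A, S6a: a form with a null vector in every plane has rank one
-/

namespace TightRP

namespace Ver

namespace RkOne

variable {n : ℕ}

/-- the bilinear form of a matrix -/
def bf (Q : Matrix (Fin n) (Fin n) ℝ) (x y : Fin n → ℝ) : ℝ := ∑ i, ∑ j, Q i j * (x i * y j)

theorem qf_eq (Q : Matrix (Fin n) (Fin n) ℝ) (y : Fin n → ℝ) : qf Q y = bf Q y y := rfl

theorem bf_add_left (Q : Matrix (Fin n) (Fin n) ℝ) (x x' y : Fin n → ℝ) :
    bf Q (x + x') y = bf Q x y + bf Q x' y := by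
  simp only [bf, ← Finset.sum_add_distrib]
  refine Finset.sum_congr rfl fun i _ => Finset.sum_congr rfl fun j _ => ?_
  simp only [Pi.add_apply]
  ring

theorem bf_smul_left (Q : Matrix (Fin n) (Fin n) ℝ) (s : ℝ) (x y : Fin n → ℝ) :
    bf Q (s • x) y = s * bf Q x y := by
  simp only [bf, Finset.mul_sum]
  refine Finset.sum_congr rfl fun i _ => Finset.sum_congr rfl fun j _ => ?_
  simp only [Pi.smul_apply, smul_eq_mul]
  ring

theorem bf_comm {Q : Matrix (Fin n) (Fin n) ℝ} (hQ : Q.IsSymm) (x y : Fin n → ℝ) :
    bf Q x y = bf Q y x := by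
  simp only [bf]
  rw [Finset.sum_comm]
  refine Finset.sum_congr rfl fun i _ => Finset.sum_congr rfl fun j _ => ?_
  have h : Q j i = Q i j := hQ.apply i j
  rw [h]
  ring

theorem bf_single (Q : Matrix (Fin n) (Fin n) ℝ) (i j : Fin n) :
    bf Q (Pi.single i 1) (Pi.single j 1) = Q i j := by
  simp only [bf]
  rw [Finset.sum_eq_single i, Finset.sum_eq_single j]
  · simp
  · intro b _ hb
    simp [Pi.single_eq_of_ne hb]
  · intro h
    exact absurd (Finset.mem_univ _) h
  · intro b _ hb
    refine Finset.sum_eq_zero fun k _ => ?_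
    simp [Pi.single_eq_of_ne hb]
  · intro h
    exact absurd (Finset.mem_univ _) h

/-- a null vector of a positive semidefinite form is in the kernel -/
theorem bf_eq_zero {Q : Matrix (Fin n) (Fin n) ℝ} (hQ : PSD Q) {x : Fin n → ℝ}
    (hx : bf Q x x = 0) (y : Fin n → ℝ) : bf Q x y = 0 := by
  have key : ∀ s : ℝ, 0 ≤ bf Q y y + s * (2 * bf Q x y) := by
    intro s
    have h := hQ.2 (y + s • x)
    rw [qf_eq] at h
    have e : bf Q (y + s • x) (y + s • x) = bf Q y y + s * (2 * bf Q x y) := by
      rw [bf_add_left, bf_smul_left, bf_comm hQ.1 y (y + s • x), bf_comm hQ.1 x (y + s • x),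
        bf_add_left, bf_add_left, bf_smul_left, bf_smul_left, hx, bf_comm hQ.1 y x]
      ring
    rwa [e] at h
  by_contra hne
  have h1 := key (-(bf Q y y + 1) / (2 * bf Q x y))
  rw [div_mul_cancel₀ _ (mul_ne_zero two_ne_zero hne)] at h1
  linarith

end RkOne

open RkOne in
/-- S6a -/
theorem rkOneStmt : RkOneStmt := by
  intro L hL hp
  by_cases h0 : ∀ v : R3, bf L v v = 0
  · refine ⟨0, ?_⟩
    ext i j
    have h := bf_eq_zero hL (h0 (Pi.single i 1)) (Pi.single j 1)
    rw [bf_single] at h
    rw [h]
    simp [sq]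
  · push Not at h0
    obtain ⟨v, hv⟩ := h0
    have hv0 : 0 < bf L v v := lt_of_le_of_ne (hL.2 v) (Ne.symm hv)
    have key : ∀ w z : R3, bf L v v * bf L w z = bf L v w * bf L v z := by
      intro w z
      by_cases hi : ∀ α β : ℝ, α • v + β • w = 0 → α = 0 ∧ β = 0
      · obtain ⟨α, β, hne, hq⟩ := hp v w hi
        rw [qf_eq] at hq
        have h1 : ∀ z, α * bf L v z + β * bf L w z = 0 := by
          intro z
          have := bf_eq_zero hL hq z
          rwa [bf_add_left, bf_smul_left, bf_smul_left] at this
        have hβ : β ≠ 0 := by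
          intro hβ
          have h2 := h1 v
          rw [hβ, zero_mul, add_zero] at h2
          have h3 : α = 0 := by
            rcases mul_eq_zero.1 h2 with h | h
            · exact h
            · exact absurd h hv
          rcases hne with h | h
          · exact h h3
          · exact h hβ
        have h2 := h1 v
        have h3 := h1 z
        rw [bf_comm hL.1 w v] at h2
        refine mul_left_cancel₀ hβ ?_
        linear_combination bf L v v * h3 - bf L v z * h2
      · push Not at hi
        obtain ⟨α, β, hz, hne⟩ := hi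
        have h1 : ∀ z, α * bf L v z + β * bf L w z = 0 := by
          intro z
          rw [← bf_smul_left, ← bf_smul_left, ← bf_add_left, hz]
          simp [bf]
        have hβ : β ≠ 0 := by
          intro hβ
          have h2 := h1 v
          rw [hβ, zero_mul, add_zero] at h2
          rcases mul_eq_zero.1 h2 with h | h
          · exact hne h hβ
          · exact absurd h hv
        have h2 := h1 v
        have h3 := h1 z
        rw [bf_comm hL.1 w v] at h2
        refine mul_left_cancel₀ hβ ?_
        linear_combination bf L v v * h3 - bf L v z * h2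
    refine ⟨fun i => bf L v (Pi.single i 1) / Real.sqrt (bf L v v), ?_⟩
    ext i j
    have h := key (Pi.single i 1) (Pi.single j 1)
    rw [bf_single] at h
    have hs : Real.sqrt (bf L v v) * Real.sqrt (bf L v v) = bf L v v :=
      Real.mul_self_sqrt hv0.le
    have hs0 : Real.sqrt (bf L v v) ≠ 0 := (Real.sqrt_pos.2 hv0).ne'
    change L i j = bf L v (Pi.single i 1) / Real.sqrt (bf L v v) *
      (bf L v (Pi.single j 1) / Real.sqrt (bf L v v))
    rw [div_mul_div_comm, hs, ← h, mul_comm, mul_div_assoc, div_self hv, mul_one]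

end Ver

end TightRP
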