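import Pool.Agent.Lib.MP_7cdc3e_gt.A.Spec

set_option autoImplicit false

open HoloConj Pool.Agent.Lib.SingHom

namespace TightRP.Ver

section

variable {F : Type} [Field F] {X : Type} [TopologicalSpace X]

private theorem rot_mono {S T : Set X} (h : S ⊆ T) (n : ℕ) {c : SC F X n} (hc : c ∈ inU F S n) :
    c ∈ inU F T n :=
  supp_mono F (fun _ hσ t => h (hσ t)) hc

private theorem rot_sub {c c' : SC F X 1} (h : IsBdry F 1 c) (h' : IsBdry F 1 c') :
    IsBdry F 1 (c - c') := by
  obtain ⟨y, rfl⟩ := h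
  obtain ⟨y', rfl⟩ := h'
  exact ⟨y - y', map_sub _ _ _⟩

private theorem rot_neg {c : SC F X 1} (h : IsBdry F 1 c) : IsBdry F 1 (-c) := by
  obtain ⟨y, rfl⟩ := h
  exact ⟨-y, map_neg _ _⟩

end

/-- the image of a segment in a convex set -/
private theorem rot_joined {X : Type} [TopologicalSpace X] (g : R3 → X) (hg : Continuous g)
    (K : Set R3) (hK : Convex ℝ K) (y y' : R3) (hy : y ∈ K) (hy' : y' ∈ K) :
    JoinedIn (g '' K) (g y) (g y') := by
  have h : JoinedIn K y y' :=
    (hK.isPathConnected ⟨y, hy⟩).joinedIn y hy y' hy'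
  exact h.map_continuousOn hg.continuousOn

theorem tRot (h1 : ConnStmt) (h2 : JoinStmt) (h3 : SuppStmt) (h4 : BallStmt) (h5 : OddStmt)
    (h6 : NulStmt) : RotStmt := by
  intro F _ M _ V hT a D x₁ t p l hp hl hsig hx₁ hpπ hlπ
  have hgc : Continuous D.g := D.emb.continuous
  have htpos : 0 < t := (hsig 0).tpos
  -- the end points
  let y : ℝ → R3 := fun θ => t • p θ
  have hyc : Continuous y := hp.const_smul t
  have hypos : ∀ θ, 0 < (l θ).1 (D.g (y θ)) := fun θ =>
    (hsig θ).seg t htpos.ne' (by rw [abs_of_pos htpos])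
  have hb : ∀ θ, ∃ b ∈ inU F {x | 0 < (l θ).1 x} 1, sbd F 0 b = pt F (D.g (y θ)) - pt F x₁ :=
    fun θ => h2 F M _ _ _ ((h1 F M V hT (l θ).1 (l θ).2).2 x₁ (D.g (y θ)) (hx₁ θ) (hypos θ))
  have hc : ∀ θ, ∃ c ∈ inU F (Set.range D.g) 1, sbd F 0 c = pt F a - pt F (D.g (y θ)) := by
    intro θ
    refine h2 F M _ _ _ ?_
    have h := rot_joined D.g hgc Set.univ convex_univ (y θ) 0 trivial trivial
    rw [D.g0, Set.image_univ] at h
    exact h
  choose b hbm hbd using hb
  choose c hcm hcd using hc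
  -- the relation
  have hlocal : ∀ θ : ℝ, ∀ᶠ θ' in nhds θ, IsBdry F 1 ((b θ + c θ) - (b θ' + c θ')) := by
    intro θ
    obtain ⟨C, hCc, hCs, hCb⟩ := h3 F M _ 1 (b θ) (hbm θ)
    have e1 : ∀ᶠ θ' in nhds θ, ∀ x ∈ C, 0 < (l θ').1 x := by
      refine hCc.eventually_forall_of_forall_eventually (P := fun θ' x => 0 < (l θ').1 x) ?_
      intro x hx
      exact (continuous_iff_continuousAt.1 hl (θ, x)).eventually (lt_mem_nhds (hCs hx))
    have e2 : ∀ᶠ z : ℝ × R3 in nhds (θ, y θ), 0 < (l z.1).1 (D.g z.2) := by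
      have hcont : Continuous fun z : ℝ × R3 => (l z.1).1 (D.g z.2) :=
        hl.comp (continuous_fst.prodMk (hgc.comp continuous_snd))
      exact (continuous_iff_continuousAt.1 hcont (θ, y θ)).eventually (lt_mem_nhds (hypos θ))
    rw [nhds_prod_eq] at e2
    obtain ⟨P, hP, Q, hQ, hPQ⟩ := Filter.eventually_prod_iff.1 e2
    obtain ⟨r, hr, hball⟩ := Metric.eventually_nhds_iff_ball.1 hQ
    have e3 : ∀ᶠ θ' in nhds θ, y θ' ∈ Metric.ball (y θ) r :=
      (continuous_iff_continuousAt.1 hyc θ).eventually (Metric.ball_mem_nhds _ hr)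
    filter_upwards [e1, hP, e3] with θ' hθ1 hθP hθ3
    obtain ⟨e, hem, hed⟩ : ∃ e ∈ inU F ({x | 0 < (l θ').1 x} ∩ Set.range D.g) 1,
        sbd F 0 e = pt F (D.g (y θ')) - pt F (D.g (y θ)) := by
      refine h2 F M _ _ _ ?_
      have h := rot_joined D.g hgc (Metric.ball (y θ) r) (convex_ball _ _) (y θ) (y θ')
        (Metric.mem_ball_self hr) hθ3
      refine h.mono ?_
      rintro _ ⟨z, hz, rfl⟩
      exact ⟨hPQ hθP (hball z hz), z, rfl⟩
    have hA : IsBdry F 1 (b θ + e - b θ') := by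
      refine h6 F M V hT a D (l θ') (p θ') t (hsig θ') _ ?_ ?_
      · refine Submodule.sub_mem _ (Submodule.add_mem _ (rot_mono hθ1 1 hCb) ?_) (hbm θ')
        exact rot_mono Set.inter_subset_left 1 hem
      · rw [map_sub, map_add, hbd, hbd, hed]
        abel
    have hB : IsBdry F 1 (c θ - e - c θ') := by
      refine h4 F M D.g D.emb _ ?_ ?_
      · refine Submodule.sub_mem _ (Submodule.sub_mem _ (hcm θ) ?_) (hcm θ')
        exact rot_mono Set.inter_subset_right 1 hem
      · rw [map_sub, map_sub, hcd, hcd, hed]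
        abel
    have hsum := hA.add hB
    have heq : b θ + e - b θ' + (c θ - e - c θ') = (b θ + c θ) - (b θ' + c θ') := by abel
    rw [heq] at hsum
    exact hsum
  have hrel : IsBdry F 1 ((b 0 + c 0) - (b Real.pi + c Real.pi)) := by
    refine PreconnectedSpace.induction₂' (fun θ θ' : ℝ =>
      IsBdry F 1 ((b θ + c θ) - (b θ' + c θ'))) ?_ ?_ 0 Real.pi
    · intro θ
      filter_upwards [hlocal θ] with θ' hθ'
      refine ⟨hθ', ?_⟩
      have := rot_neg hθ'
      rw [neg_sub] at this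
      exact this
    · constructor
      intro θ₁ θ₂ θ₃ h12 h23
      have := h12.add h23
      rw [sub_add_sub_cancel] at this
      exact this
  have hpi : y Real.pi = -(t • p 0) := by
    show t • p Real.pi = _
    have := hpπ 0
    rw [zero_add] at this
    rw [this, smul_neg]
  have hlpi : l Real.pi = l 0 := by
    have := hlπ 0
    rw [zero_add] at this
    exact this
  refine h5 F M V hT a D (l 0) (p 0) t (hsig 0) (b Real.pi - b 0) ?_ (c Real.pi - c 0) ?_ ?_ ?_ ?_
  · refine Submodule.sub_mem _ ?_ (hbm 0)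
    have := hbm Real.pi
    rw [hlpi] at this
    exact this
  · exact Submodule.sub_mem _ (hcm Real.pi) (hcm 0)
  · rw [map_sub, hbd, hbd, hpi]
    show pt F (D.g (-(t • p 0))) - pt F x₁ - (pt F (D.g (t • p 0)) - pt F x₁) = _
    abel
  · rw [map_sub, hcd, hcd, hpi]
    show pt F a - pt F (D.g (-(t • p 0))) - (pt F a - pt F (D.g (t • p 0))) = _
    abel
  · have := rot_neg hrel
    have heq : -((b 0 + c 0) - (b Real.pi + c Real.pi)) =
      b Real.pi - b 0 + (c Real.pi - c 0) := by abel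
    rw [heq] at this
    exact this

end TightRP.Ver
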