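import Pool.Agent.Lib.MP_7cdc3e_gt.A.Spec

/-!
# MP_7cdc3e_gt, A/Smo: the Veronese embedding is a smooth immersion
-/

open HoloConj Pool.Agent.Lib.SingHom
open scoped Manifold ContDiff

namespace TightRP

namespace Ver

/-- the ambient space of the sphere -/
abbrev SmE4 : Type := EuclideanSpace ℝ (Fin 4)

/-- the unit sphere -/
abbrev SmS3 : Type := Metric.sphere (0 : SmE4) 1

/-- the dimension -/
theorem smFact4 : Fact (Module.finrank ℝ SmE4 = 3 + 1) := ⟨finrank_euclideanSpace_fin⟩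

attribute [local instance] smFact4

/-- the quadratic form as a function on `SmE4` -/
noncomputable def smQ (k : Matrix (Fin 4) (Fin 4) ℝ) (x : SmE4) : ℝ := qf k x.ofLp

theorem smQ_contDiff (k : Matrix (Fin 4) (Fin 4) ℝ) : ContDiff ℝ ω (smQ k) := by
  unfold smQ qf
  refine ContDiff.sum fun i _ => ContDiff.sum fun j _ => ?_
  have hi : ∀ i : Fin 4, ContDiff ℝ ω (fun x : SmE4 => x.ofLp i) := fun i =>
    (EuclideanSpace.proj (𝕜 := ℝ) i).contDiff
  exact contDiff_const.mul ((hi i).mul (hi j))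

/-- the functions `x_i x_j / qf k x` -/
noncomputable def smH (k : Matrix (Fin 4) (Fin 4) ℝ) (i j : Fin 4) (x : SmE4) : ℝ :=
  x.ofLp i * x.ofLp j / smQ k x

theorem smQ_pos {k : Matrix (Fin 4) (Fin 4) ℝ} (hk : PD k) (v : SmS3) : 0 < smQ k v.1 := by
  refine hk.2 _ fun h => ?_
  have h1 : v.1 = 0 := by
    ext i
    exact congrFun h i
  exact ne_zero_of_mem_unit_sphere v h1

theorem smH_contDiffAt {k : Matrix (Fin 4) (Fin 4) ℝ} (hk : PD k) (i j : Fin 4) (v : SmS3) :
    ContDiffAt ℝ ω (smH k i j) v.1 := by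
  have hi : ∀ i : Fin 4, ContDiff ℝ ω (fun x : SmE4 => x.ofLp i) := fun i =>
    (EuclideanSpace.proj (𝕜 := ℝ) i).contDiff
  exact (((hi i).mul (hi j)).contDiffAt).div (smQ_contDiff k).contDiffAt (smQ_pos hk v).ne'

/-- linear algebra: the differentials of all `smH k i j` have no common tangent vector -/
theorem smH_fderiv_inj {k : Matrix (Fin 4) (Fin 4) ℝ} (hk : PD k) (v : SmS3) (w : SmE4)
    (hw : inner ℝ v.1 w = 0) (h : ∀ i j, fderiv ℝ (smH k i j) v.1 w = 0) : w = 0 := by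
  have hq := smQ_pos hk v
  have hp : ∀ i : Fin 4, HasFDerivAt (fun x : SmE4 => x.ofLp i)
      (EuclideanSpace.proj (𝕜 := ℝ) i : SmE4 →L[ℝ] ℝ) v.1 := fun i =>
    (EuclideanSpace.proj (𝕜 := ℝ) i : SmE4 →L[ℝ] ℝ).hasFDerivAt
  have hQ : HasFDerivAt (smQ k) (fderiv ℝ (smQ k) v.1) v.1 :=
    ((smQ_contDiff k).differentiable (by simp)).differentiableAt.hasFDerivAt
  set μ : ℝ := fderiv ℝ (smQ k) v.1 w with hμ
  have key : ∀ i j, v.1.ofLp i * w.ofLp j + w.ofLp i * v.1.ofLp j
      = (μ / smQ k v.1) * (v.1.ofLp i * v.1.ofLp j) := by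
    intro i j
    have hH : HasFDerivAt (smH k i j) (fderiv ℝ (smH k i j) v.1) v.1 :=
      ((smH_contDiffAt hk i j v).differentiableAt (by simp)).hasFDerivAt
    have h1 := hH.mul hQ
    have h2 := (hp i).mul (hp j)
    have h3 : (fun x => smH k i j x * smQ k x) =ᶠ[nhds v.1]
        (fun x : SmE4 => x.ofLp i * x.ofLp j) := by
      have : ∀ᶠ x in nhds v.1, smQ k x ≠ 0 :=
        ((smQ_contDiff k).continuous.continuousAt).eventually_ne hq.ne'
      filter_upwards [this] with x hx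
      unfold smH
      field_simp
    have h4 := (h2.congr_of_eventuallyEq h3).unique h1
    have h5 := congrArg (fun L : SmE4 →L[ℝ] ℝ => L w) h4
    have e : ∀ j, (EuclideanSpace.proj (𝕜 := ℝ) j : SmE4 →L[ℝ] ℝ) w = w.ofLp j := fun _ => rfl
    simp only [add_apply, smul_apply, smul_eq_mul,
      e, h i j, mul_zero, add_zero] at h5
    have h6 : smH k i j v.1 = v.1.ofLp i * v.1.ofLp j / smQ k v.1 := rfl
    rw [h6, ← hμ] at h5
    have h7 : v.1.ofLp i * v.1.ofLp j / smQ k v.1 * μ =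
      μ / smQ k v.1 * (v.1.ofLp i * v.1.ofLp j) := by ring
    rw [← h7]
    linarith [h5]
  have hv : ∑ i, v.1.ofLp i * v.1.ofLp i = 1 := by
    have h1 : ‖v.1‖ = 1 := by simp
    have h2 := EuclideanSpace.real_norm_sq_eq v.1
    rw [h1, one_pow] at h2
    exact (Finset.sum_congr rfl fun i _ => by ring).trans h2.symm
  have hvw : ∑ i, v.1.ofLp i * w.ofLp i = 0 := by
    rw [← hw, PiLp.inner_apply]
    exact Finset.sum_congr rfl fun i _ => by simp [mul_comm]
  have h8 : ∀ j, w.ofLp j = (μ / smQ k v.1) * v.1.ofLp j := by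
    intro j
    have h9 : ∑ i, v.1.ofLp i * (v.1.ofLp i * w.ofLp j + w.ofLp i * v.1.ofLp j)
        = ∑ i, v.1.ofLp i * ((μ / smQ k v.1) * (v.1.ofLp i * v.1.ofLp j)) :=
      Finset.sum_congr rfl fun i _ => by rw [key i j]
    have h10 : ∑ i, v.1.ofLp i * (v.1.ofLp i * w.ofLp j + w.ofLp i * v.1.ofLp j)
        = (∑ i, v.1.ofLp i * v.1.ofLp i) * w.ofLp j + (∑ i, v.1.ofLp i * w.ofLp i) * v.1.ofLp j := by
      rw [Finset.sum_mul, Finset.sum_mul, ← Finset.sum_add_distrib]
      exact Finset.sum_congr rfl fun i _ => by ring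
    have h11 : ∑ i, v.1.ofLp i * ((μ / smQ k v.1) * (v.1.ofLp i * v.1.ofLp j))
        = (∑ i, v.1.ofLp i * v.1.ofLp i) * ((μ / smQ k v.1) * v.1.ofLp j) := by
      rw [Finset.sum_mul]
      exact Finset.sum_congr rfl fun i _ => by ring
    rw [h10, h11, hv, hvw] at h9
    linarith
  have h12 : μ / smQ k v.1 = 0 := by
    have h13 : ∑ i, v.1.ofLp i * w.ofLp i
        = (μ / smQ k v.1) * ∑ i, v.1.ofLp i * v.1.ofLp i := by
      rw [Finset.mul_sum]
      exact Finset.sum_congr rfl fun i _ => by rw [h8 i]; ring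
    rw [hvw, hv] at h13
    linarith
  ext j
  rw [h8 j, h12]
  simp

/-- the coordinates of `f` in terms of the sphere -/
theorem smo_coord {N : ℕ} {f : RP3 → EuclideanSpace ℝ (Fin N)} {φ : RP3 ≃ₜ RP3}
    {k : Matrix (Fin 4) (Fin 4) ℝ} {e : Fin 4 → Fin 4 → RP3 → ℝ} (he : Quad (aff f) e)
    (hb : ∀ (v : SmS3) (i j : Fin 4),
      e i j (φ (Quotient.mk antipodal v)) = v.1 i * v.1 j / qf k v.1.ofLp) (n : Fin N) :
    ∃ c : Matrix (Fin 4) (Fin 4) ℝ, ∀ v : SmS3,
      f (φ (Quotient.mk antipodal v)) n = ∑ i, ∑ j, c i j * smH k i j v.1 := by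
  obtain ⟨c, -, hc⟩ := he.span (fun x => f x n)
    ⟨(EuclideanSpace.proj (𝕜 := ℝ) n : EuclideanSpace ℝ (Fin N) →L[ℝ] ℝ).toLinearMap, 0, by
      funext x
      simp⟩
  refine ⟨c, fun v => ?_⟩
  have h := congrFun hc (φ (Quotient.mk antipodal v))
  simp only [Finset.sum_apply, Pi.smul_apply, smul_eq_mul] at h
  rw [h]
  refine Finset.sum_congr rfl fun i _ => Finset.sum_congr rfl fun j _ => ?_
  rw [hb v i j]
  rfl

theorem smo : SmoStmt := by
  intro N f φ k e hk he hb
  set g : SmS3 → EuclideanSpace ℝ (Fin N) := fun v => f (φ (Quotient.mk antipodal v)) with hg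
  choose c hc using fun n => smo_coord he hb n
  -- the extension to the ambient space
  let G : SmE4 → EuclideanSpace ℝ (Fin N) := fun x =>
    WithLp.toLp 2 (fun n => ∑ i, ∑ j, c n i j * smH k i j x)
  have hG : ∀ v : SmS3, ContDiffAt ℝ ω G v.1 := by
    intro v
    rw [contDiffAt_euclidean]
    intro n
    change ContDiffAt ℝ ω (fun x => ∑ i, ∑ j, c n i j * smH k i j x) v.1
    refine ContDiffAt.sum fun i _ => ContDiffAt.sum fun j _ => ?_
    exact (contDiffAt_const (c := c n i j)).mul (smH_contDiffAt hk i j v)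
  have hgG : g = G ∘ ((↑) : SmS3 → SmE4) := by
    funext v
    ext n
    exact hc n v
  have hsm : ContMDiff (modelWithCornersSelf ℝ (EuclideanSpace ℝ (Fin 3)))
      (modelWithCornersSelf ℝ (EuclideanSpace ℝ (Fin N))) ω g := by
    rw [hgG]
    intro v
    exact ContMDiffAt.comp v (hG v).contMDiffAt (contMDiff_coe_sphere v)
  refine ⟨hsm.of_le (by simp), fun v => ?_⟩
  have hgd : MDifferentiableAt (modelWithCornersSelf ℝ (EuclideanSpace ℝ (Fin 3)))
      (modelWithCornersSelf ℝ (EuclideanSpace ℝ (Fin N))) g v :=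
    (hsm v).mdifferentiableAt (by simp)
  have hcd : MDifferentiableAt (modelWithCornersSelf ℝ (EuclideanSpace ℝ (Fin 3)))
      (modelWithCornersSelf ℝ SmE4) ((↑) : SmS3 → SmE4) v :=
    (contMDiff_coe_sphere (m := 1) v).mdifferentiableAt (by simp)
  rw [injective_iff_map_eq_zero]
  intro w hw
  -- the tangent vector in the ambient space
  set w' : SmE4 := mfderiv (modelWithCornersSelf ℝ (EuclideanSpace ℝ (Fin 3)))
    (modelWithCornersSelf ℝ SmE4) ((↑) : SmS3 → SmE4) v w with hw'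
  have hperp : inner ℝ v.1 w' = 0 := by
    have h1 := range_mvfderiv_subtypeVal (n := 3) v
    have h2 : w' ∈ (Submodule.span ℝ {(v.1 : SmE4)})ᗮ := by
      rw [← h1]
      exact ⟨w, rfl⟩
    exact Submodule.mem_orthogonal_singleton_iff_inner_right.1 h2
  have hz : w' = 0 := by
    refine smH_fderiv_inj hk v w' hperp fun i j => ?_
    obtain ⟨l, d, hl⟩ := he.mem i j
    have h1 : (smH k i j) ∘ ((↑) : SmS3 → SmE4) = (fun y => l.toContinuousLinearMap y + d) ∘ g := by
      funext u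
      have h2 := congrFun hl (φ (Quotient.mk antipodal u))
      rw [hb u i j] at h2
      exact h2
    have h3 : HasMFDerivAt (modelWithCornersSelf ℝ (EuclideanSpace ℝ (Fin 3)))
        (modelWithCornersSelf ℝ ℝ) ((smH k i j) ∘ ((↑) : SmS3 → SmE4)) v
        ((fderiv ℝ (smH k i j) v.1).comp (mfderiv (modelWithCornersSelf ℝ (EuclideanSpace ℝ (Fin 3)))
          (modelWithCornersSelf ℝ SmE4) ((↑) : SmS3 → SmE4) v)) := by
      have h4 : HasFDerivAt (smH k i j) (fderiv ℝ (smH k i j) v.1) v.1 :=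
        ((smH_contDiffAt hk i j v).differentiableAt (by simp)).hasFDerivAt
      exact HasMFDerivAt.comp v h4.hasMFDerivAt hcd.hasMFDerivAt
    have h5 : HasMFDerivAt (modelWithCornersSelf ℝ (EuclideanSpace ℝ (Fin 3)))
        (modelWithCornersSelf ℝ ℝ) ((fun y => l.toContinuousLinearMap y + d) ∘ g) v
        ((l.toContinuousLinearMap).comp (mfderiv (modelWithCornersSelf ℝ (EuclideanSpace ℝ (Fin 3)))
          (modelWithCornersSelf ℝ (EuclideanSpace ℝ (Fin N))) g v)) := by
      have h6 : HasFDerivAt (fun y => l.toContinuousLinearMap y + d) l.toContinuousLinearMap (g v) :=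
        (l.toContinuousLinearMap.hasFDerivAt).add_const d
      exact HasMFDerivAt.comp v h6.hasMFDerivAt hgd.hasMFDerivAt
    rw [← h1] at h5
    have h7 := hasMFDerivAt_unique h3 h5
    have h8 : fderiv ℝ (smH k i j) v.1 w' = l.toContinuousLinearMap
        (mfderiv (modelWithCornersSelf ℝ (EuclideanSpace ℝ (Fin 3)))
          (modelWithCornersSelf ℝ (EuclideanSpace ℝ (Fin N))) g v w) := DFunLike.congr_fun h7 w
    rw [h8, hw]
    exact map_zero _
  have h9 := injective_mvfderiv_subtypeVal_sphere (n := 3) v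
  exact (injective_iff_map_eq_zero _).1 h9 w hz

end Ver

end TightRP
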