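import Pool.Agent.Lib.MP_7cdc3e_gt.Spec
import Pool.Agent.Lib.InvDom.Manifold

/-!
# MP_7cdc3e_gt, Theorem A: a tight substantial immersion with one definite `C²` point is Veronese

Definitions and the statements of all parts, with their proofs on paper.  Paper proof: note 2501 of
helper15 (Theorem A).  Loops are replaced by chains of `SingHom`: `inU F S 1` are the 1-chains with
image in `S`, `sbd F 0` is the boundary, `IsBdry F 1 z` says that `z` is the boundary of a 2-chain.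
-/

open HoloConj Pool.Agent.Lib.SingHom

namespace TightRP

namespace Ver

/-! ## Definitions -/

/-- coordinates -/
abbrev R3 : Type := Fin 3 → ℝ

/-- the quadratic form of a matrix -/
def qf {n : ℕ} (Q : Matrix (Fin n) (Fin n) ℝ) (y : Fin n → ℝ) : ℝ := ∑ i, ∑ j, Q i j * (y i * y j)

/-- the matrix of the square of a linear form -/
def sq {n : ℕ} (p : Fin n → ℝ) : Matrix (Fin n) (Fin n) ℝ := fun i j => p i * p j

/-- positive semidefinite -/
def PSD {n : ℕ} (Q : Matrix (Fin n) (Fin n) ℝ) : Prop := Q.IsSymm ∧ ∀ y, 0 ≤ qf Q y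

/-- positive definite -/
def PD {n : ℕ} (Q : Matrix (Fin n) (Fin n) ℝ) : Prop := Q.IsSymm ∧ ∀ y, y ≠ 0 → 0 < qf Q y

/-- the singular `0`-simplex at a point -/
noncomputable def pt (F : Type) [Field F] {X : Type} [TopologicalSpace X] (x : X) : SC F X 0 :=
  Finsupp.single (ContinuousMap.const (Sx 0) x) 1

/-- a tight space of functions, of dimension at least ten, on a closed three-manifold with
`dim H_1 ≤ 1` -/
structure TSys (F : Type) [Field F] (M : Type) [TopologicalSpace M]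
    (V : Submodule ℝ (M → ℝ)) : Prop where
  t2 : T2Space M
  cpt : CompactSpace M
  pc : PathConnectedSpace M
  euc : LocEuc3 M
  rk1 : Module.rank F (Hq F 1 M) ≤ 1
  fin : FiniteDimensional ℝ V
  dim : 10 ≤ Module.finrank ℝ V
  cont : ∀ l ∈ V, Continuous l
  const : ∀ c : ℝ, (fun _ => c) ∈ V
  inj : ∀ l ∈ V, ∀ n ≤ 1, HInj F {x | 0 < l x} n
  loc : ∀ x : M, ∃ U ∈ nhds x, ∀ y ∈ U, ∀ z ∈ U, (∀ l ∈ V, l y = l z) → y = z

/-- `a` is a definite point: in a chart `g` around `a` all functions of `V` have second order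
expansions, and some `l ∈ V` with `l a = 0`, `d l = 0` has positive definite quadratic part -/
structure DefPt {M : Type} [TopologicalSpace M] (V : Submodule ℝ (M → ℝ)) (a : M) where
  g : R3 → M
  emb : Topology.IsOpenEmbedding g
  g0 : g 0 = a
  d : V →ₗ[ℝ] R3
  q : V →ₗ[ℝ] Matrix (Fin 3) (Fin 3) ℝ
  symm : ∀ l, (q l).IsSymm
  exp : ∀ l : V, (fun y : R3 => l.1 (g y) - l.1 a - ∑ i, d l i * y i - qf (q l) y)
    =o[nhds 0] (fun y => ‖y‖ ^ 2)
  pos : ∃ l : V, l.1 a = 0 ∧ d l = 0 ∧ PD (q l)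

/-- the output of steps (1) to (3) at a point `a`: the functions in `V` which are singular at `a`
are the quadratic forms in three functions `u p`, defined up to a common sign.  Here
`S p r = u(p) u(r)` for linear forms `p`, `r`. -/
structure R1Pt {M : Type} [TopologicalSpace M] (V : Submodule ℝ (M → ℝ)) (a : M) where
  S : R3 →ₗ[ℝ] R3 →ₗ[ℝ] (M → ℝ)
  mem : ∀ p r, S p r ∈ V
  rk : ∀ x, ∃ u : R3 →ₗ[ℝ] ℝ, ∀ p r, S p r x = u p * u r
  ata : ∀ p r, S p r a = 0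
  sep : ∀ x, x ≠ a → ∃ p, S p p x ≠ 0
  indep : ∀ c : Matrix (Fin 3) (Fin 3) ℝ, c.IsSymm →
    ∑ i, ∑ j, c i j • S (Pi.single i 1) (Pi.single j 1) = 0 → c = 0
  nonneg : ∀ l ∈ V, l a = 0 → (∀ x, 0 ≤ l x) → ∃ c : Matrix (Fin 3) (Fin 3) ℝ, PSD c ∧
    l = ∑ i, ∑ j, c i j • S (Pi.single i 1) (Pi.single j 1)
  d : V →ₗ[ℝ] R3
  ker : ∀ l : V, l.1 a = 0 → d l = 0 → ∃ c : Matrix (Fin 3) (Fin 3) ℝ, c.IsSymm ∧
    l.1 = ∑ i, ∑ j, c i j • S (Pi.single i 1) (Pi.single j 1)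
  grad : ∀ (l m : V) (p : R3), l.1 a = 0 → (∀ x, l.1 x ^ 2 = S p p x * m.1 x) →
    d l = Real.sqrt (m.1 a) • p ∨ d l = -(Real.sqrt (m.1 a) • p)
  locz : ∀ l ∈ V, (∀ᶠ x in nhds a, l x = 0) → l = 0

/-- the output of step (5): ten functions which span `V` and are almost `u_i u_j` -/
structure Quad {M : Type} (V : Submodule ℝ (M → ℝ)) (e : Fin 4 → Fin 4 → M → ℝ) : Prop where
  mem : ∀ i j, e i j ∈ V
  symm : ∀ i j, e i j = e j i
  span : ∀ l ∈ V, ∃ k : Matrix (Fin 4) (Fin 4) ℝ, k.IsSymm ∧ l = ∑ i, ∑ j, k i j • e i j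
  r3 : ∀ x, ∃ u : Fin 4 → ℝ, ∀ i j, i ≠ 3 → j ≠ 3 → e i j x = u i * u j
  r2 : ∀ x, ∃ u : Fin 4 → ℝ, ∀ i j, i ≠ 2 → j ≠ 2 → e i j x = u i * u j
  r1 : ∀ x, ∃ u : Fin 4 → ℝ, ∀ i j, i ≠ 1 → j ≠ 1 → e i j x = u i * u j

/-! ## H: homology language -/

/-- H1.  A path in `S` is a singular `1`-simplex (see `h0Path_simplex` in `H0Path.lean`). -/
def JoinStmt : Prop := ∀ (F : Type) [Field F] (X : Type) [TopologicalSpace X] (S : Set X)
  (x y : X), JoinedIn S x y → ∃ τ ∈ inU F S 1, sbd F 0 τ = pt F y - pt F x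

/-- H2.  Uses `H0PathStmt`, `H0LowStmt`.  If `{l > 0}` is not preconnected there is a continuous
surjection to `Fin 2`, so `rank H_0({l > 0}) ≥ 2`, but it injects in `H_0(M)` of rank `1`.  `M` is
locally path connected (`LocEuc3`), so an open preconnected nonempty set is path connected. -/
def ConnStmt : Prop := ∀ (F : Type) [Field F] (M : Type) [TopologicalSpace M]
  (V : Submodule ℝ (M → ℝ)), TSys F M V → ∀ l ∈ V, IsPreconnected {x | 0 < l x} ∧
    ∀ x y, 0 < l x → 0 < l y → JoinedIn {x | 0 < l x} x y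

/-- H3: a loop that crosses once is not a boundary.
If `σ + τ` is a boundary in `X` it is one in `Y = ↥(P ∪ R)` (lift with `exists_lift`; the class of
the lift in `H_1(Y)` goes to `0` in `H_1(X)`; `cls_eq_zero`, `Hmap_cls`).  In `Y`: subdivide:
`SS^k` of the 2-chain is `y_P + y_R` (`exists_small` or `small_boundary`), so
`SS^k σ - ∂ y_P = -(SS^k τ - ∂ y_R)` is in `inU P ⊓ inU R = inU (P ∩ R)` (`mem_inter`) and its
boundary is `SS^k (∂ σ) = ∂ σ = pt x₁ - pt x₂` (`SS` is the identity on `0`-chains; or use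
`isBdry_sub_SS_pow`; `σ` is not a cycle, use `sbd_SS`).  Let `ε : SC F Y 0 → F` be the sum of the
coefficients of the `0`-simplices in `W₁`: it vanishes on the boundary of every chain in
`inU (P ∩ R)` (the image of a `1`-simplex in `P ∩ R ⊆ W₁ ∪ W₂` is connected, so it is inside `W₁` or
inside `W₂`), but `ε (pt x₁ - pt x₂) = 1`. -/
def CrossStmt : Prop := ∀ (F : Type) [Field F] (X : Type) [TopologicalSpace X]
  (P R W₁ W₂ : Set X), IsOpen P → IsOpen R → IsOpen W₁ → IsOpen W₂ → Disjoint W₁ W₂ →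
  P ∩ R ⊆ W₁ ∪ W₂ → HInj F (P ∪ R) 1 → ∀ x₁ x₂ : X, x₁ ∈ W₁ → x₂ ∈ W₂ →
  ∀ σ ∈ inU F P 1, ∀ τ ∈ inU F R 1, sbd F 0 σ = pt F x₁ - pt F x₂ →
    sbd F 0 τ = pt F x₂ - pt F x₁ → ¬ IsBdry F 1 (σ + τ)

/-- H4.  `H_1` has rank at most one, the class of `z` is not `0`. -/
def DimStmt : Prop := ∀ (F : Type) [Field F] (X : Type) [TopologicalSpace X],
  Module.rank F (Hq F 1 X) ≤ 1 → ∀ z γ : SC F X 1, sbd F 0 z = 0 → sbd F 0 γ = 0 →
    ¬ IsBdry F 1 z → ∃ k : F, IsBdry F 1 (γ - k • z)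

/-- H5.  Uses `ContrStmt`.  `range g` is homeomorphic to `ℝ³`, so contractible; lift the cycle. -/
def BallStmt : Prop := ∀ (F : Type) [Field F] (X : Type) [TopologicalSpace X] (g : R3 → X),
  Topology.IsOpenEmbedding g → ∀ z ∈ inU F (Set.range g) 1, sbd F 0 z = 0 → IsBdry F 1 z

/-- H6.  A chain has finitely many simplices, with compact image. -/
def SuppStmt : Prop := ∀ (F : Type) [Field F] (X : Type) [TopologicalSpace X] (S : Set X) (n : ℕ),
  ∀ τ ∈ inU F S n, ∃ C : Set X, IsCompact C ∧ C ⊆ S ∧ τ ∈ inU F C n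

/-! ## S: steps (1), (2), (3) at a definite point -/

/-- S1: a nondegenerate local minimum is a strict global minimum.  Uses ConnStmt.
`l (g y) ≥ qf (q l) y - o(|y|²) ≥ c |y|² > 0` for `0 < |y| ≤ r₀` (compactness of the unit sphere gives
`qf ≥ 2 c |y|²`).  Suppose `l x ≤ 0`, `x ≠ a`.  Choose `r ≤ r₀` with `x ∉ g '' closedBall 0 r`.  On the
compact set `g '' sphere 0 r` we have `l ≥ m > 0`; `{l < m / 2} = {m / 2 - l > 0}` is preconnected,
contains `a` (in the open set `g '' ball 0 r`) and `x` (in the open complement of the compact, closed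
set `g '' closedBall 0 r`) and misses `g '' sphere 0 r`: contradiction. -/
def MaxStmt : Prop := ∀ (F : Type) [Field F] (M : Type) [TopologicalSpace M]
  (V : Submodule ℝ (M → ℝ)), TSys F M V → ∀ (a : M) (D : DefPt V a) (l : V), l.1 a = 0 →
  D.d l = 0 → PD (D.q l) → ∀ x, x ≠ a → 0 < l.1 x

/-- S2: the functions with a critical zero at `a` are the quadratic forms.  Uses MaxStmt.
`K = {l | l a = 0, d l = 0}` has dimension at least `10 - 1 - 3 = 6`.  If `l ∈ K` and `q l = 0` then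
for the `l₀` of `D.pos` and all `ε > 0` the quadratic part of `ε l₀ ± l` is positive definite, so
`ε l₀ ± l > 0` off `a`; `ε → 0` gives `l = 0`.  So `q` is injective on `K`, its values are symmetric,
a space of dimension `6`: it is bijective from `K` to the symmetric matrices, `dim K = 6`,
`dim V = 10` and `(eval a, d)` is surjective to `ℝ × ℝ³`.  `Λ Q` is the element of `K` with
`q (Λ Q) = (Q + Qᵀ) / 2`. -/
def FrmStmt : Prop := ∀ (F : Type) [Field F] (M : Type) [TopologicalSpace M]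
  (V : Submodule ℝ (M → ℝ)), TSys F M V → ∀ (a : M) (D : DefPt V a),
  Module.finrank ℝ V = 10 ∧ ∃ Λ : Matrix (Fin 3) (Fin 3) ℝ →ₗ[ℝ] V,
    (∀ Q, Q.IsSymm → D.q (Λ Q) = Q) ∧ (∀ Q, (Λ Q).1 a = 0) ∧ (∀ Q, D.d (Λ Q) = 0) ∧
    (∀ l : V, l.1 a = 0 → D.d l = 0 → Λ (D.q l) = l) ∧
    ∀ (c : ℝ) (δ : R3), ∃ l : V, l.1 a = c ∧ D.d l = δ

/-- the hypotheses of S3, S4: `l` has a critical zero at `a`, is negative (to second order) on the
plane `p = 0`, positive on the segment from `g(-t p)` to `g(t p)` except at `a` -/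
structure Sig {M : Type} [TopologicalSpace M] {V : Submodule ℝ (M → ℝ)} {a : M} (D : DefPt V a)
    (l : V) (p : R3) (t : ℝ) : Prop where
  za : l.1 a = 0
  zd : D.d l = 0
  tpos : 0 < t
  neg : ∃ c > 0, ∀ y : R3, ∑ i, p i * y i = 0 → qf (D.q l) y ≤ -c * ‖y‖ ^ 2
  seg : ∀ s : ℝ, s ≠ 0 → |s| ≤ t → 0 < l.1 (D.g (s • p))

/-- S3: loops through `a` from one side to the other are not boundaries.
Uses CrossStmt, BallStmt, SuppStmt, JoinStmt.  Let `A = {l > 0}`.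
Choose `ρ > 0` so small that `ρ < t ‖p‖`, that the compact carrier `C ⊆ A` of `τ` (SuppStmt) misses
`g '' closedBall 0 ρ` (`a ∉ C`, `C` is closed) and that `l (g y) ≤ qf (q l) y + (c / 2) ‖y‖²` for
`‖y‖ ≤ ρ` (expansion).  So `l (g y) ≤ -(c / 2) ‖y‖²` for `‖y‖ ≤ ρ`, `p · y = 0`.  Let
`δ = c ρ² / 16`, `A' = {l + δ > 0}`, `P = A' ∩ g '' ball 0 ρ`, `R = A' \ g '' closedBall 0 (ρ / 2)`,
`P ∪ R = A'` (HInj by `TSys.inj`, `l + δ ∈ V`), `W₁ = g '' {p · y > 0}`, `W₂ = g '' {p · y < 0}`; they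
are open, disjoint, and cover `P ∩ R` (a point `g y` of it has `ρ / 2 < ‖y‖ < ρ`, if `p · y = 0` then
`l (g y) ≤ -(c / 2) (ρ / 2)² < -δ`).  Let `s ‖p‖ = 3 ρ / 4`, `x₁ = g(s p)`, `x₂ = g(-s p)`.
`σ` = chain along the segment `[-s, s] p` (in `P`: `l > 0` on it except at `a`, where `l = 0 > -δ`),
`∂ σ = pt x₁ - pt x₂`.  `e₁`, `e₂` = chains along `g([s, t] p)`, `g([-t, -s] p)`, in `R` (and in `A`),
`∂ e₁ = pt g(t p) - pt x₁`, `∂ e₂ = pt x₂ - pt g(-t p)`.
With `∂ τ = pt g(-t p) - pt g(t p)`: `τ' = e₁ + τ + e₂` is in `inU R` and `∂ τ' = pt x₂ - pt x₁`, so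
`σ + τ'` is not a boundary (CrossStmt).  `κ - (e₂ + σ + e₁)` is a cycle in `range g`, so a boundary
(BallStmt); `τ + κ = (σ + τ') + (κ - (e₂ + σ + e₁))`. -/
def OddStmt : Prop := ∀ (F : Type) [Field F] (M : Type) [TopologicalSpace M]
  (V : Submodule ℝ (M → ℝ)), TSys F M V → ∀ (a : M) (D : DefPt V a) (l : V) (p : R3) (t : ℝ),
  Sig D l p t → ∀ τ ∈ inU F {x | 0 < l.1 x} 1, ∀ κ ∈ inU F (Set.range D.g) 1,
    sbd F 0 τ = pt F (D.g (-(t • p))) - pt F (D.g (t • p)) →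
    sbd F 0 κ = pt F (D.g (t • p)) - pt F (D.g (-(t • p))) → ¬ IsBdry F 1 (τ + κ)

/-- S4: cycles in `{l > 0}` are boundaries in `M`.  Uses OddStmt, ConnStmt, JoinStmt, DimStmt.
Take a chain `τ` in `{l > 0}` from `g(t p)` to `g(-t p)` and a chain `κ` in `range g` back.
`γ = τ + κ` is a cycle.  If `z` is not a boundary then `γ - k z` is one for some `k` (DimStmt), but
`γ - k z = (τ - k z) + κ` is not a boundary by OddStmt. -/
def NulStmt : Prop := ∀ (F : Type) [Field F] (M : Type) [TopologicalSpace M]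
  (V : Submodule ℝ (M → ℝ)), TSys F M V → ∀ (a : M) (D : DefPt V a) (l : V) (p : R3) (t : ℝ),
  Sig D l p t → ∀ z ∈ inU F {x | 0 < l.1 x} 1, sbd F 0 z = 0 → IsBdry F 1 z

/-- S5a: a family over the circle.  Uses FrmStmt.
Put `p θ = cos θ p₁ + sin θ p₂ ≠ 0` and `l θ = Λ (sq (p θ) - ε 1)`; `(Λ (sq (p θ))) x₁` is continuous
in `θ`, positive, periodic, so `≥ μ > 0`; `|p θ|² ≥ μ' > 0`; for small `ε > 0` we get
`l θ x₁ = (Λ (sq (p θ))) x₁ - ε (Λ 1) x₁ > 0`, `qf (q (l θ)) y = -ε |y|²` on `p θ · y = 0`,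
`qf (q (l θ)) (p θ) = |p θ|² (|p θ|² - ε) ≥ μ''`.  Uniform `t`: `Λ E_ij (g y) = y_i y_j + o(|y|²)`
(symmetrized), finitely many, coefficients of `sq (p θ) - ε 1` bounded, so
`l θ (g (s p θ)) ≥ s² μ'' - o(s²) > 0` for `0 < |s| ≤ t`, `t` independent of `θ`.
`L c i j` are the coefficients: `l θ x = ∑ C θ i j * E i j x` with `C` continuous, so
`(θ, x) ↦ l θ x` is continuous. -/
def FamStmt : Prop := ∀ (F : Type) [Field F] (M : Type) [TopologicalSpace M]
  (V : Submodule ℝ (M → ℝ)), TSys F M V → ∀ (a : M) (D : DefPt V a) (x₁ : M) (p₁ p₂ : R3),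
  (∀ α β : ℝ, (α ≠ 0 ∨ β ≠ 0) → ∀ m : V, m.1 a = 0 → D.d m = 0 →
    D.q m = sq (α • p₁ + β • p₂) → 0 < m.1 x₁) → (∀ α β : ℝ, α • p₁ + β • p₂ = 0 → α = 0 ∧ β = 0) →
  ∃ (t : ℝ) (p : ℝ → R3) (l : ℝ → V), Continuous p ∧ Continuous (fun z : ℝ × M => (l z.1).1 z.2) ∧
    (∀ θ, Sig D (l θ) (p θ) t) ∧ (∀ θ, 0 < (l θ).1 x₁) ∧ (∀ θ, p (θ + Real.pi) = -p θ) ∧
    (∀ θ, l (θ + Real.pi) = l θ)

/-- S5b: there is no such family.  Uses ConnStmt, JoinStmt, SuppStmt, BallStmt, OddStmt, NulStmt.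
Let `A θ = {l θ > 0}`.  Choose `b θ ∈ inU (A θ) 1` with `∂ = pt g(t p θ) - pt x₁` (`A θ` is path
connected) and `c θ ∈ inU (range g) 1` with `∂ = pt a - pt g(t p θ)`, `z θ = b θ + c θ`.  Let
`Rel θ θ' = IsBdry (z θ - z θ')`: symmetric and transitive.  For fixed `θ`, `Rel θ θ'` for all `θ'`
near `θ`: `b θ` is carried by a compact `C ⊆ A θ`, so `C ⊆ A θ'` for `θ'` near `θ` (tube lemma); the
segment from `t p θ` to `t p θ'` is carried by `g` into `A θ'` for `θ'` near `θ` (`l θ' (g y) > 0` for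
`(θ', y)` near `(θ, t p θ)`), let `e` be the chain along it; `b θ + e - b θ'` is a cycle in `A θ'`, a
boundary by NulStmt; `c θ - e - c θ'` is a cycle in `range g`, a boundary by BallStmt; the sum is
`z θ - z θ'`.  So `Rel 0 π` (`PreconnectedSpace.induction₂` on `ℝ`).  But
`z 0 - z π = (b 0 - b π) + (c 0 - c π)`, `b 0 - b π ∈ inU (A 0) 1` has boundary
`pt g(t p) - pt g(-t p)`, `c 0 - c π ∈ inU (range g) 1` has the opposite boundary: the negatives
contradict OddStmt. -/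
def RotStmt : Prop := ∀ (F : Type) [Field F] (M : Type) [TopologicalSpace M]
  (V : Submodule ℝ (M → ℝ)), TSys F M V → ∀ (a : M) (D : DefPt V a) (x₁ : M)
  (t : ℝ) (p : ℝ → R3) (l : ℝ → V), Continuous p → Continuous (fun z : ℝ × M => (l z.1).1 z.2) →
    (∀ θ, Sig D (l θ) (p θ) t) → (∀ θ, 0 < (l θ).1 x₁) → (∀ θ, p (θ + Real.pi) = -p θ) →
    (∀ θ, l (θ + Real.pi) = l θ) → False

/-- S6a: linear algebra.  A positive semidefinite form such that every plane contains a null vector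
is the square of a linear form.  If `L = 0` take `u = 0`.  Otherwise `qf L v > 0` for some `v`; for
every `w` the plane of `v, w` (if independent) contains `n = α v + β w`, `qf L n = 0`, so `L n = 0`
(positive semidefinite) and `β ≠ 0`: `L w` is a multiple of `L v`.  So `L = u uᵀ` with
`u = L v / sqrt (qf L v)`. -/
def RkOneStmt : Prop := ∀ L : Matrix (Fin 3) (Fin 3) ℝ, PSD L →
  (∀ p₁ p₂ : R3, (∀ α β : ℝ, α • p₁ + β • p₂ = 0 → α = 0 ∧ β = 0) →
    ∃ α β : ℝ, (α ≠ 0 ∨ β ≠ 0) ∧ qf L (α • p₁ + β • p₂) = 0) → ∃ u : R3, L = sq u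

/-- S6: assembly.  Uses MaxStmt, FrmStmt, FamStmt, RotStmt, RkOneStmt.
`S p r = Λ ((p rᵀ + r pᵀ) / 2)`; so `∑ c_ij S(e_i, e_j) = Λ c` for symmetric `c`.
If `c` is PSD then `Λ c ≥ 0`: `Λ (c + ε 1) > 0` off `a` by MaxStmt, `ε → 0`.
`rk`: for `x = a` take `u = 0`.  For `x ≠ a` let `L_ij = S(e_i, e_j) x`, so `qf L p = S p p x ≥ 0`.  If for
some independent `p₁, p₂` there were no null vector, FamStmt and RotStmt would give a contradiction
(the `m` of FamStmt is `S p p` by uniqueness).  RkOneStmt gives `L = sq u`.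
`sep`: `Λ 1 > 0` off `a` by MaxStmt.
`nonneg`: `0 ≤ l (g (s y)) = s (d l · y) + O(s²)` gives `d l = 0`; so `l = Λ (q l)` and
`0 ≤ l (g (s y)) = s² qf (q l) y + o(s²)` gives `q l` PSD.  `ker`: the same identity.
`indep`: apply `q`.  `grad`: `l(g(s y))² = (s (d l · y) + o(s))²`,
`S p p (g (s y)) = s² (p · y)² + o(s²)`, so `(d l · y)² = m(a) (p · y)²` for all `y`; if `m(a) ≤ 0`
then `d l = 0` (and `sqrt (m a) = 0`), otherwise
`((d l - √m p) · y) ((d l + √m p) · y) = 0` for all `y`, so one of the two linear forms is zero.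
`locz`: `l a = 0`, `d l = 0`, `q l = 0`, so `l = Λ 0`. -/
def R1Stmt : Prop := ∀ (F : Type) [Field F] (M : Type) [TopologicalSpace M]
  (V : Submodule ℝ (M → ℝ)), TSys F M V → ∀ a : M, Nonempty (DefPt V a) → Nonempty (R1Pt V a)

/-! ## L: linear algebra, steps (4), (5) -/

/-- L1: a linear bijection of the symmetric `2 × 2` matrices which preserves positive
semidefiniteness in both directions is a congruence.
`Φ(sq v)` is PSD and not PD: otherwise `Φ(sq v) - ε Φ(1)` is PSD for small `ε > 0`, so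
`sq v - ε 1` is PSD, false.  So `Φ(sq v) = sq g_v`, of determinant `0`.  Let `g₁, g₂` belong to
`e₁, e₂`; they are independent by injectivity.  Write
`Φ(e₁e₂ + e₂e₁) = α sq g₁ + β (g₁g₂ + g₂g₁) + γ sq g₂`.  `Φ(sq(e₁ + s e₂))` has, in the basis
`g₁, g₂`, the matrix `[[1 + s α, s β], [s β, s² + s γ]]` and determinant `0` for all `s`:
`(1 + s α)(s² + s γ) = s² β²`, so `γ = 0`, `α = 0`, `β² = 1`.  `G = (g₁, ± g₂)`. -/
def CongStmt : Prop := ∀ Φ : Matrix (Fin 2) (Fin 2) ℝ →ₗ[ℝ] Matrix (Fin 2) (Fin 2) ℝ,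
  (∀ c, c.IsSymm → (Φ c).IsSymm) → (∀ c, c.IsSymm → Φ c = 0 → c = 0) →
  (∀ c, c.IsSymm → (PSD (Φ c) ↔ PSD c)) →
  ∃ G : Matrix (Fin 2) (Fin 2) ℝ, ∀ c, c.IsSymm → Φ c = G * c * G.transpose

/-- L2, step (4): two points.  Uses CongStmt.
Let `u = u^a(b) ≠ 0` (`A.sep`), `u' = u^b(a) ≠ 0`; `p₁, p₂` a basis of `ker u`, `r₁, r₂` a basis of
`ker u'`.  For a PSD `2 × 2` matrix `c` let `l = ∑ c_ij A.S p_i p_j`: `l ≥ 0`, `l b = 0`, so
`l = ∑ c'_ij B.S e_i e_j` with `c'` PSD (`B.nonneg`); `l a = 0` gives `qf c' u' = 0` hence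
`c' u' = 0`, so `c' = ∑ d_ij r_i r_jᵀ` with `d` PSD.  `c ↦ d` is unique (`B.indep`) and additive, so it
extends to a linear `Φ` on symmetric matrices (which are spanned by PSD ones); injective by
`A.indep`; `PSD (Φ c) → PSD c`: `l ≥ 0`, `A.nonneg`, `A.indep`.  CongStmt: `Φ c = G c Gᵀ`, i.e.
`A.S p_i p_j = B.S (T p_i) (T p_j)` with `T p_i = ∑_k G_ki r_k`; `T` arbitrary on a third vector. -/
def PairStmt : Prop := ∀ (M : Type) [TopologicalSpace M] (V : Submodule ℝ (M → ℝ)) (a b : M)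
  (A : R1Pt V a) (B : R1Pt V b), a ≠ b →
  ∃ T : R3 →ₗ[ℝ] R3, ∀ p r, A.S p p b = 0 → A.S r r b = 0 → A.S p r = B.S (T p) (T r)

/-- L3, step (5): three points, `c` not on the line `ab`.  Uses PairStmt.  `ker u^a(b)`, `ker u^a(c)`
are different planes in `ℝ³`: basis `p₁` of the intersection, `p₂ ∈ ker u^a(b)`, `p₃ ∈ ker u^a(c)`.
`r₁ = T_ab p₁`, `r₂ = T_ab p₂ ∈ ker u^b(a)`; `B.S r₁ r₁ = A.S p₁ p₁` vanishes at `c`, `B.S r₂ r₂` does
not, so `ker u^b(c) ≠ ker u^b(a)`: choose `r₄ ∈ ker u^b(c)` not in `ker u^b(a)`; basis `r₁, r₂, r₄`.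
`s₁ = T_ac p₁`, `s₃ = T_ac p₃ ∈ ker u^c(a)`, `s₁' = T_bc r₁`, `s₄ = T_bc r₄ ∈ ker u^c(b)`;
`C.S s₁ s₁ = A.S p₁ p₁ = B.S r₁ r₁ = C.S s₁' s₁'`, so `s₁' = ± s₁` (`C.indep`); change the sign of
`T_bc`: `s₁' = s₁`.  With indices `0, 1, 2, 3` for `1, 2, 3, 4`:
`e_ij = A.S p_i p_j` (`i, j ≠ 3`), `e_13 = B.S r₂ r₄`, `e_03 = B.S r₁ r₄ = C.S s₁ s₄`,
`e_33 = B.S r₄ r₄ = C.S s₄ s₄`, `e_23 = C.S s₃ s₄`.  `r3` from `a`, `r2` from `b`, `r1` from `c`
(`e_00, e_01, e_11` are the same for `a` and `b`, `e_00, e_02, e_22` for `a` and `c`).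
`span`: `e_33 a ≠ 0` (`r₄ ∉ ker u^b(a)`), `e_i3 a = 0` for `i ≤ 2`, and
`e_i3² = A.S p_i p_i * e_33`, so `A.d (e_i3) = ± √(e_33 a) p_i` (`A.grad`), a basis of `ℝ³`.  Given
`l ∈ V` subtract multiples of `e_33` and `e_03, e_13, e_23`: the rest is in `A.ker`. -/
def TripStmt : Prop := ∀ (M : Type) [TopologicalSpace M] (V : Submodule ℝ (M → ℝ)) (a b c : M)
  (A : R1Pt V a) (_ : R1Pt V b) (_ : R1Pt V c), a ≠ b → a ≠ c → b ≠ c →
  (∃ p, A.S p p b = 0 ∧ A.S p p c ≠ 0) → ∃ e : Fin 4 → Fin 4 → M → ℝ, Quad V e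

/-! ## E: the end, step (6) -/

/-- E1: `{e_00 ≠ 0}` is dense.  Invariance of domain (`InvDom.isOpen_image`).
Suppose `O ⊆ {e_00 = 0}` is open, nonempty.  On `O`: `e_0j = 0` for all `j` (`e_00 = u_0²`) and
`e_ij² = e_ii e_jj`, `e_ii ≥ 0` for all `i, j`.  Shrink `O`: functions of `V` separate the points of
`O` (`TSys.loc`), `O` is the image of an open set of `ℝ³` (`TSys.euc`), and every
`e_ij`, `i < j` in `{1, 2, 3}` is either `> 0` on `O`, or `< 0` on `O`, or `= 0` on `O` (three times: if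
it is not identically zero on `O` pass to the open subset where it is positive or negative).
So `e_ij = s_ij √(e_ii e_jj)` on `O` with constants `s_ij ∈ {-1, 0, 1}` (`s_ii = 1`), all functions of
`V` are functions of `E = (e_11, e_22, e_33) : O → ℝ³` (`Quad.span`), so `E` is injective on `O` and
`E(O)` is open in `ℝ³`.  `1 = ∑ k_ij e_ij = ∑_{i,j ≥ 1} k_ij s_ij √(E_i E_j)` on `O`: for `X ∈ E(O)` and
`λ > 1` close to `1` also `λ X ∈ E(O)`, and the right side is multiplied by `λ`: contradiction. -/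
def DomStmt : Prop := ∀ (F : Type) [Field F] (M : Type) [TopologicalSpace M]
  (V : Submodule ℝ (M → ℝ)), TSys F M V → ∀ e : Fin 4 → Fin 4 → M → ℝ, Quad V e →
  Dense {x | e 0 0 x ≠ 0}

/-- E2.  Uses DomStmt.  Where `e_00 x ≠ 0` put `u_i = e_0i / √e_00`: `e_ij = u_i u_j` for
`i, j ≠ 3` (`r3`), `i, j ≠ 2` (`r2`), `i, j ≠ 1` (`r1`), which covers all pairs.  So
`e_ij e_kl = e_il e_kj` on a dense set, hence everywhere; `e_ii ≥ 0`.  Not all `e_ii x` are zero
(`e_ij² = e_ii e_jj`, `1 ∈ V`, `Quad.span`).  If `e_mm x > 0` put `u_i = e_mi / √e_mm`. -/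
def OneStmt : Prop := ∀ (F : Type) [Field F] (M : Type) [TopologicalSpace M]
  (V : Submodule ℝ (M → ℝ)), TSys F M V → ∀ e : Fin 4 → Fin 4 → M → ℝ, Quad V e →
  ∀ x, ∃ u : Fin 4 → ℝ, u ≠ 0 ∧ ∀ i j, e i j x = u i * u j

/-- E3: the map `x ↦ [u(x)]` is injective.  Uses OneStmt, ConnStmt.
Let `S` be the set of `y` with `u(y)` proportional to `v = u(x)`.  `1 = ∑ k_ij u_i u_j` on `S`, so
`u(y) = ± u(x)` and all functions of `V` are constant on `S`; there is an open `U ∋ x` with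
`S ∩ U = {x}` (`TSys.loc`).  Let `l = ∑ Q_ij e_ij`, `Q = |v|² 1 - v vᵀ`, `l ≥ 0`, `l = 0` exactly on `S`.
Choose an open `W ∋ x` with compact closure in `U` (M is compact Hausdorff), so
`l ≥ m > 0` on `closure W \ W`; `{l < m} = {m - l > 0}` is preconnected, contains `x` and `x'`, misses
`closure W \ W`, so `x' ∈ W`, `x' ∈ S ∩ U = {x}`. -/
def FibStmt : Prop := ∀ (F : Type) [Field F] (M : Type) [TopologicalSpace M]
  (V : Submodule ℝ (M → ℝ)), TSys F M V → ∀ e : Fin 4 → Fin 4 → M → ℝ, Quad V e →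
  ∀ (x x' : M) (u u' : Fin 4 → ℝ) (s : ℝ), (∀ i j, e i j x = u i * u j) →
    (∀ i j, e i j x' = u' i * u' j) → u' = s • u → x = x'

/-- E4: the end.  Uses OneStmt, FibStmt, RPTopStmt, `InvDom.surjective_of_injective`.
`h x = [u(x) / |u(x)|] ∈ RP3` is well defined (`u` is unique up to sign) and continuous: near `x₀`
choose `m` with `e_mm x₀ > 0`, then `u(x) = (e_mi / √e_mm)_i` is continuous near `x₀`, compose with the
quotient map.  Injective by FibStmt, so surjective (invariance of domain), a homeomorphism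
(`M` compact, `RP3` Hausdorff); `φ = h⁻¹`.  `1 = ∑ k_ij e_ij` with `k` symmetric; for `x = φ [v]`,
`u(x) = s v`, `s ≠ 0`, `1 = s² qf k v`, so `qf k v > 0` for all unit `v` (`k` is positive definite) and
`e_ij (φ [v]) = s² v_i v_j = v_i v_j / qf k v`. -/
def HomStmt : Prop := ∀ (F : Type) [Field F] (M : Type) [TopologicalSpace M]
  (V : Submodule ℝ (M → ℝ)), TSys F M V → ∀ e : Fin 4 → Fin 4 → M → ℝ, Quad V e →
  ∃ (φ : RP3 ≃ₜ M) (k : Matrix (Fin 4) (Fin 4) ℝ), PD k ∧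
    ∀ (v : Metric.sphere (0 : EuclideanSpace ℝ (Fin 4)) 1) (i j : Fin 4),
      e i j (φ (Quotient.mk antipodal v)) = v.1 i * v.1 j / qf k v.1.ofLp

/-! ## C: `C²` charts, step (7) -/

/-- the affine functions of `f` -/
def aff {M : Type} {N : ℕ} (f : M → EuclideanSpace ℝ (Fin N)) : Submodule ℝ (M → ℝ) where
  carrier := {h | ∃ (l : EuclideanSpace ℝ (Fin N) →ₗ[ℝ] ℝ) (c : ℝ), h = fun x => l (f x) + c}
  add_mem' := by
    rintro _ _ ⟨l, c, rfl⟩ ⟨l', c', rfl⟩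
    exact ⟨l + l', c + c', by funext x; simp only [Pi.add_apply, LinearMap.add_apply]; ring⟩
  zero_mem' := ⟨0, 0, by funext x; simp⟩
  smul_mem' := by
    rintro r _ ⟨l, c, rfl⟩
    exact ⟨r • l, r * c, by
      funext x
      simp only [Pi.smul_apply, LinearMap.smul_apply, smul_eq_mul]
      ring⟩

/-- there is a chart in which `f` is of class `C²` and in which some linear function of `f` has a
nondegenerate local extremum: the first derivative vanishes and the second is positive definite -/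
def DefiniteC2 {M : Type} [TopologicalSpace M] {N : ℕ} (f : M → EuclideanSpace ℝ (Fin N)) : Prop :=
  ∃ (e : OpenPartialHomeomorph M (EuclideanSpace ℝ (Fin 3))) (y₀ : EuclideanSpace ℝ (Fin 3))
    (l : EuclideanSpace ℝ (Fin N) →ₗ[ℝ] ℝ), y₀ ∈ e.target ∧
    ContDiffOn ℝ 2 (fun y => f (e.symm y)) e.target ∧
    fderiv ℝ (fun y => l (f (e.symm y))) y₀ = 0 ∧
    ∀ v, v ≠ 0 → 0 < iteratedFDeriv ℝ 2 (fun y => l (f (e.symm y))) y₀ ![v, v]

/-- C1: the system of a map.  `Continuous f` follows from nothing: it is a hypothesis.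
`inj` for constants: `{0 < c}` is `univ` or `∅` (`H_n(∅) = 0`: `SC F ∅ n` is zero).
`dim = N + 1` since `(l, c) ↦ l ∘ f + c` is injective by `Substantial`. -/
def SysStmt : Prop := ∀ (F : Type) [Field F] (M : Type) [TopologicalSpace M] [T2Space M]
  [CompactSpace M] [PathConnectedSpace M], LocEuc3 M → Module.rank F (Hq F 1 M) ≤ 1 →
  ∀ (N : ℕ) (f : M → EuclideanSpace ℝ (Fin N)), 9 ≤ N → Continuous f → LocInj f → Substantial f →
  TightUpTo 1 F f → TSys F M (aff f) ∧ Module.finrank ℝ (aff f) = N + 1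

/-- C2: a global chart.  Compose with `OpenPartialHomeomorph.univBall y₀ r` (a smooth
diffeomorphism of the whole space with the ball, Mathlib) and with the coordinates
`(Fin 3 → ℝ) ≃ EuclideanSpace ℝ (Fin 3)`.  At a critical point the second derivative is transformed
by the (invertible) first derivative of the change of chart. -/
def GloStmt : Prop := ∀ (M : Type) [TopologicalSpace M] (N : ℕ)
  (f : M → EuclideanSpace ℝ (Fin N)), DefiniteC2 f →
  ∃ (g : R3 → M) (l : EuclideanSpace ℝ (Fin N) →ₗ[ℝ] ℝ), Topology.IsOpenEmbedding g ∧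
    ContDiff ℝ 2 (fun y => f (g y)) ∧ fderiv ℝ (fun y => l (f (g y))) 0 = 0 ∧
    ∀ v, v ≠ 0 → 0 < iteratedFDeriv ℝ 2 (fun y => l (f (g y))) 0 ![v, v]

/-- C3: Taylor.  At `y₀` use the chart `y ↦ g (y₀ + y)`; `d`, `q` are the gradient and half of the
second derivative.  `φ(y) = h(y₀ + y) - h(y₀) - h'(y₀) y - h''(y₀)(y, y) / 2` has
`φ'(y) = h'(y₀ + y) - h'(y₀) - h''(y₀)(y, ·) = o(|y|)`, so `φ = o(|y|²)` by the mean value inequality. -/
def TayStmt : Prop := ∀ (M : Type) [TopologicalSpace M] (N : ℕ)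
  (f : M → EuclideanSpace ℝ (Fin N)) (g : R3 → M) (l : EuclideanSpace ℝ (Fin N) →ₗ[ℝ] ℝ) (y₀ : R3),
  Topology.IsOpenEmbedding g → ContDiff ℝ 2 (fun y => f (g y)) →
  fderiv ℝ (fun y => l (f (g y))) y₀ = 0 →
  (∀ v, v ≠ 0 → 0 < iteratedFDeriv ℝ 2 (fun y => l (f (g y))) y₀ ![v, v]) →
  ∃ D : DefPt (aff f) (g y₀), (∀ y, D.g y = g (y₀ + y)) ∧
    ∀ (m : EuclideanSpace ℝ (Fin N) →ₗ[ℝ] ℝ) (c : ℝ) (v : R3),
      ∑ i, D.d ⟨fun x => m (f x) + c, m, c, rfl⟩ i * v i = fderiv ℝ (fun y => m (f (g y))) y₀ v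

/-- C4: the definite points form an open set.  Uses FrmStmt, TayStmt.
At `0` the differentials of the functions `m ∘ f ∘ g` are all of `(ℝ³)*` (FrmStmt), choose
`m₁, m₂, m₃` with independent differentials at `0`.  For `y₀` near `0` there are coefficients
`c_i(y₀) → 0` such that `l + ∑ c_i(y₀) m_i` is critical at `y₀` (Cramer), and its second derivative
is close to that of `l` at `0`, positive definite. -/
def NbhStmt : Prop := ∀ (F : Type) [Field F] (M : Type) [TopologicalSpace M] (N : ℕ)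
  (f : M → EuclideanSpace ℝ (Fin N)), TSys F M (aff f) →
  ∀ (g : R3 → M) (l : EuclideanSpace ℝ (Fin N) →ₗ[ℝ] ℝ), Topology.IsOpenEmbedding g →
  ContDiff ℝ 2 (fun y => f (g y)) → fderiv ℝ (fun y => l (f (g y))) 0 = 0 →
  (∀ v, v ≠ 0 → 0 < iteratedFDeriv ℝ 2 (fun y => l (f (g y))) 0 ![v, v]) →
  ∀ᶠ x in nhds (g 0), Nonempty (DefPt (aff f) x)

/-- C5: three points.  Uses R1Stmt, NbhStmt, GloStmt, TripStmt.
`a = g 0`; `b` a definite point, `b ≠ a`; `u = u^a(b)`, choose `p ≠ 0` with `u p = 0`.  `A.S p p` is not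
zero (`A.indep`), so it is not zero in a neighbourhood of `a` (`A.locz`): there is a definite point
`c` with `A.S p p c ≠ 0`; `c ≠ a`, `c ≠ b`. -/
def QuadStmt : Prop := ∀ (F : Type) [Field F] (M : Type) [TopologicalSpace M] (N : ℕ)
  (f : M → EuclideanSpace ℝ (Fin N)), TSys F M (aff f) → DefiniteC2 f →
  ∃ e : Fin 4 → Fin 4 → M → ℝ, Quad (aff f) e

/-! ## Z: the theorem -/

/-- `f ∘ φ` is a smooth immersion of the projective space: its lift to the unit sphere of `ℝ⁴` is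
`C^∞` and has injective differential -/
def SmoothImm {N : ℕ} (f : RP3 → EuclideanSpace ℝ (Fin N)) (φ : RP3 ≃ₜ RP3) : Prop :=
  ContMDiff (modelWithCornersSelf ℝ (EuclideanSpace ℝ (Fin 3)))
    (modelWithCornersSelf ℝ (EuclideanSpace ℝ (Fin N))) (⊤ : ℕ∞)
    (fun v : Metric.sphere (0 : EuclideanSpace ℝ (Fin 4)) 1 => f (φ (Quotient.mk antipodal v))) ∧
  ∀ v, Function.Injective (mfderiv (modelWithCornersSelf ℝ (EuclideanSpace ℝ (Fin 3)))
    (modelWithCornersSelf ℝ (EuclideanSpace ℝ (Fin N)))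
    (fun v : Metric.sphere (0 : EuclideanSpace ℝ (Fin 4)) 1 => f (φ (Quotient.mk antipodal v))) v)

/-- Z1: the Veronese embedding is a smooth immersion.  `f (φ [v]) i = qf (c i) v / qf k v` is smooth
near the sphere.  Injective differential: `v_i v_j / qf k v` are affine functions of `f (φ [v])`
(hypothesis `hb`), so if the differential of `f ∘ φ` kills the tangent vector `w ⟂ v` then
`v wᵀ + w vᵀ = λ v vᵀ`, hence `w` is a multiple of `v`, `w = 0`. -/
def SmoStmt : Prop := ∀ (N : ℕ) (f : RP3 → EuclideanSpace ℝ (Fin N)) (φ : RP3 ≃ₜ RP3)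
  (k : Matrix (Fin 4) (Fin 4) ℝ) (e : Fin 4 → Fin 4 → RP3 → ℝ), PD k → Quad (aff f) e →
  (∀ (v : Metric.sphere (0 : EuclideanSpace ℝ (Fin 4)) 1) (i j : Fin 4),
      e i j (φ (Quotient.mk antipodal v)) = v.1 i * v.1 j / qf k v.1.ofLp) →
  SmoothImm f φ

end Ver

end TightRP
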