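import Pool.Agent.Lib.MP_7cdc3e_gt.A.Spec

/-!
# Theorem A, H6: chains have compact carriers
-/

open HoloConj Pool.Agent.Lib.SingHom

namespace TightRP

namespace Ver

theorem tSupp : SuppStmt := by
  intro F _ X _ S n τ hτ
  have h1 : τ ∈ Finsupp.supported F F {σ : C(Sx n, X) | ∀ t, σ t ∈ S} := hτ
  rw [Finsupp.mem_supported] at h1
  refine ⟨⋃ σ ∈ τ.support, Set.range σ, ?_, ?_, ?_⟩
  · exact τ.support.isCompact_biUnion (fun σ _ => isCompact_range σ.continuous)
  · intro x hx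
    simp only [Set.mem_iUnion] at hx
    obtain ⟨σ, hσ, t, rfl⟩ := hx
    exact h1 hσ t
  · have h2 : τ ∈ Finsupp.supported F F
        {σ : C(Sx n, X) | ∀ t, σ t ∈ ⋃ σ ∈ τ.support, Set.range σ} := by
      rw [Finsupp.mem_supported]
      intro σ hσ t
      exact Set.mem_iUnion₂.2 ⟨σ, hσ, t, rfl⟩
    exact h2

end Ver

end TightRP
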