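import Pool.Agent.Lib.MP_7cdc3e_gt.A.Spec

/-!
# MP_7cdc3e_gt, Theorem A, module C1 (Sys): the system of affine functions of a tight map
-/

open HoloConj Pool.Agent.Lib.SingHom

namespace TightRP

namespace Ver

/-- the linear map `(l, c) ↦ l ∘ f + c` -/
noncomputable def sysMap {M : Type} {N : ℕ} (f : M → EuclideanSpace ℝ (Fin N)) :
    ((EuclideanSpace ℝ (Fin N) →ₗ[ℝ] ℝ) × ℝ) →ₗ[ℝ] (M → ℝ) where
  toFun p := fun x => p.1 (f x) + p.2
  map_add' p q := by
    funext x
    simp only [Prod.fst_add, Prod.snd_add, LinearMap.add_apply, Pi.add_apply]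
    ring
  map_smul' r p := by
    funext x
    simp only [Prod.smul_fst, Prod.smul_snd, LinearMap.smul_apply, smul_eq_mul, RingHom.id_apply,
      Pi.smul_apply]
    ring

theorem sysMap_range {M : Type} {N : ℕ} (f : M → EuclideanSpace ℝ (Fin N)) :
    LinearMap.range (sysMap f) = aff f := by
  ext h
  constructor
  · rintro ⟨p, rfl⟩
    exact ⟨p.1, p.2, rfl⟩
  · rintro ⟨l, c, rfl⟩
    exact ⟨(l, c), rfl⟩

theorem sysMap_inj {M : Type} [Nonempty M] {N : ℕ} (f : M → EuclideanSpace ℝ (Fin N))
    (hs : Substantial f) : Function.Injective (sysMap f) := by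
  rw [injective_iff_map_eq_zero]
  rintro ⟨l, c⟩ h
  have h1 : ∀ x, l (f x) + c = 0 := fun x => congrFun h x
  have hl : l = 0 := hs l (-c) (fun x => by linarith [h1 x])
  obtain ⟨x⟩ := ‹Nonempty M›
  have h2 := h1 x
  rw [hl, LinearMap.zero_apply, zero_add] at h2
  rw [hl, h2]
  rfl

theorem sys_finrank {M : Type} [Nonempty M] {N : ℕ} (f : M → EuclideanSpace ℝ (Fin N))
    (hs : Substantial f) : Module.finrank ℝ (aff f) = N + 1 := by
  rw [← sysMap_range, LinearMap.finrank_range_of_inj (sysMap_inj f hs), Module.finrank_prod,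
    Module.finrank_self]
  have : Module.finrank ℝ (EuclideanSpace ℝ (Fin N) →ₗ[ℝ] ℝ) = N := by
    have := Subspace.dual_finrank_eq (K := ℝ) (V := EuclideanSpace ℝ (Fin N))
    rw [finrank_euclideanSpace_fin] at this
    exact this
  rw [this]

theorem sys_finite {M : Type} {N : ℕ} (f : M → EuclideanSpace ℝ (Fin N)) :
    FiniteDimensional ℝ (aff f) := by
  rw [← sysMap_range]
  infer_instance

theorem sys_hinj_univ (F : Type) [Field F] (M : Type) [TopologicalSpace M] (n : ℕ) :
    HInj F (Set.univ : Set M) n := by
  let g : C(M, ↥(Set.univ : Set M)) :=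
    ⟨fun x => ⟨x, Set.mem_univ x⟩, continuous_id.subtype_mk _⟩
  have h1 : g.comp (incl (Set.univ : Set M)) = ContinuousMap.id _ := by
    ext x
    rfl
  unfold HInj
  apply Function.LeftInverse.injective (g := Hmap F n g)
  intro c
  rw [← Hmap_comp_apply, h1, Hmap_id]
  rfl

theorem sys_hinj_empty (F : Type) [Field F] (M : Type) [TopologicalSpace M] (n : ℕ) :
    HInj F (∅ : Set M) n := by
  have he : IsEmpty C(Sx n, ↥(∅ : Set M)) := by
    refine ⟨fun σ => ?_⟩
    have : Nonempty (Sx n) := inferInstance
    obtain ⟨s⟩ := this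
    exact (σ s).2
  have hz : ∀ c : Hq F n ↥(∅ : Set M), c = 0 := by
    intro c
    obtain ⟨z, rfl⟩ := cls_surjective F n c
    have : z = 0 := by
      apply Subtype.ext
      apply Finsupp.ext
      intro σ
      exact (he.false σ).elim
    rw [this, map_zero]
  intro c c' _
  rw [hz c, hz c']

theorem tSys : SysStmt := by
  intro F _ M _ _ _ _ hE hR N f hN hf hi hs ht
  have hne : Nonempty M := inferInstance
  have hdim := sys_finrank f hs
  refine ⟨?_, hdim⟩
  exact {
    t2 := inferInstance
    cpt := inferInstance
    pc := inferInstance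
    euc := hE
    rk1 := hR
    fin := sys_finite f
    dim := by omega
    cont := by
      rintro _ ⟨l, c, rfl⟩
      have := LinearMap.continuous_of_finiteDimensional l
      fun_prop
    const := fun c => ⟨0, c, by funext x; simp⟩
    inj := by
      rintro _ ⟨l, c, rfl⟩ n hn
      by_cases hl : l = 0
      · subst hl
        by_cases hc : 0 < c
        · have : {x : M | 0 < (0 : EuclideanSpace ℝ (Fin N) →ₗ[ℝ] ℝ) (f x) + c} = Set.univ := by
            apply Set.eq_univ_of_forall
            intro x
            show 0 < (0 : EuclideanSpace ℝ (Fin N) →ₗ[ℝ] ℝ) (f x) + c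
            rw [LinearMap.zero_apply, zero_add]
            exact hc
          rw [this]
          exact sys_hinj_univ F M n
        · have : {x : M | 0 < (0 : EuclideanSpace ℝ (Fin N) →ₗ[ℝ] ℝ) (f x) + c} = ∅ := by
            apply Set.eq_empty_of_forall_notMem
            intro x hx
            have hx' : 0 < (0 : EuclideanSpace ℝ (Fin N) →ₗ[ℝ] ℝ) (f x) + c := hx
            rw [LinearMap.zero_apply, zero_add] at hx'
            exact hc hx'
          rw [this]
          exact sys_hinj_empty F M n
      · have : {x : M | 0 < l (f x) + c} = {x : M | -c < l (f x)} := by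
          ext x
          constructor
          · intro h
            have h' : 0 < l (f x) + c := h
            show -c < l (f x)
            linarith
          · intro h
            have h' : -c < l (f x) := h
            show 0 < l (f x) + c
            linarith
        rw [this]
        exact ht l (-c) hl n hn
    loc := by
      intro x
      obtain ⟨U, hU, hinj⟩ := hi x
      refine ⟨U, hU, ?_⟩
      intro y hy z hz h
      apply hinj hy hz
      ext i
      have := h (fun x => (EuclideanSpace.proj i : EuclideanSpace ℝ (Fin N) →L[ℝ] ℝ).toLinearMap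
        (f x) + 0) ⟨_, 0, rfl⟩
      simpa using this }

end Ver

end TightRP
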