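import Pool.Agent.Lib.MP_7cdc3e_gt.A.Spec

/-!
# MP_7cdc3e_gt, Theorem A, module Tay: the second order Taylor expansion gives a definite point
-/

open HoloConj Pool.Agent.Lib.SingHom

namespace TightRP

namespace Ver

open Asymptotics Filter

private theorem tay_lin (L : R3 →L[ℝ] ℝ) (y : R3) : ∑ i, L (Pi.single i 1) * y i = L y := by
  conv_rhs => rw [← Finset.univ_sum_single y]
  rw [map_sum]
  refine Finset.sum_congr rfl fun i _ => ?_
  have : (Pi.single i (y i) : R3) = y i • (Pi.single i 1 : R3) := by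
    rw [← Pi.single_smul, smul_eq_mul, mul_one]
  rw [this, map_smul, smul_eq_mul, mul_comm]

private theorem tay_bil (B : R3 →L[ℝ] R3 →L[ℝ] ℝ) (y : R3) :
    ∑ i, ∑ j, (1 / 2 * B (Pi.single i 1) (Pi.single j 1)) * (y i * y j) = 1 / 2 * B y y := by
  have h1 : ∀ j, B y (Pi.single j 1) = ∑ i, B (Pi.single i 1) (Pi.single j 1) * y i := by
    intro j
    have := tay_lin (B.flip (Pi.single j 1)) y
    simp only [ContinuousLinearMap.flip_apply] at this
    exact this.symm
  rw [← tay_lin (B y) y, Finset.sum_comm, Finset.mul_sum]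
  refine Finset.sum_congr rfl fun j _ => ?_
  rw [h1, Finset.sum_mul, Finset.mul_sum]
  refine Finset.sum_congr rfl fun i _ => ?_
  ring

/-- the second order expansion of a `C²` function -/
private theorem tay_expand (H : R3 → ℝ) (y₀ : R3) (hH : ContDiff ℝ 2 H) :
    (fun y : R3 => H (y₀ + y) - H y₀ - fderiv ℝ H y₀ y - 1 / 2 * fderiv ℝ (fderiv ℝ H) y₀ y y)
      =o[nhds 0] (fun y => ‖y‖ ^ 2) := by
  set B : R3 →L[ℝ] R3 →L[ℝ] ℝ := fderiv ℝ (fderiv ℝ H) y₀ with hB
  have hsym : ∀ v w, B v w = B w v := by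
    have h := (hH.contDiffAt (x := y₀)).isSymmSndFDerivAt (by simp)
    intro v w
    exact h v w
  have hd : Differentiable ℝ H := hH.differentiable (by norm_num)
  have hd2 : Differentiable ℝ (fderiv ℝ H) :=
    (hH.fderiv_right (m := 1) (by norm_num)).differentiable (by norm_num)
  set φ : R3 → ℝ := fun y => H (y₀ + y) - H y₀ - fderiv ℝ H y₀ y - 1 / 2 * B y y with hφ
  have hφ' : ∀ y, HasFDerivAt φ (fderiv ℝ H (y₀ + y) - fderiv ℝ H y₀ - B y) y := by
    intro y
    have k1 : HasFDerivAt (fun y => H (y₀ + y)) (fderiv ℝ H (y₀ + y)) y := by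
      have := (hd (y₀ + y)).hasFDerivAt.comp y ((hasFDerivAt_id y).const_add y₀)
      rw [ContinuousLinearMap.comp_id] at this
      exact this
    have k2 : HasFDerivAt (fun y => B y y) ((B y).comp (ContinuousLinearMap.id ℝ R3) + B.flip y) y :=
      B.hasFDerivAt.clm_apply (hasFDerivAt_id y)
    have k3 : HasFDerivAt (fun y => 1 / 2 * B y y) (B y) y := by
      have := k2.const_mul (1 / 2 : ℝ)
      refine this.congr_fderiv ?_
      ext w
      simp only [smul_apply, add_apply,
        ContinuousLinearMap.comp_apply, ContinuousLinearMap.flip_apply, smul_eq_mul]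
      rw [ContinuousLinearMap.id_apply, hsym w y]
      ring
    exact ((k1.sub_const (H y₀)).sub (fderiv ℝ H y₀).hasFDerivAt).sub k3
  have hφ0 : φ 0 = 0 := by simp [hφ]
  have hlit := hasFDerivAt_iff_isLittleO_nhds_zero.mp (hd2 y₀).hasFDerivAt
  rw [isLittleO_iff] at hlit ⊢
  intro c hc
  have h1 := hlit hc
  rw [Metric.eventually_nhds_iff_ball] at h1 ⊢
  obtain ⟨ε, hε, h1⟩ := h1
  refine ⟨ε, hε, fun y hy => ?_⟩
  have h2 := (convex_closedBall (0 : R3) ‖y‖).norm_image_sub_le_of_norm_hasFDerivWithin_le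
    (f := φ) (f' := fun z => fderiv ℝ H (y₀ + z) - fderiv ℝ H y₀ - B z) (C := c * ‖y‖)
    (x := 0) (y := y) (fun z _ => (hφ' z).hasFDerivWithinAt) (by
      intro z hz
      rw [mem_closedBall_zero_iff] at hz
      have h3 : z ∈ Metric.ball (0 : R3) ε := by
        rw [mem_ball_zero_iff] at hy ⊢
        exact lt_of_le_of_lt hz hy
      refine (h1 z h3).trans ?_
      gcongr) (by simp) (by simp)
  rw [hφ0, sub_zero, sub_zero] at h2
  refine h2.trans (le_of_eq ?_)
  rw [norm_pow, norm_norm]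
  ring

variable {M : Type} {N : ℕ} {f : M → EuclideanSpace ℝ (Fin N)} {g : R3 → M}

private theorem tay_cd (hf : ContDiff ℝ 2 (fun y => f (g y))) (m : EuclideanSpace ℝ (Fin N) →ₗ[ℝ] ℝ)
    (c : ℝ) : ContDiff ℝ 2 (fun y => m (f (g y)) + c) := by
  have h1 : ContDiff ℝ 2 (fun y => m.toContinuousLinearMap (f (g y))) :=
    m.toContinuousLinearMap.contDiff.comp hf
  exact h1.add contDiff_const

private theorem tay_cdV (hf : ContDiff ℝ 2 (fun y => f (g y))) (h : aff f) :
    ContDiff ℝ 2 (fun y => h.1 (g y)) := by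
  obtain ⟨h, m, c, rfl⟩ := h
  exact tay_cd hf m c

private theorem tay_fd_add {H K : R3 → ℝ} (hH : ContDiff ℝ 2 H) (hK : ContDiff ℝ 2 K) :
    fderiv ℝ (H + K) = fderiv ℝ H + fderiv ℝ K := by
  funext y
  exact fderiv_add (hH.differentiable (by norm_num) y) (hK.differentiable (by norm_num) y)

private theorem tay_fd_smul {H : R3 → ℝ} (hH : ContDiff ℝ 2 H) (r : ℝ) :
    fderiv ℝ (r • H) = r • fderiv ℝ H := by
  funext y
  exact fderiv_const_smul (hH.differentiable (by norm_num) y) r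

private theorem tay_dd {H : R3 → ℝ} (hH : ContDiff ℝ 2 H) : Differentiable ℝ (fderiv ℝ H) :=
  (hH.fderiv_right (m := 1) (by norm_num)).differentiable (by norm_num)

/-- the gradient -/
private noncomputable def tayD (hf : ContDiff ℝ 2 (fun y => f (g y))) (y₀ : R3) : aff f →ₗ[ℝ] R3 where
  toFun h := fun i => fderiv ℝ (fun y => h.1 (g y)) y₀ (Pi.single i 1)
  map_add' h h' := by
    funext i
    have e : (fun y => (h + h').1 (g y)) = (fun y => h.1 (g y)) + (fun y => h'.1 (g y)) := rfl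
    rw [e, tay_fd_add (tay_cdV hf h) (tay_cdV hf h')]
    rfl
  map_smul' r h := by
    funext i
    have e : (fun y => (r • h).1 (g y)) = r • (fun y => h.1 (g y)) := rfl
    rw [e, tay_fd_smul (tay_cdV hf h)]
    rfl

/-- half of the second derivative -/
private noncomputable def tayQ (hf : ContDiff ℝ 2 (fun y => f (g y))) (y₀ : R3) :
    aff f →ₗ[ℝ] Matrix (Fin 3) (Fin 3) ℝ where
  toFun h := fun i j => 1 / 2 * fderiv ℝ (fderiv ℝ (fun y => h.1 (g y))) y₀ (Pi.single i 1) (Pi.single j 1)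
  map_add' h h' := by
    funext i j
    have e : (fun y => (h + h').1 (g y)) = (fun y => h.1 (g y)) + (fun y => h'.1 (g y)) := rfl
    rw [e, tay_fd_add (tay_cdV hf h) (tay_cdV hf h'),
      fderiv_add (tay_dd (tay_cdV hf h) y₀) (tay_dd (tay_cdV hf h') y₀)]
    simp only [add_apply, Matrix.add_apply]
    ring
  map_smul' r h := by
    funext i j
    have e : (fun y => (r • h).1 (g y)) = r • (fun y => h.1 (g y)) := rfl
    rw [e, tay_fd_smul (tay_cdV hf h), fderiv_const_smul (tay_dd (tay_cdV hf h) y₀)]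
    simp only [smul_apply, Matrix.smul_apply, smul_eq_mul, RingHom.id_apply]
    ring

private theorem tay_qf (hf : ContDiff ℝ 2 (fun y => f (g y))) (y₀ : R3) (h : aff f) (y : R3) :
    qf (tayQ hf y₀ h) y = 1 / 2 * fderiv ℝ (fderiv ℝ (fun y => h.1 (g y))) y₀ y y := by
  rw [← tay_bil]
  rfl

private theorem tay_symm (hf : ContDiff ℝ 2 (fun y => f (g y))) (y₀ : R3) (h : aff f) :
    (tayQ hf y₀ h).IsSymm := by
  ext i j
  have hs := ((tay_cdV hf h).contDiffAt (x := y₀)).isSymmSndFDerivAt (by simp)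
  rw [Matrix.transpose_apply]
  change 1 / 2 * fderiv ℝ (fderiv ℝ (fun y => h.1 (g y))) y₀ (Pi.single j 1) (Pi.single i 1) =
    1 / 2 * fderiv ℝ (fderiv ℝ (fun y => h.1 (g y))) y₀ (Pi.single i 1) (Pi.single j 1)
  rw [hs]

private theorem tay_fd_const (m : EuclideanSpace ℝ (Fin N) →ₗ[ℝ] ℝ) (c : ℝ) :
    fderiv ℝ (fun y => m (f (g y)) + c) = fderiv ℝ (fun y => m (f (g y))) := by
  funext y
  exact fderiv_add_const c

theorem tTay : TayStmt := by
  intro M _ N f g l y₀ hg hf hl1 hl2
  refine ⟨{ g := fun y => g (y₀ + y)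
            emb := hg.comp (Homeomorph.addLeft y₀).isOpenEmbedding
            g0 := by rw [add_zero]
            d := tayD hf y₀
            q := tayQ hf y₀
            symm := fun h => tay_symm hf y₀ h
            exp := ?_
            pos := ?_ }, fun y => rfl, fun m c v => ?_⟩
  · intro h
    have h1 := tay_expand (fun y => h.1 (g y)) y₀ (tay_cdV hf h)
    refine h1.congr_left fun y => ?_
    rw [tay_qf, ← tay_lin (fderiv ℝ (fun y => h.1 (g y)) y₀) y]
    rfl
  · refine ⟨⟨fun x => l (f x) + -(l (f (g y₀))), l, -(l (f (g y₀))), rfl⟩, ?_, ?_, tay_symm hf y₀ _, ?_⟩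
    · exact add_neg_cancel _
    · funext i
      change fderiv ℝ (fun y => l (f (g y)) + -(l (f (g y₀)))) y₀ (Pi.single i 1) = 0
      rw [tay_fd_const, hl1]
      rfl
    · intro y hy
      rw [tay_qf]
      have h1 := hl2 y hy
      rw [iteratedFDeriv_two_apply] at h1
      have e : fderiv ℝ (fderiv ℝ (fun y => l (f (g y)) + -(l (f (g y₀))))) y₀ y y =
          fderiv ℝ (fderiv ℝ (fun y => l (f (g y)))) y₀ y y := by rw [tay_fd_const]
      have h2 : 0 < fderiv ℝ (fderiv ℝ (fun y => l (f (g y)))) y₀ y y := h1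
      change 0 < 1 / 2 * fderiv ℝ (fderiv ℝ (fun y => l (f (g y)) + -(l (f (g y₀))))) y₀ y y
      rw [e]
      positivity
  · change ∑ i, fderiv ℝ (fun y => m (f (g y)) + c) y₀ (Pi.single i 1) * v i = _
    rw [tay_fd_const, tay_lin]

end Ver

end TightRP
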