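import Pool.Agent.Lib.MP_7cdc3e_gt.A.Spec

/-!
# MP_7cdc3e_gt, Theorem A, step (5): three definite points
-/

open HoloConj Pool.Agent.Lib.SingHom

namespace TightRP

namespace Ver

private theorem trip_ker (u v : R3 →ₗ[ℝ] ℝ) : ∃ p : R3, p ≠ 0 ∧ u p = 0 ∧ v p = 0 := by
  have h := LinearMap.ker_ne_bot_of_finrank_lt (f := u.prod v) (by simp)
  obtain ⟨p, hp, hp0⟩ := (Submodule.ne_bot_iff _).1 h
  have h1 := LinearMap.mem_ker.1 hp
  exact ⟨p, hp0, congrArg Prod.fst h1, congrArg Prod.snd h1⟩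

/-- a vector with prescribed zero -/
private theorem trip_shift (u v : R3 →ₗ[ℝ] ℝ) (p q : R3) (hp : u p = 0) (hvp : v p ≠ 0)
    (hq : u q ≠ 0) : ∃ r : R3, v r = 0 ∧ u r ≠ 0 := by
  refine ⟨q - (v q / v p) • p, ?_, ?_⟩
  · rw [map_sub, map_smul, smul_eq_mul, div_mul_cancel₀ _ hvp, sub_self]
  · rw [map_sub, map_smul, hp, smul_zero, sub_zero]
    exact hq

section

variable {M : Type} [TopologicalSpace M] {V : Submodule ℝ (M → ℝ)}

private theorem trip_expand {a : M} (A : R1Pt V a) (p r : R3) :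
    A.S p r = ∑ i, ∑ j, (p i * r j) • A.S (Pi.single i 1) (Pi.single j 1) := by
  have hs : ∀ q : R3, q = ∑ i, q i • (Pi.single i 1 : R3) := by
    intro q
    ext k
    simp [Finset.sum_apply, Pi.single_apply]
  conv_lhs => rw [hs p, hs r]
  simp only [map_sum, map_smul, LinearMap.sum_apply, LinearMap.smul_apply, Finset.smul_sum, smul_smul]
  rw [Finset.sum_comm]
  refine Finset.sum_congr rfl fun i _ => Finset.sum_congr rfl fun j _ => ?_
  rw [mul_comm]

private theorem trip_sign {a : M} (A : R1Pt V a) (s s' : R3) (h : A.S s s = A.S s' s') :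
    s' = s ∨ s' = -s := by
  have h0 : (fun i j => s i * s j - s' i * s' j : Matrix (Fin 3) (Fin 3) ℝ) = 0 := by
    apply A.indep
    · ext i j
      change s j * s i - s' j * s' i = s i * s j - s' i * s' j
      ring
    · have h1 := trip_expand A s s
      have h2 := trip_expand A s' s'
      have h3 : A.S s s - A.S s' s' = 0 := sub_eq_zero.2 h
      rw [h1, h2, ← Finset.sum_sub_distrib] at h3
      rw [← h3]
      refine Finset.sum_congr rfl fun i _ => ?_
      rw [← Finset.sum_sub_distrib]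
      refine Finset.sum_congr rfl fun j _ => ?_
      rw [sub_smul]
  have h1 : ∀ i j, s i * s j = s' i * s' j := by
    intro i j
    have : s i * s j - s' i * s' j = 0 := congrFun (congrFun h0 i) j
    linarith
  by_cases hs : ∃ i, s i ≠ 0
  · obtain ⟨i, hi⟩ := hs
    have h2 : s' i = s i ∨ s' i = -s i := by
      have := h1 i i
      apply sq_eq_sq_iff_eq_or_eq_neg.1
      rw [pow_two, pow_two]
      exact this.symm
    rcases h2 with h2 | h2
    · left
      ext j
      have := h1 i j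
      rw [h2] at this
      exact (mul_left_cancel₀ hi this).symm
    · right
      ext j
      have := h1 i j
      rw [h2, neg_mul, ← mul_neg] at this
      rw [Pi.neg_apply, mul_left_cancel₀ hi this, neg_neg]
  · push Not at hs
    left
    ext j
    have := h1 j j
    rw [hs j, zero_mul] at this
    rw [hs j]
    exact mul_self_eq_zero.1 this.symm

omit [TopologicalSpace M] in
/-- symmetrization -/
private theorem trip_symm (e : Fin 4 → Fin 4 → M → ℝ) (he : ∀ i j, e i j = e j i) (l : M → ℝ)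
    (hl : l ∈ Submodule.span ℝ (Set.range (fun p : Fin 4 × Fin 4 => e p.1 p.2))) :
    ∃ k : Matrix (Fin 4) (Fin 4) ℝ, k.IsSymm ∧ l = ∑ i, ∑ j, k i j • e i j := by
  obtain ⟨c, hc⟩ := (Submodule.mem_span_range_iff_exists_fun ℝ).1 hl
  rw [Fintype.sum_prod_type] at hc
  refine ⟨fun i j => (1 / 2 : ℝ) * (c (i, j) + c (j, i)), ?_, ?_⟩
  · ext i j
    change (1 / 2 : ℝ) * (c (j, i) + c (i, j)) = (1 / 2 : ℝ) * (c (i, j) + c (j, i))
    ring
  · have h1 : ∑ i, ∑ j, c (j, i) • e i j = l := by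
      rw [Finset.sum_comm, ← hc]
      refine Finset.sum_congr rfl fun i _ => Finset.sum_congr rfl fun j _ => ?_
      rw [he j i]
    have h2 : ∑ i, ∑ j, ((1 / 2 : ℝ) * (c (i, j) + c (j, i))) • e i j =
        (1 / 2 : ℝ) • (∑ i, ∑ j, c (i, j) • e i j + ∑ i, ∑ j, c (j, i) • e i j) := by
      rw [← Finset.sum_add_distrib, Finset.smul_sum]
      refine Finset.sum_congr rfl fun i _ => ?_
      rw [← Finset.sum_add_distrib, Finset.smul_sum]
      refine Finset.sum_congr rfl fun j _ => ?_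
      rw [← add_smul, smul_smul]
    rw [h2, h1]
    simp only at hc
    rw [hc, ← two_smul ℝ l, smul_smul]
    norm_num

end

theorem tTrip (h1 : PairStmt) : TripStmt := by
  intro M _ V a b c A B C hab hac hbc hp
  obtain ⟨uab, huab⟩ := A.rk b
  obtain ⟨uac, huac⟩ := A.rk c
  obtain ⟨uba, huba⟩ := B.rk a
  obtain ⟨ubc, hubc⟩ := B.rk c
  obtain ⟨uca, huca⟩ := C.rk a
  obtain ⟨p2, hp2, hp2'⟩ := hp
  rw [huab] at hp2
  rw [huac] at hp2'
  have hp2b : uab p2 = 0 := mul_self_eq_zero.1 hp2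
  have hp2c : uac p2 ≠ 0 := fun h => hp2' (by rw [h, mul_zero])
  obtain ⟨q, hq⟩ := A.sep b (Ne.symm hab)
  have hq' : uab q ≠ 0 := fun h => hq (by rw [huab, h, mul_zero])
  obtain ⟨p3, hp3c, hp3b⟩ := trip_shift uab uac p2 q hp2b hp2c hq'
  obtain ⟨p1, hp10, hp1b, hp1c⟩ := trip_ker uab uac
  -- the three maps
  obtain ⟨Tab, hTab⟩ := h1 M V a b A B hab
  obtain ⟨Tac, hTac⟩ := h1 M V a c A C hac
  obtain ⟨Tbc, hTbc⟩ := h1 M V b c B C hbc
  have kab : ∀ p, uab p = 0 → A.S p p b = 0 := fun p hp => by rw [huab, hp, mul_zero]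
  have kac : ∀ p, uac p = 0 → A.S p p c = 0 := fun p hp => by rw [huac, hp, mul_zero]
  have kbc : ∀ p, ubc p = 0 → B.S p p c = 0 := fun p hp => by rw [hubc, hp, mul_zero]
  set r1 := Tab p1 with hr1
  set r2 := Tab p2 with hr2
  have e11 : A.S p1 p1 = B.S r1 r1 := hTab _ _ (kab _ hp1b) (kab _ hp1b)
  have e12 : A.S p1 p2 = B.S r1 r2 := hTab _ _ (kab _ hp1b) (kab _ hp2b)
  have e22 : A.S p2 p2 = B.S r2 r2 := hTab _ _ (kab _ hp2b) (kab _ hp2b)
  have ur1a : uba r1 = 0 := by
    have : B.S r1 r1 a = 0 := by rw [← e11]; exact A.ata _ _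
    rw [huba] at this
    exact mul_self_eq_zero.1 this
  have ur2a : uba r2 = 0 := by
    have : B.S r2 r2 a = 0 := by rw [← e22]; exact A.ata _ _
    rw [huba] at this
    exact mul_self_eq_zero.1 this
  have ur1c : ubc r1 = 0 := by
    have : B.S r1 r1 c = 0 := by rw [← e11]; exact kac _ hp1c
    rw [hubc] at this
    exact mul_self_eq_zero.1 this
  have ur2c : ubc r2 ≠ 0 := by
    intro h
    have : A.S p2 p2 c = 0 := by rw [e22, hubc, h, mul_zero]
    rw [huac] at this
    exact hp2c (mul_self_eq_zero.1 this)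
  obtain ⟨q2, hq2⟩ := B.sep a hab
  have hq2' : uba q2 ≠ 0 := fun h => hq2 (by rw [huba, h, mul_zero])
  obtain ⟨r4, hr4c, hr4a⟩ := trip_shift uba ubc r2 q2 ur2a ur2c hq2'
  set s1 := Tac p1 with hs1
  set s3 := Tac p3 with hs3
  have f11 : A.S p1 p1 = C.S s1 s1 := hTac _ _ (kac _ hp1c) (kac _ hp1c)
  have f13 : A.S p1 p3 = C.S s1 s3 := hTac _ _ (kac _ hp1c) (kac _ hp3c)
  have f33 : A.S p3 p3 = C.S s3 s3 := hTac _ _ (kac _ hp3c) (kac _ hp3c)
  have us3a : uca s3 = 0 := by
    have : C.S s3 s3 a = 0 := by rw [← f33]; exact A.ata _ _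
    rw [huca] at this
    exact mul_self_eq_zero.1 this
  -- choice of the sign
  obtain ⟨s4, g14, g44⟩ : ∃ s4 : R3, B.S r1 r4 = C.S s1 s4 ∧ B.S r4 r4 = C.S s4 s4 := by
    have t11 : B.S r1 r1 = C.S (Tbc r1) (Tbc r1) := hTbc _ _ (kbc _ ur1c) (kbc _ ur1c)
    have t14 : B.S r1 r4 = C.S (Tbc r1) (Tbc r4) := hTbc _ _ (kbc _ ur1c) (kbc _ hr4c)
    have t44 : B.S r4 r4 = C.S (Tbc r4) (Tbc r4) := hTbc _ _ (kbc _ hr4c) (kbc _ hr4c)
    have hsgn := trip_sign C s1 (Tbc r1) (by rw [← f11, e11, t11])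
    rcases hsgn with h | h
    · exact ⟨Tbc r4, by rw [t14, h], t44⟩
    · refine ⟨-Tbc r4, ?_, ?_⟩
      · rw [t14, h, map_neg, map_neg, LinearMap.neg_apply]
      · rw [t44, map_neg, map_neg, LinearMap.neg_apply, neg_neg]
  -- the ten functions
  let e : Fin 4 → Fin 4 → M → ℝ :=
    ![![A.S p1 p1, A.S p1 p2, A.S p1 p3, B.S r1 r4],
      ![A.S p1 p2, A.S p2 p2, A.S p2 p3, B.S r2 r4],
      ![A.S p1 p3, A.S p2 p3, A.S p3 p3, C.S s3 s4],
      ![B.S r1 r4, B.S r2 r4, C.S s3 s4, B.S r4 r4]]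
  have hsymm : ∀ i j, e i j = e j i := by
    intro i j
    fin_cases i <;> fin_cases j <;> rfl
  have hmem : ∀ i j, e i j ∈ V := by
    intro i j
    fin_cases i <;> fin_cases j <;> first | exact A.mem _ _ | exact B.mem _ _ | exact C.mem _ _
  have hr3 : ∀ x, ∃ u : Fin 4 → ℝ, ∀ i j, i ≠ 3 → j ≠ 3 → e i j x = u i * u j := by
    intro x
    obtain ⟨u, hu⟩ := A.rk x
    refine ⟨![u p1, u p2, u p3, 0], ?_⟩
    intro i j hi hj
    fin_cases i <;> fin_cases j <;>
      first
      | exact absurd rfl hi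
      | exact absurd rfl hj
      | exact hu _ _
      | exact (hu _ _).trans (mul_comm _ _)
  have hr2 : ∀ x, ∃ u : Fin 4 → ℝ, ∀ i j, i ≠ 2 → j ≠ 2 → e i j x = u i * u j := by
    intro x
    obtain ⟨u, hu⟩ := B.rk x
    have E11 : A.S p1 p1 x = u r1 * u r1 := by rw [e11]; exact hu _ _
    have E12 : A.S p1 p2 x = u r1 * u r2 := by rw [e12]; exact hu _ _
    have E22 : A.S p2 p2 x = u r2 * u r2 := by rw [e22]; exact hu _ _
    refine ⟨![u r1, u r2, 0, u r4], ?_⟩
    intro i j hi hj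
    fin_cases i <;> fin_cases j <;>
      first
      | exact absurd rfl hi
      | exact absurd rfl hj
      | exact E11
      | exact E12
      | exact E22
      | exact E12.trans (mul_comm _ _)
      | exact hu _ _
      | exact (hu _ _).trans (mul_comm _ _)
  have hr1 : ∀ x, ∃ u : Fin 4 → ℝ, ∀ i j, i ≠ 1 → j ≠ 1 → e i j x = u i * u j := by
    intro x
    obtain ⟨u, hu⟩ := C.rk x
    have E11 : A.S p1 p1 x = u s1 * u s1 := by rw [f11]; exact hu _ _
    have E13 : A.S p1 p3 x = u s1 * u s3 := by rw [f13]; exact hu _ _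
    have E33 : A.S p3 p3 x = u s3 * u s3 := by rw [f33]; exact hu _ _
    have E14 : B.S r1 r4 x = u s1 * u s4 := by rw [g14]; exact hu _ _
    have E44 : B.S r4 r4 x = u s4 * u s4 := by rw [g44]; exact hu _ _
    refine ⟨![u s1, 0, u s3, u s4], ?_⟩
    intro i j hi hj
    fin_cases i <;> fin_cases j <;>
      first
      | exact absurd rfl hi
      | exact absurd rfl hj
      | exact E11
      | exact E13
      | exact E33
      | exact E14
      | exact E44
      | exact E13.trans (mul_comm _ _)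
      | exact E14.trans (mul_comm _ _)
      | exact hu _ _
      | exact (hu _ _).trans (mul_comm _ _)
  refine ⟨e, hmem, hsymm, ?_, hr3, hr2, hr1⟩
  -- the span
  set W := Submodule.span ℝ (Set.range (fun p : Fin 4 × Fin 4 => e p.1 p.2)) with hW
  have heW : ∀ i j, e i j ∈ W := fun i j => Submodule.subset_span ⟨(i, j), rfl⟩
  let P : Fin 3 → R3 := ![p1, p2, p3]
  have hbasis : ∀ q : R3, ∃ c : Fin 3 → ℝ, ∑ i, c i • P i = q := by
    have hli : LinearIndependent ℝ P := by
      rw [Fintype.linearIndependent_iff]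
      intro g hg
      rw [Fin.sum_univ_three] at hg
      change g 0 • p1 + g 1 • p2 + g 2 • p3 = 0 at hg
      have g2 : g 2 = 0 := by
        have := congrArg uab hg
        rw [map_add, map_add, map_smul, map_smul, map_smul, hp1b, hp2b, map_zero, smul_zero,
          smul_zero, add_zero, zero_add, smul_eq_mul] at this
        exact (mul_eq_zero.1 this).resolve_right hp3b
      have g1 : g 1 = 0 := by
        have := congrArg uac hg
        rw [map_add, map_add, map_smul, map_smul, map_smul, hp1c, hp3c, map_zero, smul_zero,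
          smul_zero, add_zero, zero_add, smul_eq_mul] at this
        exact (mul_eq_zero.1 this).resolve_right hp2c
      have g0 : g 0 = 0 := by
        rw [g2, g1, zero_smul, zero_smul, add_zero, add_zero] at hg
        exact (smul_eq_zero.1 hg).resolve_right hp10
      intro i
      fin_cases i
      · exact g0
      · exact g1
      · exact g2
    have hspan := hli.span_eq_top_of_card_eq_finrank' (by simp)
    intro q
    have : q ∈ Submodule.span ℝ (Set.range P) := by rw [hspan]; trivial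
    exact (Submodule.mem_span_range_iff_exists_fun ℝ).1 this
  have hPW : ∀ i j, A.S (P i) (P j) ∈ W := by
    have hsy : ∀ p r, A.S p r = A.S r p := by
      intro p r
      funext x
      obtain ⟨u, hu⟩ := A.rk x
      rw [hu, hu, mul_comm]
    intro i j
    fin_cases i <;> fin_cases j
    · exact heW 0 0
    · exact heW 0 1
    · exact heW 0 2
    · change A.S p2 p1 ∈ W
      rw [hsy]
      exact heW 0 1
    · exact heW 1 1
    · exact heW 1 2
    · change A.S p3 p1 ∈ W
      rw [hsy]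
      exact heW 0 2
    · change A.S p3 p2 ∈ W
      rw [hsy]
      exact heW 1 2
    · exact heW 2 2
  have hAW : ∀ p r, A.S p r ∈ W := by
    intro p r
    obtain ⟨c, rfl⟩ := hbasis p
    obtain ⟨d, rfl⟩ := hbasis r
    simp only [map_sum, map_smul, LinearMap.sum_apply, LinearMap.smul_apply]
    refine Submodule.sum_mem _ fun i _ => ?_
    refine Submodule.smul_mem _ _ ?_
    refine Submodule.sum_mem _ fun j _ => ?_
    exact Submodule.smul_mem _ _ (hPW _ _)
  -- values at a
  have ha33 : 0 < B.S r4 r4 a := by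
    rw [huba]
    exact mul_self_pos.2 hr4a
  have hroot : 0 < Real.sqrt (B.S r4 r4 a) := Real.sqrt_pos.2 ha33
  have hgr : ∀ (i : Fin 4) (p : R3), e i 3 a = 0 → (∀ x, e i 3 x ^ 2 = A.S p p x * B.S r4 r4 x) →
      ∃ w : V, w.1 ∈ W ∧ w.1 a = 0 ∧ A.d w = p := by
    intro i p h0 hsq
    have := A.grad ⟨e i 3, hmem i 3⟩ ⟨B.S r4 r4, B.mem _ _⟩ p h0 hsq
    simp only at this
    rcases this with h | h
    · refine ⟨(Real.sqrt (B.S r4 r4 a))⁻¹ • ⟨e i 3, hmem i 3⟩, ?_, ?_, ?_⟩
      · exact Submodule.smul_mem _ _ (heW i 3)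
      · change (Real.sqrt (B.S r4 r4 a))⁻¹ * e i 3 a = 0
        rw [h0, mul_zero]
      · rw [map_smul, h, smul_smul, inv_mul_cancel₀ hroot.ne', one_smul]
    · refine ⟨(-(Real.sqrt (B.S r4 r4 a))⁻¹) • ⟨e i 3, hmem i 3⟩, ?_, ?_, ?_⟩
      · exact Submodule.smul_mem _ _ (heW i 3)
      · change (-(Real.sqrt (B.S r4 r4 a))⁻¹) * e i 3 a = 0
        rw [h0, mul_zero]
      · rw [map_smul, h, neg_smul, smul_neg, neg_neg, smul_smul, inv_mul_cancel₀ hroot.ne', one_smul]
  have hPd : ∀ i : Fin 3, ∃ w : V, w.1 ∈ W ∧ w.1 a = 0 ∧ A.d w = P i := by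
    intro i
    fin_cases i
    · apply hgr 0 p1
      · change B.S r1 r4 a = 0
        rw [huba, ur1a, zero_mul]
      · intro x
        obtain ⟨u, hu⟩ := hr2 x
        have k1 : A.S p1 p1 x = u 0 * u 0 := hu 0 0 (by decide) (by decide)
        have k2 : B.S r4 r4 x = u 3 * u 3 := hu 3 3 (by decide) (by decide)
        rw [hu 0 3 (by decide) (by decide), k1, k2]
        ring
    · apply hgr 1 p2
      · change B.S r2 r4 a = 0
        rw [huba, ur2a, zero_mul]
      · intro x
        obtain ⟨u, hu⟩ := hr2 x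
        have k1 : A.S p2 p2 x = u 1 * u 1 := hu 1 1 (by decide) (by decide)
        have k2 : B.S r4 r4 x = u 3 * u 3 := hu 3 3 (by decide) (by decide)
        rw [hu 1 3 (by decide) (by decide), k1, k2]
        ring
    · apply hgr 2 p3
      · change C.S s3 s4 a = 0
        rw [huca, us3a, zero_mul]
      · intro x
        obtain ⟨u, hu⟩ := hr1 x
        have k1 : A.S p3 p3 x = u 2 * u 2 := hu 2 2 (by decide) (by decide)
        have k2 : B.S r4 r4 x = u 3 * u 3 := hu 3 3 (by decide) (by decide)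
        rw [hu 2 3 (by decide) (by decide), k1, k2]
        ring
  have hqd : ∀ q : R3, ∃ w : V, w.1 ∈ W ∧ w.1 a = 0 ∧ A.d w = q := by
    intro q
    obtain ⟨c, rfl⟩ := hbasis q
    choose w hw1 hw2 hw3 using hPd
    refine ⟨∑ i, c i • w i, ?_, ?_, ?_⟩
    · rw [Submodule.coe_sum]
      exact Submodule.sum_mem _ fun i _ => Submodule.smul_mem _ _ (hw1 i)
    · rw [Submodule.coe_sum, Finset.sum_apply]
      refine Finset.sum_eq_zero fun i _ => ?_
      change c i * (w i).1 a = 0
      rw [hw2, mul_zero]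
    · rw [map_sum]
      refine Finset.sum_congr rfl fun i _ => ?_
      rw [map_smul, hw3]
  intro l hl
  apply trip_symm e hsymm
  rw [← hW]
  set κ := l a / B.S r4 r4 a with hκ
  set l1 : V := ⟨l, hl⟩ - κ • ⟨B.S r4 r4, B.mem _ _⟩ with hl1
  have hl1a : l1.1 a = 0 := by
    change l a - κ * B.S r4 r4 a = 0
    rw [hκ, div_mul_cancel₀ _ ha33.ne', sub_self]
  obtain ⟨w, hw1, hw2, hw3⟩ := hqd (A.d l1)
  obtain ⟨c, _, hc⟩ := A.ker (l1 - w) (by
    change l1.1 a - w.1 a = 0
    rw [hl1a, hw2, sub_self]) (by rw [map_sub, hw3, sub_self])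
  have h2 : l = (l1 - w).1 + w.1 + κ • B.S r4 r4 := by
    change l = (l - κ • B.S r4 r4 - w.1) + w.1 + κ • B.S r4 r4
    abel
  rw [h2]
  refine Submodule.add_mem _ (Submodule.add_mem _ ?_ hw1) (Submodule.smul_mem _ _ (heW 3 3))
  rw [hc]
  exact Submodule.sum_mem _ fun i _ => Submodule.sum_mem _ fun j _ => Submodule.smul_mem _ _ (hAW _ _)

end Ver

end TightRP
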